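import Mathlib

/-!
# [H93 RS DEFS]  the spacing of `1/a + 1/b` (Robert - Sargos, exponent -1), by theta duality

THEOREM (rs). For every ε > 0 there is C: the number of (a,b,c,d) in (R,2R]^4 with |1/a+1/b-1/c-1/d| ≤ R^-3 is ≤ C R^(2+ε).

NOTATION. `φ_j(y) = y + j²/(4y)`, `x(s,t) = s - t²/s` (`= 4ab/(a+b)` for `s = a+b`, `t = a-b`), `f(R,u) = R/(1+R‖u‖)`,
`q(θ,R,y) = ∑_{|j| ≤ 2θy} f(R, φ_j(y))`, `Q(θ,J,R) = ∫_{1/4}^J q(y)²/y dy`,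
`A(θ,R,J) = ∑ exp(-π J² (x-x')²)` over pairs of `(s,t)`, `R ≤ s < 2R`, `|t| ≤ θ s`.

PLAN. (TH) theta: `∑_t exp(-πη(t/s-κ)²) e(-yt²/s) = ∑_j g1(s) e(s j²/4y)` (Th.th1) and its inverse (Th.th2); the amplitudes
`g1, g2` are localised at `|j/2y - κ| ≤ η^(-1/2+)`, `η = (RJ)^ε`.
(T1) `A(θ,R,J) ≤ C (RJ)^ε [R³/J + (R/J) Q(θ',J(RJ)^ε,R)]`: gaussian Parseval in `y` (T1a), theta in `t`, the sum over `s` is
then linear: Abel (T1p), assembly (T1).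
(T2) `Q(θ,J,R) ≤ C (RJ)^ε [J² + R + J max_V A(θ',V,J)/V]`: Fejer kernels (Fj), theta in `j` (T2p), gaussian large sieve with
amplitude (Ls), small `y` (Small), assembly (T2).
(M) `Q(θ,J,R) ≤ C (R/R') Q(θ',2J,R') + C R`, `R' ≤ R` (Mono).
(IT) `HA β → HQ β' → HA β''`, `β' = 3 - 1/(β-1)`; start `HA 3` (Base). So `HA β` for all `β > 2`; `rs` in Cnt.
-/

set_option autoImplicit false

namespace Pool.Agent.H93.RS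

open Finset Real

/-- `e(x) = exp(2πix)` -/
noncomputable def ee (x : ℝ) : ℂ := Complex.exp ((2 * π * x : ℝ) * Complex.I)

/-- `φ_j(y) = y + j²/(4y)` -/
noncomputable def ph (j : ℤ) (y : ℝ) : ℝ := y + (j : ℝ) ^ 2 / (4 * y)

/-- `x(s,t) = s - t²/s` -/
noncomputable def xx (s : ℕ) (t : ℤ) : ℝ := (s : ℝ) - (t : ℝ) ^ 2 / s

/-- distance to the nearest integer -/
noncomputable def dz (u : ℝ) : ℝ := |u - round u|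

/-- `f(R,u) = R/(1+R‖u‖)` -/
noncomputable def ff (R u : ℝ) : ℝ := R / (1 + R * dz u)

/-- the integers `|j| ≤ a` -/
noncomputable def Jn (a : ℝ) : Finset ℤ := Finset.Icc (-⌊a⌋) ⌊a⌋

/-- `q(θ,R,y) = ∑_{|j| ≤ 2θy} f(R, φ_j(y))` -/
noncomputable def qq (θ R y : ℝ) : ℝ := ∑ j ∈ Jn (2 * θ * y), ff R (ph j y)

/-- `Q(θ,J,R) = ∫_{1/4}^J q(y)²/y dy` -/
noncomputable def QQ (θ J R : ℝ) : ℝ := ∫ y in Set.Ioc (1 / 4 : ℝ) J, (qq θ R y) ^ 2 / y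

/-- the pairs `(s,t)`, `R ≤ s < 2R`, `|t| ≤ θ s` -/
noncomputable def PP (θ : ℝ) (R : ℕ) : Finset (Σ _ : ℕ, ℤ) :=
  (Finset.Ico R (2 * R)).sigma (fun s => Jn (θ * s))

/-- `A(θ,R,J)` -/
noncomputable def AA (θ : ℝ) (R : ℕ) (J : ℝ) : ℝ :=
  ∑ p ∈ PP θ R, ∑ p' ∈ PP θ R, Real.exp (-π * J ^ 2 * (xx p.1 p.2 - xx p'.1 p'.2) ^ 2)

/-- amplitude of (TH), direction t → j, as a function of s -/
noncomputable def g1 (η y δ s : ℝ) : ℂ :=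
  1 / (((η / s ^ 2 : ℝ) : ℂ) + ((2 * y / s : ℝ) : ℂ) * Complex.I) ^ (1 / 2 : ℂ) *
    Complex.exp (-((π * η * δ ^ 2 : ℝ) : ℂ) / (1 - ((η / (2 * y * s) : ℝ) : ℂ) * Complex.I))

/-- amplitude of (TH), direction j → l, as a function of y -/
noncomputable def g2 (η m δ y : ℝ) : ℂ :=
  1 / (((η / (4 * y ^ 2) : ℝ) : ℂ) - ((m / (2 * y) : ℝ) : ℂ) * Complex.I) ^ (1 / 2 : ℂ) *
    Complex.exp (-((π * η * δ ^ 2 : ℝ) : ℂ) / (1 + ((η / (2 * y * m) : ℝ) : ℂ) * Complex.I))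

/-- `S_κ(y) = ∑_{R ≤ s < 2R} ∑_t exp(-πη(t/s-κ)²) e(y x(s,t))` -/
noncomputable def SS (R : ℕ) (η κ y : ℝ) : ℂ :=
  ∑ s ∈ Finset.Ico R (2 * R), ∑' t : ℤ, ((Real.exp (-(π * η * ((t : ℝ) / s - κ) ^ 2)) : ℝ) : ℂ) * ee (y * xx s t)

/-- hypothesis `A(R,J) ≪ R^ε (R³/J + R^β)` -/
def HA (β : ℝ) : Prop := ∀ θ : ℝ, 0 < θ → θ < 1 → ∀ ε : ℝ, 0 < ε → ∃ C : ℝ, ∀ R : ℕ, 1 ≤ R → ∀ J : ℝ, 1 ≤ J →
  AA θ R J ≤ C * (R : ℝ) ^ ε * ((R : ℝ) ^ 3 / J + (R : ℝ) ^ β)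

/-- hypothesis `Q(J,R) ≪ (JR)^ε (J² + R J^(β-1))` -/
def HQ (β : ℝ) : Prop := ∀ θ : ℝ, 0 < θ → θ < 1 → ∀ ε : ℝ, 0 < ε → ∃ C : ℝ, ∀ R : ℝ, 1 ≤ R → ∀ J : ℝ, 1 ≤ J →
  QQ θ J R ≤ C * (R * J) ^ ε * (J ^ 2 + R * J ^ (β - 1))

/-! ### basic facts -/

theorem mem_Jn {a : ℝ} {j : ℤ} : j ∈ Jn a ↔ |(j : ℝ)| ≤ a := by
  unfold Jn
  rw [Finset.mem_Icc, abs_le, neg_le, Int.le_floor, Int.le_floor]
  push_cast
  constructor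
  · rintro ⟨h1, h2⟩
    exact ⟨by linarith, h2⟩
  · rintro ⟨h1, h2⟩
    exact ⟨by linarith, h2⟩

theorem norm_ee (x : ℝ) : ‖ee x‖ = 1 := by
  unfold ee
  exact Complex.norm_exp_ofReal_mul_I _

theorem ee_add (x y : ℝ) : ee (x + y) = ee x * ee y := by
  unfold ee
  rw [← Complex.exp_add]
  congr 1
  push_cast
  ring

theorem dz_nonneg (u : ℝ) : 0 ≤ dz u := abs_nonneg _

theorem dz_le_half (u : ℝ) : dz u ≤ 1 / 2 := abs_sub_round u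

theorem ff_nonneg {R : ℝ} (hR : 0 ≤ R) (u : ℝ) : 0 ≤ ff R u :=
  div_nonneg hR (add_nonneg zero_le_one (mul_nonneg hR (dz_nonneg u)))

theorem ff_le {R : ℝ} (hR : 0 ≤ R) (u : ℝ) : ff R u ≤ R := by
  unfold ff
  apply div_le_self hR
  have := mul_nonneg hR (dz_nonneg u)
  linarith

theorem card_Jn {a : ℝ} (ha : 0 ≤ a) : ((Jn a).card : ℝ) ≤ 2 * a + 1 := by
  unfold Jn
  rw [Int.card_Icc]
  have h0 : (0 : ℤ) ≤ ⌊a⌋ := Int.floor_nonneg.2 ha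
  have h1 : (((⌊a⌋ + 1 - -⌊a⌋).toNat : ℕ) : ℝ) = ((⌊a⌋ + 1 - -⌊a⌋ : ℤ) : ℝ) := by
    have : (((⌊a⌋ + 1 - -⌊a⌋).toNat : ℕ) : ℤ) = ⌊a⌋ + 1 - -⌊a⌋ := Int.toNat_of_nonneg (by omega)
    exact_mod_cast this
  rw [h1]
  push_cast
  have := Int.floor_le a
  linarith

theorem qq_nonneg {θ R : ℝ} (hR : 0 ≤ R) (y : ℝ) : 0 ≤ qq θ R y :=
  Finset.sum_nonneg fun j _ => ff_nonneg hR _

theorem qq_le {θ R y : ℝ} (hθ : 0 ≤ θ) (hθ1 : θ ≤ 1) (hR : 0 ≤ R) (hy : 0 ≤ y) : qq θ R y ≤ (4 * y + 1) * R := by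
  unfold qq
  calc ∑ j ∈ Jn (2 * θ * y), ff R (ph j y) ≤ ∑ j ∈ Jn (2 * θ * y), R := Finset.sum_le_sum fun j _ => ff_le hR _
    _ = (Jn (2 * θ * y)).card * R := by rw [Finset.sum_const, nsmul_eq_mul]
    _ ≤ (4 * y + 1) * R := by
        apply mul_le_mul_of_nonneg_right _ hR
        have h1 := card_Jn (a := 2 * θ * y) (by positivity)
        have h2 : θ * y ≤ 1 * y := mul_le_mul_of_nonneg_right hθ1 hy
        linarith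

theorem AA_nonneg (θ : ℝ) (R : ℕ) (J : ℝ) : 0 ≤ AA θ R J :=
  Finset.sum_nonneg fun _ _ => Finset.sum_nonneg fun _ _ => (Real.exp_pos _).le

theorem AA_mono (θ : ℝ) (R : ℕ) {J J' : ℝ} (hJ : 0 ≤ J) (h : J ≤ J') : AA θ R J' ≤ AA θ R J := by
  unfold AA
  refine Finset.sum_le_sum fun p _ => Finset.sum_le_sum fun p' _ => Real.exp_le_exp.2 ?_
  have h1 : J ^ 2 ≤ J' ^ 2 := by nlinarith
  have h2 : 0 ≤ π * (xx p.1 p.2 - xx p'.1 p'.2) ^ 2 := mul_nonneg Real.pi_pos.le (sq_nonneg _)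
  nlinarith

end Pool.Agent.H93.RS
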