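import Mathlib
import Pool.Agent.H93.RS.Defs

/-!
# [H93 RS GS]  gaussian sums over a lattice
-/

set_option autoImplicit false

namespace Pool.Agent.H93.RS

open Finset Real MeasureTheory

theorem gs_summable {a c κ : ℝ} (ha : 0 < a) (hc : 0 < c) :
    Summable (fun j : ℤ => Real.exp (-(c * ((j : ℝ) / a - κ) ^ 2))) := by
  have h1 : Summable (fun j : ℤ => Real.exp (-(c / (2 * a ^ 2)) * (j : ℝ) ^ 2)) := by
    have hp : 0 < c / (2 * a ^ 2) := by positivity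
    have hs : Summable (fun n : ℕ => Real.exp (-(c / (2 * a ^ 2)) * (n : ℝ) ^ 2)) := by
      have hg : Summable (fun n : ℕ => (Real.exp (-(c / (2 * a ^ 2)))) ^ n) :=
        summable_geometric_of_lt_one (Real.exp_pos _).le (Real.exp_lt_one_iff.2 (by linarith))
      refine Summable.of_nonneg_of_le (fun n => (Real.exp_pos _).le) (fun n => ?_) hg
      rw [← Real.exp_nat_mul]
      apply Real.exp_le_exp.2
      have h2 : (n : ℝ) ≤ (n : ℝ) ^ 2 := by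
        have : n ≤ n ^ 2 := Nat.le_self_pow (by norm_num) n
        exact_mod_cast this
      nlinarith
    refine Summable.of_nat_of_neg (f := fun j : ℤ => Real.exp (-(c / (2 * a ^ 2)) * (j : ℝ) ^ 2)) ?_ ?_
    · simpa using hs
    · simpa using hs
  refine Summable.of_nonneg_of_le (fun n => (Real.exp_pos _).le) (fun j => ?_) (h1.mul_left (Real.exp (c * κ ^ 2)))
  rw [← Real.exp_add]
  apply Real.exp_le_exp.2
  have h3 : (j : ℝ) ^ 2 / a ^ 2 = ((j : ℝ) / a) ^ 2 := by rw [div_pow]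
  have h4 : -(c / (2 * a ^ 2)) * (j : ℝ) ^ 2 = -(c / 2) * ((j : ℝ) / a) ^ 2 := by
    rw [← h3]
    field_simp
  rw [h4]
  nlinarith [sq_nonneg ((j : ℝ) / a - 2 * κ)]

/-- the majorant of the gaussian at distance `≥ m` -/
theorem gs_term {c u : ℝ} (hc : 1 / 4 ≤ c) (m : ℕ) (hu : (m : ℝ) ≤ |u|) :
    Real.exp (-(c * u ^ 2)) ≤ 4 / 3 * (2 / 3 : ℝ) ^ m := by
  have h1 : Real.exp (1 / 4 : ℝ) ≤ 4 / 3 := by
    have h := Real.add_one_le_exp (-(1 / 4) : ℝ)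
    have h2 : Real.exp (1 / 4 : ℝ) * Real.exp (-(1 / 4) : ℝ) = 1 := by
      rw [← Real.exp_add]; simp
    have h3 := Real.exp_pos (1 / 4 : ℝ)
    nlinarith
  have h2 : Real.exp (-(1 / 2) : ℝ) ≤ 2 / 3 := by
    have h := Real.add_one_le_exp (1 / 2 : ℝ)
    have h2 : Real.exp (1 / 2 : ℝ) * Real.exp (-(1 / 2) : ℝ) = 1 := by
      rw [← Real.exp_add]; simp
    have h3 := Real.exp_pos (-(1 / 2) : ℝ)
    nlinarith
  calc Real.exp (-(c * u ^ 2)) ≤ Real.exp (1 / 4 + (m : ℝ) * (-(1 / 2))) := by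
        apply Real.exp_le_exp.2
        have h5 : u ^ 2 = |u| ^ 2 := (sq_abs u).symm
        rw [h5]
        nlinarith [sq_nonneg (|u| - 1), sq_nonneg |u|]
    _ = Real.exp (1 / 4) * (Real.exp (-(1 / 2))) ^ m := by
        rw [Real.exp_add, Real.exp_nat_mul]
    _ ≤ 4 / 3 * (2 / 3 : ℝ) ^ m :=
        mul_le_mul h1 (pow_le_pow_left₀ (Real.exp_pos _).le h2 m) (by positivity) (by norm_num)

/-- majorant on the cell `[n, n+1)` -/
noncomputable def gw (n : ℤ) : ℝ := 4 / 3 * (2 / 3 : ℝ) ^ (if 0 ≤ n then n.toNat else (-n - 1).toNat)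

theorem gw_hasSum : HasSum gw 8 := by
  have h0 : HasSum (fun n : ℕ => 4 / 3 * (2 / 3 : ℝ) ^ n) 4 := by
    have h := (hasSum_geometric_of_lt_one (r := (2 / 3 : ℝ)) (by norm_num) (by norm_num)).mul_left (4 / 3)
    have h2 : (4 / 3 : ℝ) * (1 - 2 / 3)⁻¹ = 4 := by norm_num
    rwa [h2] at h
  have h1 : HasSum (fun n : ℕ => gw (n : ℤ)) 4 := by
    convert h0 using 2 with n
    unfold gw
    simp
  have h2 : HasSum (fun n : ℕ => gw (-((n : ℤ) + 1))) 4 := by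
    convert h0 using 2 with n
    unfold gw
    have h3 : ¬ (0 : ℤ) ≤ -((n : ℤ) + 1) := by omega
    rw [if_neg h3]
    have h4 : (- -((n : ℤ) + 1) - 1).toNat = n := by omega
    rw [h4]
  have h := HasSum.of_nat_of_neg_add_one h1 h2
  have h5 : (4 : ℝ) + 4 = 8 := by norm_num
  rwa [h5] at h

theorem gw_nonneg (n : ℤ) : 0 ≤ gw n := by
  unfold gw
  positivity

theorem gs_cell {c u : ℝ} (hc : 1 / 4 ≤ c) : Real.exp (-(c * u ^ 2)) ≤ gw ⌊u⌋ := by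
  unfold gw
  split_ifs with h
  · apply gs_term hc
    have h1 : ((⌊u⌋.toNat : ℕ) : ℤ) = ⌊u⌋ := Int.toNat_of_nonneg h
    have h2 : ((⌊u⌋.toNat : ℕ) : ℝ) = ((⌊u⌋ : ℤ) : ℝ) := by exact_mod_cast h1
    rw [h2]
    exact (Int.floor_le u).trans (le_abs_self u)
  · apply gs_term hc
    have h1 : (((-⌊u⌋ - 1).toNat : ℕ) : ℤ) = -⌊u⌋ - 1 := Int.toNat_of_nonneg (by omega)
    have h2 : (((-⌊u⌋ - 1).toNat : ℕ) : ℝ) = ((-⌊u⌋ - 1 : ℤ) : ℝ) := by exact_mod_cast h1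
    rw [h2]
    push_cast
    have h3 := Int.lt_floor_add_one u
    have h4 := neg_le_abs u
    linarith

theorem gs_card {a κ : ℝ} (ha : 0 < a) (s : Finset ℤ) (n : ℤ) :
    (({j ∈ s | ⌊(j : ℝ) / a - κ⌋ = n} : Finset ℤ).card : ℝ) ≤ 1 + a := by
  have hsub : ({j ∈ s | ⌊(j : ℝ) / a - κ⌋ = n} : Finset ℤ) ⊆ Finset.Ico ⌈a * (n + κ)⌉ ⌈a * (n + κ) + a⌉ := by
    intro j hj
    rw [Finset.mem_filter] at hj
    have h1 := Int.floor_le ((j : ℝ) / a - κ)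
    have h2 := Int.lt_floor_add_one ((j : ℝ) / a - κ)
    rw [hj.2] at h1 h2
    have h3 : (j : ℝ) / a * a = j := div_mul_cancel₀ _ ha.ne'
    rw [Finset.mem_Ico, Int.ceil_le, Int.lt_ceil]
    constructor
    · nlinarith
    · nlinarith
  have h1 : (({j ∈ s | ⌊(j : ℝ) / a - κ⌋ = n} : Finset ℤ).card : ℝ) ≤ ((⌈a * (n + κ) + a⌉ - ⌈a * (n + κ)⌉ : ℤ) : ℝ) := by
    have h2 := Finset.card_le_card hsub
    rw [Int.card_Ico] at h2
    have h3 : ⌈a * (n + κ)⌉ ≤ ⌈a * (n + κ) + a⌉ := Int.ceil_le_ceil (by linarith)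
    have h4 : ((⌈a * (n + κ) + a⌉ - ⌈a * (n + κ)⌉).toNat : ℤ) = ⌈a * (n + κ) + a⌉ - ⌈a * (n + κ)⌉ :=
      Int.toNat_of_nonneg (by omega)
    have h5 : ((({j ∈ s | ⌊(j : ℝ) / a - κ⌋ = n} : Finset ℤ).card : ℕ) : ℤ) ≤ ⌈a * (n + κ) + a⌉ - ⌈a * (n + κ)⌉ := by
      rw [← h4]
      exact_mod_cast h2
    exact_mod_cast h5
  refine h1.trans ?_
  push_cast
  have h6 := Int.ceil_lt_add_one (a * (n + κ) + a)
  have h7 := Int.le_ceil (a * (n + κ))
  linarith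

/-- at most `a + 1` integers `j` have `j/a - κ ∈ [n, n+1)` -/
theorem gs_le {a c κ : ℝ} (ha : 0 < a) (hc : 1 / 4 ≤ c) :
    ∑' j : ℤ, Real.exp (-(c * ((j : ℝ) / a - κ) ^ 2)) ≤ 10 * (1 + a) := by
  have hc0 : 0 < c := by linarith
  refine Summable.tsum_le_of_sum_le (gs_summable ha hc0) (fun s => ?_)
  calc ∑ j ∈ s, Real.exp (-(c * ((j : ℝ) / a - κ) ^ 2)) ≤ ∑ j ∈ s, gw ⌊(j : ℝ) / a - κ⌋ :=
        Finset.sum_le_sum fun j _ => gs_cell hc
    _ = ∑ n ∈ s.image (fun j : ℤ => ⌊(j : ℝ) / a - κ⌋), (({j ∈ s | ⌊(j : ℝ) / a - κ⌋ = n} : Finset ℤ).card) • gw n :=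
        Finset.sum_comp gw (fun j : ℤ => ⌊(j : ℝ) / a - κ⌋)
    _ ≤ ∑ n ∈ s.image (fun j : ℤ => ⌊(j : ℝ) / a - κ⌋), (1 + a) * gw n := by
        refine Finset.sum_le_sum fun n _ => ?_
        rw [nsmul_eq_mul]
        exact mul_le_mul_of_nonneg_right (gs_card ha s n) (gw_nonneg n)
    _ = (1 + a) * ∑ n ∈ s.image (fun j : ℤ => ⌊(j : ℝ) / a - κ⌋), gw n := by rw [Finset.mul_sum]
    _ ≤ (1 + a) * 8 := by
        apply mul_le_mul_of_nonneg_left _ (by linarith)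
        exact sum_le_hasSum _ (fun n _ => gw_nonneg n) gw_hasSum
    _ ≤ 10 * (1 + a) := by linarith

end Pool.Agent.H93.RS
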