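import Mathlib
import Pool.Agent.H93.RS.Defs
import Pool.Agent.H93.RS.Gs

/-!
# [H93 RS BASE]  trivial bound of A
-/

set_option autoImplicit false

namespace Pool.Agent.H93.RS

open Finset Real MeasureTheory

theorem xx_gap {s s' : ℕ} (hs : 1 ≤ s) (h : s < s') (t : ℤ) : xx s t + 1 ≤ xx s' t := by
  unfold xx
  have h1 : (1 : ℝ) ≤ s := by exact_mod_cast hs
  have h2 : (s : ℝ) + 1 ≤ s' := by exact_mod_cast h
  have h3 : (t : ℝ) ^ 2 / s' ≤ (t : ℝ) ^ 2 / s := by
    apply div_le_div_of_nonneg_left (sq_nonneg _) (by linarith) (by linarith)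
  linarith

/-- a sum over a set of 1-spaced reals -/
theorem sum_gap (R : ℕ) (hR : 1 ≤ R) (x : ℝ) (t : ℤ) :
    ∑ s ∈ Finset.Ico R (2 * R), Real.exp (-(x - xx s t) ^ 2) ≤ 40 := by
  classical
  have hs0 : Summable (fun n : ℤ => Real.exp (-(1 * ((n : ℝ) / 1 - 0) ^ 2))) :=
    gs_summable (a := 1) (c := 1) (κ := 0) (by norm_num) (by norm_num)
  have hs1 : Summable (fun n : ℤ => Real.exp (-(1 * ((n : ℝ) / 1 - (-1)) ^ 2))) :=
    gs_summable (a := 1) (c := 1) (κ := -1) (by norm_num) (by norm_num)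
  have hl0 := gs_le (a := 1) (c := 1) (κ := 0) (by norm_num) (by norm_num)
  have hl1 := gs_le (a := 1) (c := 1) (κ := -1) (by norm_num) (by norm_num)
  set G : ℤ → ℝ := fun n => Real.exp (-(1 * ((n : ℝ) / 1 - 0) ^ 2)) +
    Real.exp (-(1 * ((n : ℝ) / 1 - (-1)) ^ 2)) with hG
  have hGs : Summable G := hs0.add hs1
  have hGt : ∑' n, G n ≤ 40 := by
    rw [hG, Summable.tsum_add hs0 hs1]
    linarith
  have hG0 : ∀ n, 0 ≤ G n := fun n => by rw [hG]; positivity
  set f : ℕ → ℤ := fun s => ⌊xx s t - x⌋ with hf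
  have hinj : Set.InjOn f (Finset.Ico R (2 * R) : Set ℕ) := by
    intro s hs s' hs' hss
    simp only [Finset.coe_Ico, Set.mem_Ico] at hs hs'
    by_contra hne
    rcases Nat.lt_or_gt_of_ne hne with hlt | hlt
    · have h1 := xx_gap (by omega : 1 ≤ s) hlt t
      have h2 : f s + 1 ≤ f s' := by
        simp only [hf]
        rw [Int.le_floor]
        push_cast
        have := Int.floor_le (xx s t - x)
        linarith
      omega
    · have h1 := xx_gap (by omega : 1 ≤ s') hlt t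
      have h2 : f s' + 1 ≤ f s := by
        simp only [hf]
        rw [Int.le_floor]
        push_cast
        have := Int.floor_le (xx s' t - x)
        linarith
      omega
  have hterm : ∀ s ∈ Finset.Ico R (2 * R), Real.exp (-(x - xx s t) ^ 2) ≤ G (f s) := by
    intro s _
    have h1 := Int.floor_le (xx s t - x)
    have h2 := Int.lt_floor_add_one (xx s t - x)
    simp only [hG, hf]
    rcases le_or_gt 0 ⌊xx s t - x⌋ with h0 | h0
    · have h3 : (0 : ℝ) ≤ (⌊xx s t - x⌋ : ℝ) := by exact_mod_cast h0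
      have h4 : Real.exp (-(x - xx s t) ^ 2) ≤
          Real.exp (-(1 * ((⌊xx s t - x⌋ : ℝ) / 1 - 0) ^ 2)) := by
        apply Real.exp_le_exp.2
        nlinarith
      have h5 := Real.exp_pos (-(1 * ((⌊xx s t - x⌋ : ℝ) / 1 - (-1)) ^ 2))
      linarith
    · have h3 : (⌊xx s t - x⌋ : ℝ) + 1 ≤ 0 := by
        have : ⌊xx s t - x⌋ + 1 ≤ 0 := by omega
        exact_mod_cast this
      have h4 : Real.exp (-(x - xx s t) ^ 2) ≤
          Real.exp (-(1 * ((⌊xx s t - x⌋ : ℝ) / 1 - (-1)) ^ 2)) := by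
        apply Real.exp_le_exp.2
        nlinarith
      have h5 := Real.exp_pos (-(1 * ((⌊xx s t - x⌋ : ℝ) / 1 - 0) ^ 2))
      linarith
  calc ∑ s ∈ Finset.Ico R (2 * R), Real.exp (-(x - xx s t) ^ 2)
      ≤ ∑ s ∈ Finset.Ico R (2 * R), G (f s) := Finset.sum_le_sum hterm
    _ = ∑ n ∈ (Finset.Ico R (2 * R)).image f, G n := by
        rw [Finset.sum_image hinj]
    _ ≤ ∑' n, G n := hGs.sum_le_tsum _ (fun n _ => hG0 n)
    _ ≤ 40 := hGt

/-- the trivial bound -/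
theorem AA_triv {θ : ℝ} (hθ : 0 < θ) (hθ1 : θ < 1) {R : ℕ} (hR : 1 ≤ R) {J : ℝ} (hJ : 1 ≤ J) :
    AA θ R J ≤ 1000 * (R : ℝ) ^ 3 := by
  have hR1 : (1 : ℝ) ≤ R := by exact_mod_cast hR
  have hsub : ∀ s ∈ Finset.Ico R (2 * R), Jn (θ * s) ⊆ Jn (2 * R) := by
    intro s hs j hj
    rw [mem_Jn] at hj ⊢
    have h1 : (s : ℝ) ≤ 2 * R := by
      have := (Finset.mem_Ico.1 hs).2.le
      exact_mod_cast this
    have h2 : (0 : ℝ) ≤ s := by positivity
    nlinarith
  have hcard : ((Jn (2 * R)).card : ℝ) ≤ 5 * R := by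
    have := card_Jn (a := 2 * (R : ℝ)) (by positivity)
    linarith
  -- inner sum
  have hin : ∀ x : ℝ, ∑ p' ∈ PP θ R, Real.exp (-π * J ^ 2 * (x - xx p'.1 p'.2) ^ 2) ≤ 200 * R := by
    intro x
    unfold PP
    rw [Finset.sum_sigma]
    calc ∑ s ∈ Finset.Ico R (2 * R), ∑ t ∈ Jn (θ * s), Real.exp (-π * J ^ 2 * (x - xx s t) ^ 2)
        ≤ ∑ s ∈ Finset.Ico R (2 * R), ∑ t ∈ Jn (2 * R), Real.exp (-(x - xx s t) ^ 2) := by
          apply Finset.sum_le_sum
          intro s hs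
          refine le_trans (Finset.sum_le_sum_of_subset_of_nonneg (hsub s hs)
            (fun _ _ _ => (Real.exp_pos _).le)) ?_
          apply Finset.sum_le_sum
          intro t _
          apply Real.exp_le_exp.2
          have h1 : 0 ≤ (x - xx s t) ^ 2 := sq_nonneg _
          have h2 : 1 ≤ π * J ^ 2 := by nlinarith [Real.pi_gt_three]
          nlinarith
      _ = ∑ t ∈ Jn (2 * R), ∑ s ∈ Finset.Ico R (2 * R), Real.exp (-(x - xx s t) ^ 2) :=
          Finset.sum_comm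
      _ ≤ ∑ t ∈ Jn (2 * R), (40 : ℝ) := Finset.sum_le_sum fun t _ => sum_gap R hR x t
      _ = (Jn (2 * R)).card * 40 := by rw [Finset.sum_const, nsmul_eq_mul]
      _ ≤ 200 * R := by linarith
  have hPP : ((PP θ R).card : ℝ) ≤ 5 * (R : ℝ) ^ 2 := by
    unfold PP
    rw [Finset.card_sigma]
    push_cast
    calc ∑ s ∈ Finset.Ico R (2 * R), ((Jn (θ * s)).card : ℝ)
        ≤ ∑ s ∈ Finset.Ico R (2 * R), 5 * (R : ℝ) := by
          apply Finset.sum_le_sum
          intro s hs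
          refine le_trans ?_ hcard
          have := Finset.card_le_card (hsub s hs)
          exact_mod_cast this
      _ = 5 * (R : ℝ) ^ 2 := by
          rw [Finset.sum_const, nsmul_eq_mul, Nat.card_Ico]
          have : 2 * R - R = R := by omega
          rw [this]
          ring
  unfold AA
  calc ∑ p ∈ PP θ R, ∑ p' ∈ PP θ R, Real.exp (-π * J ^ 2 * (xx p.1 p.2 - xx p'.1 p'.2) ^ 2)
      ≤ ∑ p ∈ PP θ R, 200 * (R : ℝ) := Finset.sum_le_sum fun p _ => hin _
    _ = (PP θ R).card * (200 * R) := by rw [Finset.sum_const, nsmul_eq_mul]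
    _ ≤ 5 * (R : ℝ) ^ 2 * (200 * R) := by gcongr
    _ = 1000 * (R : ℝ) ^ 3 := by ring

/-- for fixed `p = (s,t)` and `t'`, the values `x(s',t')` are 1-spaced in `s'` -/
theorem base : HA 3 := by
  intro θ hθ hθ1 ε hε
  refine ⟨1000, fun R hR J hJ => ?_⟩
  have h := AA_triv hθ hθ1 hR hJ
  have hR1 : (1 : ℝ) ≤ R := by exact_mod_cast hR
  have h1 : (1 : ℝ) ≤ (R : ℝ) ^ ε := Real.one_le_rpow hR1 hε.le
  have h2 : (R : ℝ) ^ (3 : ℝ) = (R : ℝ) ^ 3 := by
    rw [← Real.rpow_natCast]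
    norm_num
  have h3 : 0 ≤ (R : ℝ) ^ 3 / J := by positivity
  rw [h2]
  have h4 : (0 : ℝ) ≤ (R : ℝ) ^ 3 := by positivity
  calc AA θ R J ≤ 1000 * (R : ℝ) ^ 3 := h
    _ ≤ 1000 * (R : ℝ) ^ ε * (R : ℝ) ^ 3 := by nlinarith
    _ ≤ 1000 * (R : ℝ) ^ ε * ((R : ℝ) ^ 3 / J + (R : ℝ) ^ 3) := by
        apply mul_le_mul_of_nonneg_left _ (by positivity)
        linarith

end Pool.Agent.H93.RS
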