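import Mathlib
import Pool.Agent.H93.RS.Defs

/-!
# [H93 RS MSR]  measurability and monotonicity
-/

set_option autoImplicit false

namespace Pool.Agent.H93.RS

open Finset Real MeasureTheory

theorem measurable_dz : Measurable dz := by
  have h : dz = fun u : ℝ => |u - ((⌊u + 1 / 2⌋ : ℤ) : ℝ)| := by
    funext u
    unfold dz
    rw [round_eq]
  rw [h]
  have h0 : Measurable fun n : ℤ => (n : ℝ) := Measurable.of_discrete
  have h1 : Measurable fun u : ℝ => ((⌊u + 1 / 2⌋ : ℤ) : ℝ) :=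
    h0.comp (measurable_id.add_const (1 / 2 : ℝ)).floor
  exact (measurable_id.sub h1).abs

private theorem measurable_term (R : ℝ) (j : ℤ) : Measurable fun y : ℝ => ff R (ph j y) := by
  unfold ff ph
  have h1 : Measurable fun y : ℝ => y + (j : ℝ) ^ 2 / (4 * y) :=
    measurable_id.add (measurable_const.div (measurable_const.mul measurable_id))
  exact measurable_const.div (measurable_const.add (measurable_const.mul (measurable_dz.comp h1)))

theorem measurable_qq (θ R : ℝ) : Measurable (qq θ R) := by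
  have h1 : Measurable fun p : ℤ × ℝ => ∑ j ∈ Finset.Icc (-p.1) p.1, ff R (ph j p.2) := by
    apply measurable_from_prod_countable_right
    intro n
    show Measurable fun y : ℝ => ∑ j ∈ Finset.Icc (-n) n, ff R (ph j y)
    exact Finset.measurable_sum (Finset.Icc (-n) n) fun j _ => measurable_term R j
  have h2 : Measurable fun y : ℝ => ((⌊2 * θ * y⌋ : ℤ), y) :=
    (measurable_id.const_mul (2 * θ)).floor.prodMk measurable_id
  have h3 : qq θ R = (fun p : ℤ × ℝ => ∑ j ∈ Finset.Icc (-p.1) p.1, ff R (ph j p.2)) ∘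
      fun y : ℝ => ((⌊2 * θ * y⌋ : ℤ), y) := by
    funext y
    unfold qq Jn
    rfl
  rw [h3]
  exact h1.comp h2

theorem qq_integrableOn {θ R : ℝ} (hθ : 0 ≤ θ) (hθ1 : θ ≤ 1) (hR : 0 ≤ R) (J : ℝ) :
    IntegrableOn (fun y => (qq θ R y) ^ 2 / y) (Set.Ioc (1 / 4 : ℝ) J) := by
  have hm : Measurable fun y => (qq θ R y) ^ 2 / y := ((measurable_qq θ R).pow_const 2).div measurable_id
  refine Measure.integrableOn_of_bounded (M := ((4 * J + 1) * R) ^ 2 * 4) (by simp) hm.aestronglyMeasurable ?_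
  refine (ae_restrict_iff' measurableSet_Ioc).2 (Filter.Eventually.of_forall fun y hy => ?_)
  have hy0 : 0 < y := by linarith [hy.1]
  have h0 := qq_nonneg (θ := θ) hR y
  have h1 := qq_le hθ hθ1 hR hy0.le
  have h2 : (4 * y + 1) * R ≤ (4 * J + 1) * R := mul_le_mul_of_nonneg_right (by linarith [hy.2]) hR
  rw [Real.norm_eq_abs, abs_of_nonneg (div_nonneg (sq_nonneg _) hy0.le), div_le_iff₀ hy0]
  have h3 : (qq θ R y) ^ 2 ≤ ((4 * J + 1) * R) ^ 2 := pow_le_pow_left₀ h0 (h1.trans h2) 2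
  have h4 : 1 ≤ 4 * y := by linarith [hy.1]
  nlinarith [sq_nonneg ((4 * J + 1) * R)]

theorem QQ_nonneg (θ J R : ℝ) : 0 ≤ QQ θ J R := by
  unfold QQ
  refine setIntegral_nonneg measurableSet_Ioc fun y hy => ?_
  exact div_nonneg (sq_nonneg _) (by linarith [hy.1])

theorem qq_mono_theta {θ θ' R y : ℝ} (h : θ ≤ θ') (hR : 0 ≤ R) (hy : 0 ≤ y) : qq θ R y ≤ qq θ' R y := by
  unfold qq
  refine Finset.sum_le_sum_of_subset_of_nonneg (fun j hj => ?_) fun j _ _ => ff_nonneg hR _
  rw [mem_Jn] at hj ⊢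
  have : θ * y ≤ θ' * y := mul_le_mul_of_nonneg_right h hy
  linarith

theorem QQ_mono {θ θ' J J' R : ℝ} (hθ : 0 ≤ θ) (h : θ ≤ θ') (hθ1 : θ' ≤ 1) (hJ : J ≤ J') (hR : 0 ≤ R) :
    QQ θ J R ≤ QQ θ' J' R := by
  have h1 : QQ θ J R ≤ QQ θ' J R := by
    unfold QQ
    refine setIntegral_mono_on (qq_integrableOn hθ (h.trans hθ1) hR J) (qq_integrableOn (hθ.trans h) hθ1 hR J)
      measurableSet_Ioc fun y hy => ?_
    have hy0 : 0 < y := by linarith [hy.1]
    exact div_le_div_of_nonneg_right (pow_le_pow_left₀ (qq_nonneg hR y) (qq_mono_theta h hR hy0.le) 2) hy0.le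
  refine h1.trans ?_
  unfold QQ
  refine setIntegral_mono_set (qq_integrableOn (hθ.trans h) hθ1 hR J') ?_
    (Filter.Eventually.of_forall (Set.Ioc_subset_Ioc_right hJ))
  refine (ae_restrict_iff' measurableSet_Ioc).2 (Filter.Eventually.of_forall fun y hy => ?_)
  exact div_nonneg (sq_nonneg _) (by linarith [hy.1])

end Pool.Agent.H93.RS
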