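import Mathlib
import Pool.Agent.H93.RS.Defs
import Pool.Agent.H93.RS.Msr

/-!
# [H93 RS SMALL]  Q for small J
-/

set_option autoImplicit false

namespace Pool.Agent.H93.RS

open Finset Real MeasureTheory

private theorem dz_lip (u v : ℝ) : dz u ≤ dz v + |u - v| := by
  unfold dz
  have h1 := round_le u (round v)
  have h2 : |u - (round v : ℝ)| ≤ |u - v| + |v - (round v : ℝ)| := by
    have : u - (round v : ℝ) = (u - v) + (v - (round v : ℝ)) := by ring
    rw [this]
    exact abs_add_le _ _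
  linarith

private theorem continuous_dz : Continuous dz := by
  rw [Metric.continuous_iff]
  intro v ε hε
  refine ⟨ε, hε, fun u hu => ?_⟩
  rw [Real.dist_eq] at hu ⊢
  have h1 := dz_lip u v
  have h2 := dz_lip v u
  rw [abs_sub_comm v u] at h2
  rw [abs_lt]
  constructor <;> linarith

private theorem continuous_ff {R : ℝ} (hR : 0 ≤ R) : Continuous (ff R) := by
  unfold ff
  refine continuous_const.div (continuous_const.add (continuous_const.mul continuous_dz)) fun u => ?_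
  have := mul_nonneg hR (dz_nonneg u)
  have h1 : 0 < 1 + R * dz u := by linarith
  exact h1.ne'

private theorem periodic_ff (R : ℝ) : Function.Periodic (fun u => (ff R u) ^ 2) 1 := by
  intro u
  have h1 : dz (u + 1) = dz u := by
    unfold dz
    rw [round_add_one]
    push_cast
    congr 1
    ring
  show (ff R (u + 1)) ^ 2 = (ff R u) ^ 2
  unfold ff
  rw [h1]

private theorem abs_le_dz {u : ℝ} (hu : |u| ≤ 1 / 2) : |u| ≤ dz u := by
  unfold dz
  obtain ⟨z, hz⟩ : ∃ z : ℤ, z = round u := ⟨_, rfl⟩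
  rw [← hz]
  by_cases h0 : z = 0
  · rw [h0]
    simp
  · have h1 : (1 : ℝ) ≤ |(z : ℝ)| := by
      have h2 : (1 : ℤ) ≤ |z| := Int.one_le_abs h0
      have h3 : ((1 : ℤ) : ℝ) ≤ ((|z| : ℤ) : ℝ) := by exact_mod_cast h2
      rw [Int.cast_abs] at h3
      simpa using h3
    have h2 : |(z : ℝ)| ≤ |u - z| + |u| := by
      have h4 : (z : ℝ) = u - (u - z) := by ring
      calc |(z : ℝ)| = |u - (u - z)| := by rw [← h4]
        _ ≤ |u| + |u - z| := abs_sub _ _
        _ = |u - z| + |u| := add_comm _ _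
    linarith

private theorem int_pos {R : ℝ} (hR : 0 < R) :
    ∫ u in (0 : ℝ)..(1 / 2), (R / (1 + R * u)) ^ 2 = R - R / (1 + R * (1 / 2)) := by
  have h1 : ∀ u ∈ Set.uIcc (0 : ℝ) (1 / 2), HasDerivAt (fun u : ℝ => -(R / (1 + R * u))) ((R / (1 + R * u)) ^ 2) u := by
    intro u hu
    rw [Set.uIcc_of_le (by norm_num)] at hu
    have h2 : 0 < 1 + R * u := by
      have := mul_nonneg hR.le hu.1
      linarith
    have h3 : HasDerivAt (fun u : ℝ => 1 + R * u) R u := by
      have := ((hasDerivAt_id u).const_mul R).const_add 1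
      simpa using this
    have h4 := ((h3.fun_inv h2.ne').const_mul R).neg
    refine (h4.congr_of_eventuallyEq (Filter.Eventually.of_forall fun v => ?_)).congr_deriv ?_
    · show -(R / (1 + R * v)) = -(R * (1 + R * v)⁻¹)
      rw [div_eq_mul_inv]
    · field_simp
  have h5 : ContinuousOn (fun u : ℝ => (R / (1 + R * u)) ^ 2) (Set.uIcc (0 : ℝ) (1 / 2)) := by
    refine ContinuousOn.pow (ContinuousOn.div continuousOn_const (by fun_prop) fun u hu => ?_) 2
    rw [Set.uIcc_of_le (by norm_num)] at hu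
    have := mul_nonneg hR.le hu.1
    have h2 : 0 < 1 + R * u := by linarith
    exact h2.ne'
  rw [intervalIntegral.integral_eq_sub_of_hasDerivAt h1 h5.intervalIntegrable]
  simp
  ring

private theorem int_unit {R : ℝ} (hR : 0 < R) (t : ℝ) : ∫ u in t..(t + 1), (ff R u) ^ 2 ≤ 2 * R := by
  have hc : Continuous fun u => (ff R u) ^ 2 := (continuous_ff hR.le).pow 2
  have e1 := (periodic_ff R).intervalIntegral_add_eq t (-(1 / 2))
  rw [e1]
  have e2 : (-(1 / 2) + 1 : ℝ) = 1 / 2 := by norm_num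
  rw [e2]
  have e3 := intervalIntegral.integral_add_adjacent_intervals (hc.intervalIntegrable (μ := volume) (-(1 / 2)) 0)
    (hc.intervalIntegrable (μ := volume) 0 (1 / 2))
  rw [← e3]
  have key : ∀ u : ℝ, |u| ≤ 1 / 2 → (ff R u) ^ 2 ≤ (R / (1 + R * |u|)) ^ 2 := by
    intro u hu
    unfold ff
    have h1 := abs_le_dz hu
    have h2 : 0 < 1 + R * |u| := by
      have := mul_nonneg hR.le (abs_nonneg u)
      linarith
    refine pow_le_pow_left₀ (div_nonneg hR.le ?_) (div_le_div_of_nonneg_left hR.le h2 ?_) 2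
    · have := mul_nonneg hR.le (dz_nonneg u)
      linarith
    · have := mul_le_mul_of_nonneg_left h1 hR.le
      linarith
  have hcr : ∀ (a b : ℝ), IntervalIntegrable (fun u : ℝ => (R / (1 + R * |u|)) ^ 2) volume a b := by
    intro a b
    apply Continuous.intervalIntegrable
    refine Continuous.pow (continuous_const.div (by fun_prop) fun u => ?_) 2
    have := mul_nonneg hR.le (abs_nonneg u)
    have h1 : 0 < 1 + R * |u| := by linarith
    exact h1.ne'
  have b2 : ∫ u in (0 : ℝ)..(1 / 2), (R / (1 + R * |u|)) ^ 2 ≤ R := by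
    have : ∫ u in (0 : ℝ)..(1 / 2), (R / (1 + R * |u|)) ^ 2 = ∫ u in (0 : ℝ)..(1 / 2), (R / (1 + R * u)) ^ 2 := by
      apply intervalIntegral.integral_congr
      intro u hu
      rw [Set.uIcc_of_le (by norm_num)] at hu
      show (R / (1 + R * |u|)) ^ 2 = (R / (1 + R * u)) ^ 2
      rw [abs_of_nonneg hu.1]
    rw [this, int_pos hR]
    have : 0 ≤ R / (1 + R * (1 / 2)) := by positivity
    linarith
  have b1 : ∫ u in (-(1 / 2) : ℝ)..0, (R / (1 + R * |u|)) ^ 2 ≤ R := by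
    have h1 := intervalIntegral.integral_comp_neg (a := (-(1 / 2) : ℝ)) (b := 0)
      (fun u : ℝ => (R / (1 + R * |u|)) ^ 2)
    simp only [abs_neg, neg_zero, neg_neg] at h1
    rw [h1]
    exact b2
  have c1 : ∫ u in (-(1 / 2) : ℝ)..0, (ff R u) ^ 2 ≤ ∫ u in (-(1 / 2) : ℝ)..0, (R / (1 + R * |u|)) ^ 2 := by
    refine intervalIntegral.integral_mono_on (by norm_num) (hc.intervalIntegrable _ _) (hcr _ _) fun u hu => ?_
    exact key u (abs_le.2 ⟨by linarith [hu.1], by linarith [hu.2]⟩)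
  have c2 : ∫ u in (0 : ℝ)..(1 / 2), (ff R u) ^ 2 ≤ ∫ u in (0 : ℝ)..(1 / 2), (R / (1 + R * |u|)) ^ 2 := by
    refine intervalIntegral.integral_mono_on (by norm_num) (hc.intervalIntegrable _ _) (hcr _ _) fun u hu => ?_
    exact key u (abs_le.2 ⟨by linarith [hu.1], by linarith [hu.2]⟩)
  linarith

private theorem int_many {R : ℝ} (hR : 0 < R) (A : ℝ) (N : ℕ) :
    ∫ u in A..(A + N), (ff R u) ^ 2 ≤ N * (2 * R) := by
  have hc : Continuous fun u => (ff R u) ^ 2 := (continuous_ff hR.le).pow 2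
  induction N with
  | zero => simp
  | succ N ih =>
    have e3 := intervalIntegral.integral_add_adjacent_intervals (hc.intervalIntegrable (μ := volume) A (A + N))
      (hc.intervalIntegrable (μ := volume) (A + N) (A + N + 1))
    have e4 : A + ((N + 1 : ℕ) : ℝ) = A + N + 1 := by push_cast; ring
    rw [e4, ← e3]
    have h1 := int_unit hR (A + N)
    push_cast
    linarith

private theorem int_ab {R : ℝ} (hR : 0 < R) {A B : ℝ} {N : ℕ} (h1 : A ≤ B) (h2 : B ≤ A + N) :
    ∫ u in A..B, (ff R u) ^ 2 ≤ N * (2 * R) := by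
  have hc : Continuous fun u => (ff R u) ^ 2 := (continuous_ff hR.le).pow 2
  refine le_trans ?_ (int_many hR A N)
  refine intervalIntegral.integral_mono_interval le_rfl h1 h2 (Filter.Eventually.of_forall fun u => sq_nonneg _)
    (hc.intervalIntegrable _ _)

private theorem int_ph {θ R h a : ℝ} (hθ : 0 < θ) (h1 : θ < 1) (hR : 0 < R) (j : ℤ) (ha : 1 / 4 ≤ a)
    (hj : |(j : ℝ)| ≤ 2 * θ * a) (hah : a ≤ h) :
    ∫ y in a..h, (ff R (ph j y)) ^ 2 ≤ (1 - θ ^ 2)⁻¹ * ((h + 1) * (2 * R)) := by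
  have hc : Continuous fun u => (ff R u) ^ 2 := (continuous_ff hR.le).pow 2
  have hκ : 0 < 1 - θ ^ 2 := by nlinarith
  have hpos : ∀ y ∈ Set.uIcc a h, 0 < y := by
    intro y hy
    rw [Set.uIcc_of_le hah] at hy
    linarith [hy.1]
  have hd : ∀ y ∈ Set.uIcc a h, HasDerivAt (ph j) (1 - (j : ℝ) ^ 2 / (4 * y ^ 2)) y := by
    intro y hy
    have hy0 := hpos y hy
    have e1 : HasDerivAt (fun y : ℝ => y + (j : ℝ) ^ 2 / 4 * y⁻¹) (1 + (j : ℝ) ^ 2 / 4 * (-(y ^ 2)⁻¹)) y :=
      (hasDerivAt_id y).add ((hasDerivAt_inv hy0.ne').const_mul _)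
    refine (e1.congr_of_eventuallyEq (Filter.Eventually.of_forall fun v => ?_)).congr_deriv ?_
    · unfold ph
      show v + (j : ℝ) ^ 2 / (4 * v) = v + (j : ℝ) ^ 2 / 4 * v⁻¹
      rw [div_mul_eq_div_div, div_eq_mul_inv ((j : ℝ) ^ 2 / 4) v]
    · field_simp
      ring
  have hdc : ContinuousOn (fun y : ℝ => 1 - (j : ℝ) ^ 2 / (4 * y ^ 2)) (Set.uIcc a h) := by
    refine continuousOn_const.sub (ContinuousOn.div continuousOn_const (by fun_prop) fun y hy => ?_)
    have := hpos y hy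
    positivity
  have hpc : ContinuousOn (ph j) (Set.uIcc a h) := fun y hy => (hd y hy).continuousAt.continuousWithinAt
  have hcv := intervalIntegral.integral_comp_mul_deriv' (g := fun u => (ff R u) ^ 2) hd hdc hc.continuousOn
  have hder : ∀ y ∈ Set.Icc a h, 1 - θ ^ 2 ≤ 1 - (j : ℝ) ^ 2 / (4 * y ^ 2) := by
    intro y hy
    have hy0 : 0 < y := by linarith [hy.1]
    have e1 : (j : ℝ) ^ 2 ≤ (2 * θ * y) ^ 2 := by
      rw [← sq_abs]
      have : 2 * θ * a ≤ 2 * θ * y := by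
        apply mul_le_mul_of_nonneg_left hy.1
        positivity
      exact pow_le_pow_left₀ (abs_nonneg _) (hj.trans this) 2
    have e2 : (j : ℝ) ^ 2 / (4 * y ^ 2) ≤ θ ^ 2 := by
      rw [div_le_iff₀ (by positivity)]
      nlinarith
    linarith
  have s1 : ∫ y in a..h, (ff R (ph j y)) ^ 2 ≤
      ∫ y in a..h, (1 - θ ^ 2)⁻¹ * (((fun u => (ff R u) ^ 2) ∘ ph j) y * (1 - (j : ℝ) ^ 2 / (4 * y ^ 2))) := by
    refine intervalIntegral.integral_mono_on hah ?_ ?_ fun y hy => ?_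
    · exact ContinuousOn.intervalIntegrable (hc.comp_continuousOn hpc)
    · exact ContinuousOn.intervalIntegrable (continuousOn_const.mul ((hc.comp_continuousOn hpc).mul hdc))
    · show (ff R (ph j y)) ^ 2 ≤ (1 - θ ^ 2)⁻¹ * ((ff R (ph j y)) ^ 2 * (1 - (j : ℝ) ^ 2 / (4 * y ^ 2)))
      have e1 := hder y hy
      have e2 : (ff R (ph j y)) ^ 2 * (1 - θ ^ 2) ≤ (ff R (ph j y)) ^ 2 * (1 - (j : ℝ) ^ 2 / (4 * y ^ 2)) :=
        mul_le_mul_of_nonneg_left e1 (sq_nonneg _)
      calc (ff R (ph j y)) ^ 2 = (1 - θ ^ 2)⁻¹ * ((ff R (ph j y)) ^ 2 * (1 - θ ^ 2)) := by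
            field_simp
        _ ≤ _ := mul_le_mul_of_nonneg_left e2 (inv_pos.2 hκ).le
  rw [intervalIntegral.integral_const_mul, hcv] at s1
  refine s1.trans (mul_le_mul_of_nonneg_left ?_ (inv_pos.2 hκ).le)
  have ha0 : 0 < a := by linarith
  have hh0 : 0 < h := by linarith
  have e1 : ph j a ≤ ph j h := by
    have m1 : MonotoneOn (ph j) (Set.Icc a h) := by
      apply monotoneOn_of_deriv_nonneg (convex_Icc a h)
      · rw [Set.uIcc_of_le hah] at hpc
        exact hpc
      · intro y hy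
        rw [interior_Icc] at hy
        exact (hd y (by rw [Set.uIcc_of_le hah]; exact Set.Ioo_subset_Icc_self hy)).differentiableAt.differentiableWithinAt
      · intro y hy
        rw [interior_Icc] at hy
        rw [(hd y (by rw [Set.uIcc_of_le hah]; exact Set.Ioo_subset_Icc_self hy)).deriv]
        have := hder y (Set.Ioo_subset_Icc_self hy)
        linarith
    exact m1 (Set.left_mem_Icc.2 hah) (Set.right_mem_Icc.2 hah) hah
  have e2 : ph j h ≤ ph j a + (h - a) := by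
    unfold ph
    have : (j : ℝ) ^ 2 / (4 * h) ≤ (j : ℝ) ^ 2 / (4 * a) :=
      div_le_div_of_nonneg_left (sq_nonneg _) (by linarith) (by linarith)
    linarith
  have e3 : h - a ≤ (⌈h⌉₊ : ℝ) := by
    have := Nat.le_ceil h
    linarith
  have e4 := int_ab hR (N := ⌈h⌉₊) e1 (by linarith)
  refine e4.trans (mul_le_mul_of_nonneg_right ?_ (by linarith))
  exact (Nat.ceil_lt_add_one hh0.le).le

/-- `q² ≤ (4h+1) ∑_j f²`; on `|j| ≤ 2θy` one has `φ_j' ≥ 1-θ²`; `∫_0^1 f(R,u)² du ≤ 2R` -/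
theorem small {θ : ℝ} (hθ : 0 < θ) (h1 : θ < 1) : ∃ C : ℝ, 0 < C ∧ ∀ R : ℝ, 1 ≤ R → ∀ h : ℝ, 1 ≤ h →
    QQ θ h R ≤ C * h ^ 4 * R := by
  have hκ : 0 < 1 - θ ^ 2 := by nlinarith
  refine ⟨400 * (1 - θ ^ 2)⁻¹, by positivity, fun R hR h hh => ?_⟩
  have hR0 : 0 < R := by linarith
  obtain ⟨K, hK⟩ : ∃ K : ℝ, K = 4 * (5 * h) := ⟨_, rfl⟩
  have hK0 : 0 ≤ K := by rw [hK]; positivity
  obtain ⟨a, ha⟩ : ∃ a : ℤ → ℝ, ∀ j, a j = max (1 / 4) (|(j : ℝ)| / (2 * θ)) := ⟨_, fun _ => rfl⟩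
  have ha1 : ∀ j, 1 / 4 ≤ a j := fun j => by rw [ha]; exact le_max_left _ _
  have ha2 : ∀ j : ℤ, |(j : ℝ)| ≤ 2 * θ * a j := fun j => by
    have e1 : |(j : ℝ)| / (2 * θ) ≤ a j := by rw [ha]; exact le_max_right _ _
    rw [div_le_iff₀ (by positivity)] at e1
    linarith
  have ha3 : ∀ j ∈ Jn (2 * θ * h), a j ≤ h := fun j hj => by
    rw [mem_Jn] at hj
    rw [ha]
    refine max_le (by linarith) ?_
    rw [div_le_iff₀ (by positivity)]
    linarith
  have hcont : ∀ j : ℤ, ContinuousOn (fun y => (ff R (ph j y)) ^ 2) (Set.Icc (a j) h) := by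
    intro j
    refine ((continuous_ff hR0.le).pow 2).comp_continuousOn ?_
    unfold ph
    refine continuousOn_id.add (ContinuousOn.div continuousOn_const (by fun_prop) fun y hy => ?_)
    have := ha1 j
    have h3 : 0 < y := by linarith [hy.1]
    positivity
  have hint : ∀ j : ℤ, IntegrableOn (fun y => (ff R (ph j y)) ^ 2) (Set.Icc (a j) h) :=
    fun j => (hcont j).integrableOn_Icc
  have hind : ∀ j : ℤ, Integrable ((Set.Icc (a j) h).indicator fun y => (ff R (ph j y)) ^ 2) :=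
    fun j => (integrable_indicator_iff measurableSet_Icc).2 (hint j)
  unfold QQ
  have s1 : ∫ y in Set.Ioc (1 / 4 : ℝ) h, (qq θ R y) ^ 2 / y ≤
      ∫ y in Set.Ioc (1 / 4 : ℝ) h, ∑ j ∈ Jn (2 * θ * h),
        K * (Set.Icc (a j) h).indicator (fun y => (ff R (ph j y)) ^ 2) y := by
    refine setIntegral_mono_on (qq_integrableOn hθ.le h1.le hR0.le h) ?_ measurableSet_Ioc fun y hy => ?_
    · exact integrable_finsetSum _ fun j _ => ((hind j).const_mul K).integrableOn
    · have hy0 : 0 < y := by linarith [hy.1]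
      have e1 : (qq θ R y) ^ 2 ≤ (Jn (2 * θ * y)).card * ∑ j ∈ Jn (2 * θ * y), (ff R (ph j y)) ^ 2 := by
        unfold qq
        exact sq_sum_le_card_mul_sum_sq
      have e2 : ((Jn (2 * θ * y)).card : ℝ) ≤ 5 * h := by
        have h3 := card_Jn (a := 2 * θ * y) (by positivity)
        have h4 : θ * y ≤ 1 * h := mul_le_mul h1.le hy.2 hy0.le (by norm_num)
        linarith
      have e3 : ∑ j ∈ Jn (2 * θ * y), (ff R (ph j y)) ^ 2 ≤
          ∑ j ∈ Jn (2 * θ * h), (Set.Icc (a j) h).indicator (fun y => (ff R (ph j y)) ^ 2) y := by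
        have h5 : ∀ j ∈ Jn (2 * θ * y), (ff R (ph j y)) ^ 2 =
            (Set.Icc (a j) h).indicator (fun y => (ff R (ph j y)) ^ 2) y := by
          intro j hj
          rw [mem_Jn] at hj
          rw [Set.indicator_of_mem]
          refine ⟨?_, hy.2⟩
          rw [ha]
          refine max_le hy.1.le ?_
          rw [div_le_iff₀ (by positivity)]
          linarith
        rw [Finset.sum_congr rfl h5]
        refine Finset.sum_le_sum_of_subset_of_nonneg (fun j hj => ?_) fun j _ _ =>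
          Set.indicator_nonneg (fun _ _ => sq_nonneg _) _
        rw [mem_Jn] at hj ⊢
        have : θ * y ≤ θ * h := mul_le_mul_of_nonneg_left hy.2 hθ.le
        linarith
      have e4 : 0 ≤ ∑ j ∈ Jn (2 * θ * h), (Set.Icc (a j) h).indicator (fun y => (ff R (ph j y)) ^ 2) y :=
        Finset.sum_nonneg fun j _ => Set.indicator_nonneg (fun _ _ => sq_nonneg _) _
      have e5 : 0 ≤ ∑ j ∈ Jn (2 * θ * y), (ff R (ph j y)) ^ 2 := Finset.sum_nonneg fun j _ => sq_nonneg _
      rw [← Finset.mul_sum, div_le_iff₀ hy0]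
      obtain ⟨S, hS⟩ : ∃ S, S = ∑ j ∈ Jn (2 * θ * h),
        (Set.Icc (a j) h).indicator (fun y => (ff R (ph j y)) ^ 2) y := ⟨_, rfl⟩
      rw [← hS] at e3 e4 ⊢
      have e6 : (qq θ R y) ^ 2 ≤ 5 * h * S :=
        e1.trans (mul_le_mul e2 e3 e5 (by positivity))
      have e7 : 1 ≤ 4 * y := by linarith [hy.1]
      have e8 : 0 ≤ 5 * h * S := by positivity
      calc (qq θ R y) ^ 2 ≤ 5 * h * S := e6
        _ ≤ 5 * h * S * (4 * y) := le_mul_of_one_le_right e8 e7
        _ = K * S * y := by rw [hK]; ring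
  refine s1.trans ?_
  rw [integral_finsetSum _ fun j _ => ((hind j).const_mul K).integrableOn]
  have s2 : ∀ j ∈ Jn (2 * θ * h), ∫ y in Set.Ioc (1 / 4 : ℝ) h,
      K * (Set.Icc (a j) h).indicator (fun y => (ff R (ph j y)) ^ 2) y ≤
      K * ((1 - θ ^ 2)⁻¹ * ((h + 1) * (2 * R))) := by
    intro j hj
    rw [integral_const_mul]
    refine mul_le_mul_of_nonneg_left ?_ hK0
    rw [setIntegral_indicator measurableSet_Icc]
    have e1 : ∫ y in Set.Ioc (1 / 4 : ℝ) h ∩ Set.Icc (a j) h, (ff R (ph j y)) ^ 2 ≤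
        ∫ y in Set.Icc (a j) h, (ff R (ph j y)) ^ 2 :=
      setIntegral_mono_set (hint j) (Filter.Eventually.of_forall fun y => sq_nonneg _)
        (Filter.Eventually.of_forall Set.inter_subset_right)
    refine e1.trans ?_
    rw [integral_Icc_eq_integral_Ioc, ← intervalIntegral.integral_of_le (ha3 j hj)]
    exact int_ph hθ h1 hR0 j (ha1 j) (ha2 j) (ha3 j hj)
  refine (Finset.sum_le_sum s2).trans ?_
  rw [Finset.sum_const, nsmul_eq_mul]
  have e2 : ((Jn (2 * θ * h)).card : ℝ) ≤ 5 * h := by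
    have h3 := card_Jn (a := 2 * θ * h) (by positivity)
    have h4 : θ * h ≤ 1 * h := mul_le_mul_of_nonneg_right h1.le (by linarith)
    linarith
  have hi : 0 < (1 - θ ^ 2)⁻¹ := inv_pos.2 hκ
  obtain ⟨I, hI⟩ : ∃ I, I = (1 - θ ^ 2)⁻¹ := ⟨_, rfl⟩
  rw [← hI] at hi ⊢
  calc ((Jn (2 * θ * h)).card : ℝ) * (K * (I * ((h + 1) * (2 * R))))
      ≤ 5 * h * (K * (I * ((h + 1) * (2 * R)))) := mul_le_mul_of_nonneg_right e2 (by positivity)
    _ = 200 * I * R * h ^ 2 * (h + 1) := by rw [hK]; ring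
    _ ≤ 200 * I * R * h ^ 2 * (2 * h ^ 2) := by
        apply mul_le_mul_of_nonneg_left _ (by positivity)
        nlinarith
    _ = 400 * I * h ^ 4 * R := by ring

end Pool.Agent.H93.RS
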