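import Mathlib
import Pool.Agent.H93.RS.Defs
import Pool.Agent.H93.RS.Msr
import Pool.Agent.H93.RS.Small
import Pool.Agent.H82.RS.Fsq

/-!
# [H93 RS MONO]  Q in R
-/

set_option autoImplicit false

namespace Pool.Agent.H93.RS

open Finset Real MeasureTheory

/-- the speed of `φ_j` is at most one -/
theorem mono_lip {j : ℤ} {y z : ℝ} (hy : 0 < y) (hz : 0 < z) (hj : (j : ℝ) ^ 2 ≤ 4 * (y * z)) :
    |ph j y - ph j z| ≤ |y - z| := by
  have h1 : ph j y - ph j z = (y - z) * (1 - (j : ℝ) ^ 2 / (4 * (y * z))) := by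
    unfold ph
    field_simp
    ring
  rw [h1, abs_mul]
  apply mul_le_of_le_one_right (abs_nonneg _)
  have h2 : (j : ℝ) ^ 2 / (4 * (y * z)) ≤ 1 := by
    rw [div_le_one (by positivity)]
    exact hj
  have h3 : 0 ≤ (j : ℝ) ^ 2 / (4 * (y * z)) := by positivity
  rw [abs_le]
  constructor <;> linarith

/-- one `j`, one cell -/
theorem mono_cell {c R' R a b z : ℝ} {j : ℤ} (hc : 0 < c) (hc1 : c ≤ 1) (hR' : 1 ≤ R') (hR : R' ≤ R)
    (ha : 0 < a) (hab : a ≤ b) (hb : b - a ≤ 1 / R') (hz : z ∈ Set.Icc a b)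
    (hj : (j : ℝ) ^ 2 ≤ (1 - c) * (4 * a ^ 2)) :
    ∫ y in a..b, (ff R (ph j y)) ^ 2 ≤ 36 / c * (R / R' ^ 2) * (ff R' (ph j z)) ^ 2 := by
  have hR'0 : 0 < R' := by linarith
  have hR0 : 0 < R := by linarith
  have hz0 : 0 < z := lt_of_lt_of_le ha hz.1
  have hb1 : b - a ≤ 1 := by
    refine hb.trans ?_
    rw [div_le_one hR'0]
    exact hR'
  set D := dz (ph j z) with hD
  have hD0 : 0 ≤ D := dz_nonneg _
  by_cases hcase : R' * D ≤ 2
  · -- near an integer
    have h1 := Pool.Agent.H82.RS.fsq_ph j hR0.le ha hab hc hj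
    have h2 : R' / 3 ≤ ff R' (ph j z) := by
      unfold ff
      apply div_le_div_of_nonneg_left hR'0.le
      · have := mul_nonneg hR'0.le hD0
        linarith
      · linarith
    have h3 : (R' / 3) ^ 2 ≤ (ff R' (ph j z)) ^ 2 := by
      apply pow_le_pow_left₀ (by positivity) h2
    calc ∫ y in a..b, (ff R (ph j y)) ^ 2 ≤ 2 * R * (b - a + 1) / c := h1
      _ ≤ 2 * R * 2 / c := by
          apply div_le_div_of_nonneg_right _ hc.le
          apply mul_le_mul_of_nonneg_left _ (by positivity)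
          linarith
      _ = 36 / c * (R / R' ^ 2) * (R' / 3) ^ 2 := by
          field_simp
          ring
      _ ≤ _ := mul_le_mul_of_nonneg_left h3 (by positivity)
  · -- far from the integers
    push Not at hcase
    have hDpos : 0 < D := by
      by_contra hneg
      have : D = 0 := le_antisymm (not_lt.1 hneg) hD0
      rw [this] at hcase
      simp at hcase
      linarith
    have hD1 : 1 / R' ≤ D / 2 := by
      rw [div_le_div_iff₀ hR'0 (by norm_num)]
      linarith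
    have h1 : ∀ y ∈ Set.Icc a b, (ff R (ph j y)) ^ 2 ≤ 4 / D ^ 2 := by
      intro y hy
      have hy0 : 0 < y := lt_of_lt_of_le ha hy.1
      have hjyz : (j : ℝ) ^ 2 ≤ 4 * (y * z) := by
        have h2 : a * a ≤ y * z := mul_le_mul hy.1 hz.1 ha.le hy0.le
        have h3 : (1 - c) * (4 * a ^ 2) ≤ 1 * (4 * a ^ 2) :=
          mul_le_mul_of_nonneg_right (by linarith) (by positivity)
        nlinarith
      have h4 := mono_lip hy0 hz0 hjyz
      have h5 : |y - z| ≤ 1 / R' := by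
        refine le_trans ?_ hb
        rw [abs_le]
        constructor <;> linarith [hy.1, hy.2, hz.1, hz.2]
      have h6 := Pool.Agent.H82.RS.dz_lip (ph j z) (ph j y)
      rw [abs_sub_comm] at h6
      have h7 : D / 2 ≤ dz (ph j y) := by linarith
      have h8 : ff R (ph j y) ≤ 2 / D := by
        unfold ff
        rw [div_le_div_iff₀ (by nlinarith [mul_nonneg hR0.le (dz_nonneg (ph j y))]) hDpos]
        have := mul_le_mul_of_nonneg_left h7 hR0.le
        nlinarith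
      calc (ff R (ph j y)) ^ 2 ≤ (2 / D) ^ 2 :=
            pow_le_pow_left₀ (ff_nonneg hR0.le _) h8 2
        _ = 4 / D ^ 2 := by rw [div_pow]; norm_num
    have hcont : IntervalIntegrable (fun y => (ff R (ph j y)) ^ 2) volume a b := by
      apply ContinuousOn.intervalIntegrable
      rw [Set.uIcc_of_le hab]
      intro y hy
      have hy0 : 0 < y := lt_of_lt_of_le ha hy.1
      apply ContinuousAt.continuousWithinAt
      apply ContinuousAt.pow
      exact ((Pool.Agent.H82.RS.cont_ff hR0.le).continuousAt).comp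
        (Pool.Agent.H82.RS.ph_deriv j hy0).continuousAt
    have h9 : ∫ y in a..b, (ff R (ph j y)) ^ 2 ≤ ∫ _y in a..b, 4 / D ^ 2 :=
      intervalIntegral.integral_mono_on hab hcont intervalIntegrable_const h1
    rw [intervalIntegral.integral_const, smul_eq_mul] at h9
    have h10 : 2 / (3 * D) ≤ ff R' (ph j z) := by
      unfold ff
      rw [div_le_div_iff₀ (by positivity) (by nlinarith [mul_nonneg hR'0.le (dz_nonneg (ph j z))])]
      rw [← hD]
      nlinarith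
    have h11 : (2 / (3 * D)) ^ 2 ≤ (ff R' (ph j z)) ^ 2 := pow_le_pow_left₀ (by positivity) h10 2
    have h12 : (1 : ℝ) / R' ≤ R / R' ^ 2 := by
      rw [div_le_div_iff₀ hR'0 (by positivity)]
      nlinarith
    calc ∫ y in a..b, (ff R (ph j y)) ^ 2 ≤ (b - a) * (4 / D ^ 2) := h9
      _ ≤ 1 / R' * (4 / D ^ 2) := mul_le_mul_of_nonneg_right hb (by positivity)
      _ ≤ R / R' ^ 2 * (4 / D ^ 2) := mul_le_mul_of_nonneg_right h12 (by positivity)
      _ = 9 * (R / R' ^ 2) * (2 / (3 * D)) ^ 2 := by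
          field_simp
          ring
      _ ≤ 36 / c * (R / R' ^ 2) * (2 / (3 * D)) ^ 2 := by
          apply mul_le_mul_of_nonneg_right _ (by positivity)
          apply mul_le_mul_of_nonneg_right _ (by positivity)
          rw [le_div_iff₀ hc]
          linarith
      _ ≤ _ := mul_le_mul_of_nonneg_left h11 (by positivity)

theorem qq_ii {θ R a b : ℝ} (hθ : 0 ≤ θ) (hθ1 : θ ≤ 1) (hR : 0 ≤ R) (ha : 1 / 4 ≤ a) (hab : a ≤ b) :
    IntervalIntegrable (fun y => (qq θ R y) ^ 2 / y) volume a b := by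
  rw [intervalIntegrable_iff_integrableOn_Ioc_of_le hab]
  exact (qq_integrableOn hθ hθ1 hR b).mono_set (Set.Ioc_subset_Ioc_left ha)

/-- all `j`, one cell, one `z` -/
theorem mono_sq {θ θ' c R' R a b z : ℝ} (hθ : 0 < θ) (hθ1 : θ ≤ 1) (hθ' : 0 < θ') (hc : 0 < c) (hc1 : c ≤ 1)
    (hR' : 1 ≤ R') (hR : R' ≤ R) (ha : 1 ≤ a) (hab : a ≤ b) (hb : b - a ≤ 1 / R') (hz : z ∈ Set.Icc a b)
    (h1 : θ * b ≤ θ' * a) (h2 : (2 * θ' * b) ^ 2 ≤ (1 - c) * (4 * a ^ 2)) :
    ∫ y in a..b, (qq θ R y) ^ 2 / y ≤ 36 / c * (R / R' ^ 2) / a * (qq θ' R' z) ^ 2 := by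
  have ha0 : 0 < a := by linarith
  have hR'0 : 0 < R' := by linarith
  have hR0 : 0 < R := by linarith
  have hz0 : 0 < z := lt_of_lt_of_le ha0 hz.1
  set w : ℤ → ℝ := fun j => ff R' (ph j z) with hw
  have hwpos : ∀ j, 0 < w j := by
    intro j
    show 0 < R' / (1 + R' * dz (ph j z))
    apply div_pos hR'0
    have := mul_nonneg hR'0.le (dz_nonneg (ph j z))
    linarith
  set T := Jn (2 * θ' * z) with hT
  have hW : qq θ' R' z = ∑ j ∈ T, w j := rfl
  have hW0 : 0 ≤ ∑ j ∈ T, w j := Finset.sum_nonneg fun j _ => (hwpos j).le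
  have hjT : ∀ j ∈ T, (j : ℝ) ^ 2 ≤ (1 - c) * (4 * a ^ 2) := by
    intro j hj
    rw [hT, mem_Jn] at hj
    refine le_trans ?_ h2
    rw [← sq_abs]
    apply pow_le_pow_left₀ (abs_nonneg _)
    refine hj.trans ?_
    apply mul_le_mul_of_nonneg_left hz.2 (by positivity)
  have hpt : ∀ y ∈ Set.Icc a b, (qq θ R y) ^ 2 / y ≤
      (∑ j ∈ T, w j) / a * ∑ j ∈ T, (ff R (ph j y)) ^ 2 / w j := by
    intro y hy
    have hy0 : 0 < y := lt_of_lt_of_le ha0 hy.1
    have hsub : Jn (2 * θ * y) ⊆ T := by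
      intro j hj
      rw [mem_Jn] at hj
      rw [hT, mem_Jn]
      refine hj.trans ?_
      have h3 : θ * y ≤ θ * b := mul_le_mul_of_nonneg_left hy.2 hθ.le
      have h4 : θ' * a ≤ θ' * z := mul_le_mul_of_nonneg_left hz.1 hθ'.le
      linarith
    have h5 : qq θ R y ≤ ∑ j ∈ T, ff R (ph j y) :=
      Finset.sum_le_sum_of_subset_of_nonneg hsub fun j _ _ => ff_nonneg hR0.le _
    have h6 : (∑ j ∈ T, ff R (ph j y)) ^ 2 ≤ (∑ j ∈ T, w j) * ∑ j ∈ T, (ff R (ph j y)) ^ 2 / w j := by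
      apply Finset.sum_sq_le_sum_mul_sum_of_sq_le_mul
      · exact fun j _ => (hwpos j).le
      · exact fun j _ => div_nonneg (sq_nonneg _) (hwpos j).le
      · intro j _
        rw [mul_div_cancel₀ _ (hwpos j).ne']
    have h7 : (qq θ R y) ^ 2 ≤ (∑ j ∈ T, w j) * ∑ j ∈ T, (ff R (ph j y)) ^ 2 / w j :=
      (pow_le_pow_left₀ (qq_nonneg hR0.le y) h5 2).trans h6
    calc (qq θ R y) ^ 2 / y ≤ ((∑ j ∈ T, w j) * ∑ j ∈ T, (ff R (ph j y)) ^ 2 / w j) / y :=
          div_le_div_of_nonneg_right h7 hy0.le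
      _ ≤ ((∑ j ∈ T, w j) * ∑ j ∈ T, (ff R (ph j y)) ^ 2 / w j) / a := by
          apply div_le_div_of_nonneg_left _ ha0 hy.1
          exact (sq_nonneg _).trans h7
      _ = _ := by ring
  have hcont : ∀ j, IntervalIntegrable (fun y => (ff R (ph j y)) ^ 2) volume a b := by
    intro j
    apply ContinuousOn.intervalIntegrable
    rw [Set.uIcc_of_le hab]
    intro y hy
    have hy0 : 0 < y := lt_of_lt_of_le ha0 hy.1
    apply ContinuousAt.continuousWithinAt
    apply ContinuousAt.pow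
    exact ((Pool.Agent.H82.RS.cont_ff hR0.le).continuousAt).comp
      (Pool.Agent.H82.RS.ph_deriv j hy0).continuousAt
  have hint2 : ∀ j ∈ T, IntervalIntegrable (fun y => (ff R (ph j y)) ^ 2 / w j) volume a b :=
    fun j _ => (hcont j).div_const _
  have h8 : ∫ y in a..b, (qq θ R y) ^ 2 / y ≤
      ∫ y in a..b, (∑ j ∈ T, w j) / a * ∑ j ∈ T, (ff R (ph j y)) ^ 2 / w j := by
    apply intervalIntegral.integral_mono_on hab (qq_ii hθ.le hθ1 hR0.le (by linarith) hab) _ hpt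
    have h9 := (IntervalIntegrable.sum T hint2).const_mul ((∑ j ∈ T, w j) / a)
    simpa only [Finset.sum_apply] using h9
  rw [intervalIntegral.integral_const_mul, intervalIntegral.integral_finsetSum hint2] at h8
  have h9 : ∀ j ∈ T, ∫ y in a..b, (ff R (ph j y)) ^ 2 / w j ≤ 36 / c * (R / R' ^ 2) * w j := by
    intro j hj
    rw [intervalIntegral.integral_div, div_le_iff₀ (hwpos j)]
    have h10 := mono_cell hc hc1 hR' hR ha0 hab hb hz (hjT j hj)
    calc ∫ y in a..b, (ff R (ph j y)) ^ 2 ≤ 36 / c * (R / R' ^ 2) * (ff R' (ph j z)) ^ 2 := h10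
      _ = 36 / c * (R / R' ^ 2) * w j * w j := by rw [hw]; ring
  calc ∫ y in a..b, (qq θ R y) ^ 2 / y
      ≤ (∑ j ∈ T, w j) / a * ∑ j ∈ T, ∫ y in a..b, (ff R (ph j y)) ^ 2 / w j := h8
    _ ≤ (∑ j ∈ T, w j) / a * ∑ j ∈ T, 36 / c * (R / R' ^ 2) * w j :=
        mul_le_mul_of_nonneg_left (Finset.sum_le_sum h9) (div_nonneg hW0 ha0.le)
    _ = 36 / c * (R / R' ^ 2) / a * (qq θ' R' z) ^ 2 := by
        rw [← Finset.mul_sum, hW]
        ring

/-- one cell -/
theorem mono_int {θ θ' c R' R a b : ℝ} (hθ : 0 < θ) (hθ1 : θ ≤ 1) (hθ' : 0 < θ') (hθ'1 : θ' ≤ 1)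
    (hc : 0 < c) (hc1 : c ≤ 1)
    (hR' : 1 ≤ R') (hR : R' ≤ R) (ha : 1 ≤ a) (hb : b - a = 1 / R')
    (h1 : θ * b ≤ θ' * a) (h2 : (2 * θ' * b) ^ 2 ≤ (1 - c) * (4 * a ^ 2)) :
    ∫ y in a..b, (qq θ R y) ^ 2 / y ≤ 72 / c * (R / R') * ∫ y in a..b, (qq θ' R' y) ^ 2 / y := by
  have ha0 : 0 < a := by linarith
  have hR'0 : 0 < R' := by linarith
  have hR0 : 0 < R := by linarith
  have hpos : 0 < 1 / R' := by positivity
  have hab : a ≤ b := by linarith
  have hb2 : b ≤ 2 * a := by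
    have : 1 / R' ≤ 1 := by
      rw [div_le_one hR'0]
      exact hR'
    linarith
  set V := ∫ y in a..b, (qq θ R y) ^ 2 / y with hV
  have h3 : ∀ z ∈ Set.Icc a b, V ≤ 72 / c * (R / R' ^ 2) * ((qq θ' R' z) ^ 2 / z) := by
    intro z hz
    have hz0 : 0 < z := lt_of_lt_of_le ha0 hz.1
    have h4 := mono_sq hθ hθ1 hθ' hc hc1 hR' hR ha hab hb.le hz h1 h2
    refine h4.trans ?_
    have h5 : 1 / a ≤ 2 / z := by
      rw [div_le_div_iff₀ ha0 hz0]
      linarith [hz.2]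
    calc 36 / c * (R / R' ^ 2) / a * (qq θ' R' z) ^ 2
        = 36 / c * (R / R' ^ 2) * (qq θ' R' z) ^ 2 * (1 / a) := by ring
      _ ≤ 36 / c * (R / R' ^ 2) * (qq θ' R' z) ^ 2 * (2 / z) :=
          mul_le_mul_of_nonneg_left h5 (by positivity)
      _ = _ := by ring
  have h6 : ∫ _z in a..b, V ≤ ∫ z in a..b, 72 / c * (R / R' ^ 2) * ((qq θ' R' z) ^ 2 / z) := by
    apply intervalIntegral.integral_mono_on hab intervalIntegrable_const _ h3
    exact (qq_ii hθ'.le hθ'1 hR'0.le (by linarith) hab).const_mul _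
  rw [intervalIntegral.integral_const, intervalIntegral.integral_const_mul, smul_eq_mul, hb] at h6
  calc V = R' * (1 / R' * V) := by field_simp
    _ ≤ R' * (72 / c * (R / R' ^ 2) * ∫ y in a..b, (qq θ' R' y) ^ 2 / y) :=
        mul_le_mul_of_nonneg_left h6 hR'0.le
    _ = _ := by
        field_simp

/-- for each `z`, the `L²(|y-z| ≤ 1/R')` norm of `q(θ,R,.)` is `≤ C (√R/R') q(θ',R',z)` (Minkowski over `j`; `φ_j` has speed in `[1-θ'², 1]`);
average over `z`; `y < y1(θ,θ')` by `small` -/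
theorem mono {θ θ' : ℝ} (hθ : 0 < θ) (h : θ < θ') (h1 : θ' < 1) : ∃ C : ℝ, 0 < C ∧
    ∀ R' R : ℝ, 1 ≤ R' → R' ≤ R → ∀ J : ℝ, 1 ≤ J → QQ θ J R ≤ C * (R / R') * QQ θ' (2 * J) R' + C * R := by
  have hθ1 : θ < 1 := h.trans h1
  have hθ' : 0 < θ' := hθ.trans h
  obtain ⟨C0, hC0, hsmall⟩ := small hθ hθ1
  set y1 : ℝ := max 1 (max (2 * θ' / (1 - θ')) (θ / (θ' - θ))) with hy1
  have hy11 : 1 ≤ y1 := le_max_left _ _
  have hy12 : 2 * θ' / (1 - θ') ≤ y1 := (le_max_left _ _).trans (le_max_right _ _)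
  have hy13 : θ / (θ' - θ) ≤ y1 := (le_max_right _ _).trans (le_max_right _ _)
  set c : ℝ := 1 - ((1 + θ') / 2) ^ 2 with hc
  have hc0 : 0 < c := by
    rw [hc]
    nlinarith
  have hc1 : c ≤ 1 := by
    rw [hc]
    nlinarith [sq_nonneg ((1 + θ') / 2)]
  refine ⟨C0 * (y1 + 1) ^ 4 + 72 / c, by positivity, ?_⟩
  intro R' R hR' hR J hJ
  have hR'0 : 0 < R' := by linarith
  have hR0 : 0 < R := by linarith
  have hQ0 := QQ_nonneg θ' (2 * J) R'
  have hsm := hsmall R (by linarith) (y1 + 1) (by linarith)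
  have hCQ : 0 ≤ (C0 * (y1 + 1) ^ 4 + 72 / c) * (R / R') * QQ θ' (2 * J) R' := by positivity
  by_cases hJ1 : J ≤ y1 + 1
  · have h2 : QQ θ J R ≤ QQ θ (y1 + 1) R := QQ_mono hθ.le le_rfl hθ1.le hJ1 hR0.le
    have h3 : C0 * (y1 + 1) ^ 4 * R ≤ (C0 * (y1 + 1) ^ 4 + 72 / c) * R :=
      mul_le_mul_of_nonneg_right (by have : 0 < 72 / c := by positivity
                                     linarith) hR0.le
    linarith
  push Not at hJ1
  set n0 : ℕ := ⌈y1 * R'⌉₊ with hn0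
  set n1 : ℕ := ⌈J * R'⌉₊ with hn1
  set a : ℕ → ℝ := fun n => n / R' with ha
  have hn0a : y1 ≤ a n0 := by
    show y1 ≤ (n0 : ℝ) / R'
    rw [le_div_iff₀ hR'0]
    exact Nat.le_ceil _
  have hn0b : a n0 ≤ y1 + 1 := by
    show (n0 : ℝ) / R' ≤ y1 + 1
    rw [div_le_iff₀ hR'0]
    have h2 := (Nat.ceil_lt_add_one (show 0 ≤ y1 * R' by positivity)).le
    have h3 : (n0 : ℝ) ≤ y1 * R' + 1 := h2
    linarith
  have hn1a : J ≤ a n1 := by
    show J ≤ (n1 : ℝ) / R'
    rw [le_div_iff₀ hR'0]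
    exact Nat.le_ceil _
  have hn1b : a n1 ≤ 2 * J := by
    show (n1 : ℝ) / R' ≤ 2 * J
    rw [div_le_iff₀ hR'0]
    have h2 := (Nat.ceil_lt_add_one (show 0 ≤ J * R' by positivity)).le
    have h3 : (n1 : ℝ) ≤ J * R' + 1 := h2
    nlinarith
  have h01 : n0 ≤ n1 := by
    have h2 : a n0 ≤ a n1 := by linarith
    have h3 : (n0 : ℝ) / R' ≤ (n1 : ℝ) / R' := h2
    rw [div_le_div_iff_of_pos_right hR'0] at h3
    exact_mod_cast h3
  have hmono : ∀ {m n : ℕ}, m ≤ n → a m ≤ a n := by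
    intro m n hmn
    show (m : ℝ) / R' ≤ (n : ℝ) / R'
    apply div_le_div_of_nonneg_right _ hR'0.le
    exact_mod_cast hmn
  have hcell : ∀ n ∈ Finset.Ico n0 n1, ∫ y in a n..a (n + 1), (qq θ R y) ^ 2 / y ≤
      72 / c * (R / R') * ∫ y in a n..a (n + 1), (qq θ' R' y) ^ 2 / y := by
    intro n hn
    rw [Finset.mem_Ico] at hn
    have h2 : y1 ≤ a n := hn0a.trans (hmono hn.1)
    have h3 : a (n + 1) - a n = 1 / R' := by
      show ((n + 1 : ℕ) : ℝ) / R' - (n : ℝ) / R' = 1 / R'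
      push_cast
      ring
    have h3' : a (n + 1) ≤ a n + 1 := by
      have : 1 / R' ≤ 1 := by
        rw [div_le_one hR'0]
        exact hR'
      linarith
    apply mono_int hθ hθ1.le hθ' h1.le hc0 hc1 hR' hR (by linarith) h3
    · have h4 : θ ≤ (θ' - θ) * a n := by
        rw [div_le_iff₀ (by linarith)] at hy13
        nlinarith
      nlinarith
    · have h4 : 2 * θ' ≤ (1 - θ') * a n := by
        rw [div_le_iff₀ (by linarith)] at hy12
        nlinarith
      have h5 : 2 * θ' * a (n + 1) ≤ (1 + θ') * a n := by nlinarith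
      have h6 : 0 ≤ 2 * θ' * a (n + 1) := by
        have : 0 ≤ a (n + 1) := by linarith [hmono (Nat.le_succ n)]
        positivity
      calc (2 * θ' * a (n + 1)) ^ 2 ≤ ((1 + θ') * a n) ^ 2 := pow_le_pow_left₀ h6 h5 2
        _ = (1 - c) * (4 * a n ^ 2) := by rw [hc]; ring
  have hiR : ∀ n ∈ Set.Ico n0 n1, IntervalIntegrable (fun y => (qq θ R y) ^ 2 / y) volume (a n) (a (n + 1)) := by
    intro n hn
    apply qq_ii hθ.le hθ1.le hR0.le _ (hmono (Nat.le_succ n))
    linarith [hmono hn.1]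
  have hiR' : ∀ n ∈ Set.Ico n0 n1, IntervalIntegrable (fun y => (qq θ' R' y) ^ 2 / y) volume (a n) (a (n + 1)) := by
    intro n hn
    apply qq_ii hθ'.le h1.le hR'0.le _ (hmono (Nat.le_succ n))
    linarith [hmono hn.1]
  have hs1 := intervalIntegral.sum_integral_adjacent_intervals_Ico (f := fun y => (qq θ R y) ^ 2 / y)
    (a := a) h01 hiR
  have hs2 := intervalIntegral.sum_integral_adjacent_intervals_Ico (f := fun y => (qq θ' R' y) ^ 2 / y)
    (a := a) h01 hiR'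
  have hmain : ∫ y in a n0..a n1, (qq θ R y) ^ 2 / y ≤
      72 / c * (R / R') * ∫ y in a n0..a n1, (qq θ' R' y) ^ 2 / y := by
    rw [← hs1, ← hs2, Finset.mul_sum]
    exact Finset.sum_le_sum hcell
  have hQ' : ∫ y in a n0..a n1, (qq θ' R' y) ^ 2 / y ≤ QQ θ' (2 * J) R' := by
    unfold QQ
    rw [← intervalIntegral.integral_of_le (by linarith)]
    apply intervalIntegral.integral_mono_interval (by linarith) (hmono h01) hn1b
    · rw [Filter.EventuallyLE, ae_restrict_iff' measurableSet_Ioc]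
      apply Filter.Eventually.of_forall
      intro y hy
      have : 0 < y := by linarith [hy.1]
      show 0 ≤ (qq θ' R' y) ^ 2 / y
      positivity
    · exact qq_ii hθ'.le h1.le hR'0.le le_rfl (by linarith)
  have hQ : QQ θ J R ≤ QQ θ (y1 + 1) R + ∫ y in a n0..a n1, (qq θ R y) ^ 2 / y := by
    have h2 : QQ θ J R ≤ QQ θ (a n1) R := QQ_mono hθ.le le_rfl hθ1.le hn1a hR0.le
    have h3 : QQ θ (a n1) R = QQ θ (a n0) R + ∫ y in a n0..a n1, (qq θ R y) ^ 2 / y := by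
      unfold QQ
      rw [← intervalIntegral.integral_of_le (by linarith), ← intervalIntegral.integral_of_le (by linarith)]
      rw [intervalIntegral.integral_add_adjacent_intervals]
      · exact qq_ii hθ.le hθ1.le hR0.le le_rfl (by linarith)
      · exact qq_ii hθ.le hθ1.le hR0.le (by linarith) (hmono h01)
    have h4 : QQ θ (a n0) R ≤ QQ θ (y1 + 1) R := QQ_mono hθ.le le_rfl hθ1.le hn0b hR0.le
    linarith
  have h5 : 72 / c * (R / R') * ∫ y in a n0..a n1, (qq θ' R' y) ^ 2 / y ≤ 72 / c * (R / R') * QQ θ' (2 * J) R' :=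
    mul_le_mul_of_nonneg_left hQ' (by positivity)
  have h6 : 0 ≤ C0 * (y1 + 1) ^ 4 * (R / R') * QQ θ' (2 * J) R' := by positivity
  have h7 : 0 ≤ 72 / c * R := by positivity
  calc QQ θ J R ≤ C0 * (y1 + 1) ^ 4 * R + 72 / c * (R / R') * QQ θ' (2 * J) R' := by linarith
    _ ≤ _ := by linarith

end Pool.Agent.H93.RS
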