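import Mathlib
import Pool.Agent.H93.RS.Defs

/-!
# [H93 RS COV]  gaussian cover of [-θ,θ]
-/

set_option autoImplicit false

namespace Pool.Agent.H93.RS

open Finset Real MeasureTheory

/-- grid `kθ/N`, `|k| ≤ N = ⌈√η⌉` -/
theorem cov {θ η : ℝ} (hθ : 0 < θ) (hθ1 : θ < 1) (hη : 1 ≤ η) : ∃ K : Finset ℝ, (K.card : ℝ) ≤ 5 * √η ∧
    (∀ κ ∈ K, |κ| ≤ θ) ∧ ∀ x : ℝ, |x| ≤ θ → 1 ≤ 3 * ∑ κ ∈ K, Real.exp (-(π * η * (x - κ) ^ 2)) := by
  have hs1 : 1 ≤ √η := Real.one_le_sqrt.2 hη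
  have hsq : √η ^ 2 = η := Real.sq_sqrt (by linarith)
  obtain ⟨N, hN1, hN2⟩ : ∃ N : ℕ, √η ≤ N ∧ (N : ℝ) ≤ √η + 1 :=
    ⟨⌈√η⌉₊, Nat.le_ceil _, (Nat.ceil_lt_add_one (by linarith)).le⟩
  have hN0 : (0 : ℝ) < N := by linarith
  refine ⟨(Finset.Icc (-(N : ℤ)) N).image (fun k : ℤ => (k : ℝ) * θ / N), ?_, ?_, ?_⟩
  · have h1 : (((Finset.Icc (-(N : ℤ)) N).image (fun k : ℤ => (k : ℝ) * θ / N)).card : ℝ) ≤ 2 * N + 1 := by
      have h2 := Finset.card_image_le (s := Finset.Icc (-(N : ℤ)) N) (f := fun k : ℤ => (k : ℝ) * θ / N)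
      rw [Int.card_Icc] at h2
      have h3 : ((N : ℤ) + 1 - -(N : ℤ)).toNat = 2 * N + 1 := by omega
      rw [h3] at h2
      exact_mod_cast h2
    linarith
  · intro κ hκ
    rw [Finset.mem_image] at hκ
    obtain ⟨k, hk, rfl⟩ := hκ
    rw [Finset.mem_Icc] at hk
    have h1 : |(k : ℝ)| ≤ N := by
      rw [abs_le]
      exact ⟨by exact_mod_cast hk.1, by exact_mod_cast hk.2⟩
    rw [abs_div, abs_mul, abs_of_pos hθ, abs_of_pos hN0, div_le_iff₀ hN0]
    nlinarith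
  · intro x hx
    have hxN : |x * N / θ| ≤ N := by
      rw [abs_div, abs_mul, abs_of_pos hθ, abs_of_pos hN0, div_le_iff₀ hθ]
      nlinarith
    have hr := abs_sub_round (x * N / θ)
    have hk : |round (x * N / θ)| ≤ (N : ℤ) := by
      rw [abs_le] at hxN hr ⊢
      constructor
      · have h1 : (-(N : ℤ) : ℝ) - 1 < ((round (x * N / θ) : ℤ) : ℝ) := by push_cast; linarith
        have h2 : (-(N : ℤ)) - 1 < round (x * N / θ) := by exact_mod_cast h1
        omega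
      · have h1 : ((round (x * N / θ) : ℤ) : ℝ) < ((N : ℤ) : ℝ) + 1 := by push_cast; linarith
        have h2 : round (x * N / θ) < (N : ℤ) + 1 := by exact_mod_cast h1
        omega
    have hmem : (round (x * N / θ) : ℝ) * θ / N ∈ (Finset.Icc (-(N : ℤ)) N).image (fun k : ℤ => (k : ℝ) * θ / N) := by
      rw [Finset.mem_image]
      refine ⟨round (x * N / θ), ?_, rfl⟩
      rw [Finset.mem_Icc]
      exact abs_le.1 hk
    have h1 : Real.exp (-(π * η * (x - (round (x * N / θ) : ℝ) * θ / N) ^ 2)) ≤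
        ∑ κ ∈ (Finset.Icc (-(N : ℤ)) N).image (fun k : ℤ => (k : ℝ) * θ / N), Real.exp (-(π * η * (x - κ) ^ 2)) :=
      Finset.single_le_sum (f := fun κ => Real.exp (-(π * η * (x - κ) ^ 2))) (fun _ _ => (Real.exp_pos _).le) hmem
    have h2 : |x - (round (x * N / θ) : ℝ) * θ / N| * √η ≤ 1 / 2 := by
      have h3 : x - (round (x * N / θ) : ℝ) * θ / N = (x * N / θ - round (x * N / θ)) * (θ / N) := by
        field_simp
      rw [h3, abs_mul, abs_of_pos (div_pos hθ hN0)]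
      have h4 : θ / N * √η ≤ 1 := by
        rw [div_mul_eq_mul_div, div_le_one hN0]
        nlinarith
      have h5 : 0 ≤ θ / N * √η := by positivity
      calc |x * N / θ - round (x * N / θ)| * (θ / N) * √η = |x * N / θ - round (x * N / θ)| * (θ / N * √η) := by ring
        _ ≤ 1 / 2 * 1 := mul_le_mul hr h4 h5 (by norm_num)
        _ = 1 / 2 := by norm_num
    have h6 : π * η * (x - (round (x * N / θ) : ℝ) * θ / N) ^ 2 ≤ 1 := by
      have h7 : η * (x - (round (x * N / θ) : ℝ) * θ / N) ^ 2 =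
          (|x - (round (x * N / θ) : ℝ) * θ / N| * √η) ^ 2 := by
        rw [mul_pow, sq_abs, hsq]
        ring
      have h8 : (|x - (round (x * N / θ) : ℝ) * θ / N| * √η) ^ 2 ≤ (1 / 2) ^ 2 :=
        pow_le_pow_left₀ (by positivity) h2 2
      rw [mul_assoc, h7]
      nlinarith [Real.pi_lt_four, Real.pi_pos]
    have h9 : (1 : ℝ) / 3 ≤ Real.exp (-(π * η * (x - (round (x * N / θ) : ℝ) * θ / N) ^ 2)) := by
      have h10 : Real.exp (-1) ≤ Real.exp (-(π * η * (x - (round (x * N / θ) : ℝ) * θ / N) ^ 2)) :=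
        Real.exp_le_exp.2 (by linarith)
      have h11 : (1 : ℝ) / 3 ≤ Real.exp (-1) := by
        rw [Real.exp_neg, one_div]
        exact inv_anti₀ (Real.exp_pos _) (by linarith [Real.exp_one_lt_d9])
      exact h11.trans h10
    linarith

end Pool.Agent.H93.RS
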