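import Mathlib

/-!
# [H93 RS EX]  exponentials against powers
-/

set_option autoImplicit false

namespace Pool.Agent.H93.RS

open Real

theorem expo {N c ε : ℝ} (hc : 0 < c) (hε : 0 < ε) : ∃ C : ℝ, 0 < C ∧ ∀ X : ℝ, 1 ≤ X →
    X ^ N * Real.exp (-(c * X ^ ε)) ≤ C := by
  obtain ⟨n, hn⟩ := exists_nat_ge (N / ε)
  refine ⟨(n.factorial : ℝ) / c ^ n, by positivity, ?_⟩
  intro X hX
  have hX0 : 0 < X := by linarith
  have hu : 0 < X ^ ε := Real.rpow_pos_of_pos hX0 _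
  have h1 : X ^ N ≤ (X ^ ε) ^ n := by
    rw [← Real.rpow_natCast, ← Real.rpow_mul hX0.le]
    apply Real.rpow_le_rpow_of_exponent_le hX
    rw [div_le_iff₀ hε] at hn
    linarith
  have h2 : (c * X ^ ε) ^ n / (n.factorial : ℝ) ≤ Real.exp (c * X ^ ε) :=
    Real.pow_div_factorial_le_exp _ (by positivity) n
  rw [Real.exp_neg, ← div_eq_mul_inv, div_le_div_iff₀ (Real.exp_pos _) (by positivity)]
  have hf : (0 : ℝ) < (n.factorial : ℝ) := by positivity
  rw [div_le_iff₀ hf, mul_pow] at h2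
  have hcn : 0 < c ^ n := by positivity
  calc X ^ N * c ^ n ≤ (X ^ ε) ^ n * c ^ n := mul_le_mul_of_nonneg_right h1 hcn.le
    _ ≤ (n.factorial : ℝ) * Real.exp (c * X ^ ε) := by linarith

end Pool.Agent.H93.RS
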