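import Mathlib
import Pool.Agent.H93.RS.Defs
import Pool.Agent.H93.RS.Gs

/-!
# [H93 RS T1A]  gaussian Parseval in y
-/

set_option autoImplicit false

namespace Pool.Agent.H93.RS

open Finset Real MeasureTheory

/-- the gaussian weight of `(s,t)` -/
private noncomputable def wt (η κ : ℝ) (s : ℕ) (t : ℤ) : ℝ := Real.exp (-(π * η * ((t : ℝ) / s - κ) ^ 2))

private theorem wt_pos (η κ : ℝ) (s : ℕ) (t : ℤ) : 0 < wt η κ s t := Real.exp_pos _

private theorem ee_cont (x : ℝ) : Continuous (fun y : ℝ => ee (y * x)) := by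
  unfold ee
  fun_prop

private theorem ee_neg (x : ℝ) : ee (-x) = (starRingEnd ℂ) (ee x) := by
  unfold ee
  rw [← Complex.exp_conj, map_mul, Complex.conj_ofReal, Complex.conj_I]
  congr 1
  push_cast
  ring

private theorem wt_summable {η : ℝ} (hη : 0 < η) (κ : ℝ) {s : ℕ} (hs : 1 ≤ s) : Summable (wt η κ s) :=
  gs_summable (a := (s : ℝ)) (c := π * η) (κ := κ) (by exact_mod_cast hs) (mul_pos Real.pi_pos hη)

private theorem wt_tsum_le {η : ℝ} (hη : 1 ≤ η) (κ : ℝ) {s : ℕ} (hs : 1 ≤ s) :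
    ∑' t : ℤ, wt η κ s t ≤ 10 * (1 + (s : ℝ)) := by
  apply gs_le (a := (s : ℝ)) (c := π * η) (κ := κ) (by exact_mod_cast hs)
  have h := Real.pi_gt_three
  nlinarith

theorem SS_cont (R : ℕ) {η κ : ℝ} (hη : 0 < η) : Continuous (SS R η κ) := by
  unfold SS
  refine continuous_finsetSum _ fun s hs => ?_
  have hs1 : 1 ≤ s := by
    rcases Finset.mem_Ico.1 hs with ⟨h1, h2⟩
    omega
  refine continuous_tsum (u := wt η κ s) (fun t => continuous_const.mul (ee_cont _)) (wt_summable hη κ hs1) fun t y => ?_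
  rw [norm_mul, norm_ee, mul_one, Complex.norm_real, Real.norm_eq_abs, abs_of_pos (Real.exp_pos _)]
  rfl

private theorem norm_term (η κ : ℝ) (s : ℕ) (t : ℤ) (y : ℝ) :
    ‖((wt η κ s t : ℝ) : ℂ) * ee (y * xx s t)‖ = wt η κ s t := by
  rw [norm_mul, norm_ee, mul_one, Complex.norm_real, Real.norm_eq_abs, abs_of_pos (wt_pos _ _ _ _)]

private theorem sum_bd {R : ℕ} {η κ : ℝ} (hη : 1 ≤ η) :
    ∑ s ∈ Finset.Ico R (2 * R), ∑' t : ℤ, wt η κ s t ≤ 30 * (R : ℝ) ^ 2 := by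
  calc ∑ s ∈ Finset.Ico R (2 * R), ∑' t : ℤ, wt η κ s t ≤ ∑ s ∈ Finset.Ico R (2 * R), 20 * (R : ℝ) := by
        refine Finset.sum_le_sum fun s hs => ?_
        rcases Finset.mem_Ico.1 hs with ⟨h1, h2⟩
        have hs1 : 1 ≤ s := by omega
        have h3 := wt_tsum_le (κ := κ) hη hs1
        have h4 : (s : ℝ) + 1 ≤ 2 * R := by exact_mod_cast h2
        linarith
    _ = R * (20 * (R : ℝ)) := by
        rw [Finset.sum_const, nsmul_eq_mul, Nat.card_Ico]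
        congr 2
        omega
    _ ≤ 30 * (R : ℝ) ^ 2 := by nlinarith [sq_nonneg (R : ℝ)]

theorem SS_le {R : ℕ} (hR : 1 ≤ R) {η κ : ℝ} (hη : 1 ≤ η) (y : ℝ) : ‖SS R η κ y‖ ≤ 30 * (R : ℝ) ^ 2 := by
  refine le_trans ?_ (sum_bd (κ := κ) hη)
  unfold SS
  refine norm_sum_le_of_le _ fun s hs => ?_
  have hs1 : 1 ≤ s := by
    rcases Finset.mem_Ico.1 hs with ⟨h1, h2⟩
    omega
  have h0 : (fun t : ℤ => ‖((wt η κ s t : ℝ) : ℂ) * ee (y * xx s t)‖) = wt η κ s := by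
    funext t
    exact norm_term η κ s t y
  have h1 : Summable (fun t : ℤ => ‖((wt η κ s t : ℝ) : ℂ) * ee (y * xx s t)‖) := by
    rw [h0]
    exact wt_summable (by linarith) κ hs1
  have h2 := norm_tsum_le_tsum_norm h1
  rw [h0] at h2
  exact h2

/-- `∫ exp(-πy²/J²) e(yu) dy = J exp(-πJ²u²)` -/
private theorem gfour {J : ℝ} (hJ : 0 < J) (u : ℝ) :
    ∫ y : ℝ, ((Real.exp (-(π * y ^ 2 / J ^ 2)) : ℝ) : ℂ) * ee (y * u) =
      ((J * Real.exp (-π * J ^ 2 * u ^ 2) : ℝ) : ℂ) := by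
  have hJ2 : (0 : ℝ) < π / J ^ 2 := by positivity
  have h := fourierIntegral_gaussian (b := ((π / J ^ 2 : ℝ) : ℂ)) (by rw [Complex.ofReal_re]; exact hJ2)
    ((2 * π * u : ℝ) : ℂ)
  have hJc : (J : ℂ) ≠ 0 := by exact_mod_cast hJ.ne'
  have hpc : (π : ℂ) ≠ 0 := by exact_mod_cast Real.pi_ne_zero
  have h1 : ∀ y : ℝ, Complex.exp (Complex.I * ((2 * π * u : ℝ) : ℂ) * (y : ℂ)) *
      Complex.exp (-((π / J ^ 2 : ℝ) : ℂ) * (y : ℂ) ^ 2) =
      ((Real.exp (-(π * y ^ 2 / J ^ 2)) : ℝ) : ℂ) * ee (y * u) := by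
    intro y
    unfold ee
    rw [mul_comm, Complex.ofReal_exp]
    congr 2
    · push_cast
      ring
    · push_cast
      ring
  simp_rw [h1] at h
  rw [h]
  have h2 : ((π : ℂ) / ((π / J ^ 2 : ℝ) : ℂ)) = (((J ^ 2 : ℝ)) : ℂ) := by
    push_cast
    field_simp
  have h3 : ((π : ℂ) / ((π / J ^ 2 : ℝ) : ℂ)) ^ (1 / 2 : ℂ) = (J : ℂ) := by
    rw [h2]
    have h4 : (1 / 2 : ℂ) = ((1 / 2 : ℝ) : ℂ) := by push_cast; ring
    rw [h4, ← Complex.ofReal_cpow (by positivity), ← Real.sqrt_eq_rpow, Real.sqrt_sq hJ.le]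
  rw [h3]
  push_cast
  congr 2
  field_simp
  ring

private theorem gint {J : ℝ} (hJ : 0 < J) (u : ℝ) :
    Integrable (fun y : ℝ => ((Real.exp (-(π * y ^ 2 / J ^ 2)) : ℝ) : ℂ) * ee (y * u)) := by
  have hJ2 : (0 : ℝ) < π / J ^ 2 := by positivity
  refine (integrable_exp_neg_mul_sq hJ2).mono' ?_ (Filter.Eventually.of_forall fun y => ?_)
  · apply Continuous.aestronglyMeasurable
    exact (Complex.continuous_ofReal.comp (by fun_prop)).mul (ee_cont _)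
  · rw [norm_mul, norm_ee, mul_one, Complex.norm_real, Real.norm_eq_abs, abs_of_pos (Real.exp_pos _)]
    apply le_of_eq
    congr 1
    ring

/-- gaussian Parseval for a finite sum -/
private theorem pars {ι : Type} (P : Finset ι) (W x : ι → ℝ) {J : ℝ} (hJ : 0 < J) :
    ∑ p ∈ P, ∑ p' ∈ P, W p * W p' * Real.exp (-π * J ^ 2 * (x p - x p') ^ 2) =
      1 / J * ∫ y : ℝ, Real.exp (-(π * y ^ 2 / J ^ 2)) * ‖∑ p ∈ P, ((W p : ℝ) : ℂ) * ee (y * x p)‖ ^ 2 := by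
  have h1 : ∀ y : ℝ, ((Real.exp (-(π * y ^ 2 / J ^ 2)) *
      ‖∑ p ∈ P, ((W p : ℝ) : ℂ) * ee (y * x p)‖ ^ 2 : ℝ) : ℂ) =
      ∑ p ∈ P, ∑ p' ∈ P, ((W p * W p' : ℝ) : ℂ) *
        (((Real.exp (-(π * y ^ 2 / J ^ 2)) : ℝ) : ℂ) * ee (y * (x p - x p'))) := by
    intro y
    rw [Complex.ofReal_mul, Complex.ofReal_pow, ← Complex.mul_conj', map_sum, Finset.sum_mul_sum, Finset.mul_sum]
    refine Finset.sum_congr rfl fun p _ => ?_
    rw [Finset.mul_sum]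
    refine Finset.sum_congr rfl fun p' _ => ?_
    rw [map_mul, Complex.conj_ofReal, ← ee_neg, show y * (x p - x p') = y * x p + -(y * x p') by ring, ee_add,
      Complex.ofReal_mul (W p) (W p')]
    ring
  have h2 : ((∫ y : ℝ, Real.exp (-(π * y ^ 2 / J ^ 2)) *
      ‖∑ p ∈ P, ((W p : ℝ) : ℂ) * ee (y * x p)‖ ^ 2 : ℝ) : ℂ) =
      ((J * ∑ p ∈ P, ∑ p' ∈ P, W p * W p' * Real.exp (-π * J ^ 2 * (x p - x p') ^ 2) : ℝ) : ℂ) := by
    rw [← integral_complex_ofReal]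
    simp_rw [h1]
    rw [integral_finsetSum _ fun p _ => integrable_finsetSum _ fun p' _ => (gint hJ _).const_mul _,
      Complex.ofReal_mul, Complex.ofReal_sum, Finset.mul_sum]
    refine Finset.sum_congr rfl fun p _ => ?_
    rw [integral_finsetSum _ fun p' _ => (gint hJ _).const_mul _, Complex.ofReal_sum, Finset.mul_sum]
    refine Finset.sum_congr rfl fun p' _ => ?_
    rw [integral_const_mul, gfour hJ]
    push_cast
    ring
  have h3 := Complex.ofReal_injective h2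
  rw [h3]
  field_simp

/-- the truncated sum -/
private noncomputable def TT (R : ℕ) (η κ : ℝ) (F : Finset ℤ) (y : ℝ) : ℂ :=
  ∑ s ∈ Finset.Ico R (2 * R), ∑ t ∈ F, ((wt η κ s t : ℝ) : ℂ) * ee (y * xx s t)

private theorem TT_cont (R : ℕ) (η κ : ℝ) (F : Finset ℤ) : Continuous (TT R η κ F) :=
  continuous_finsetSum _ fun _ _ => continuous_finsetSum _ fun _ _ => continuous_const.mul (ee_cont _)

private theorem TT_le {R : ℕ} {η κ : ℝ} (hη : 1 ≤ η) (F : Finset ℤ) (y : ℝ) : ‖TT R η κ F y‖ ≤ 30 * (R : ℝ) ^ 2 := by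
  refine le_trans ?_ (sum_bd (κ := κ) hη)
  unfold TT
  refine norm_sum_le_of_le _ fun s hs => ?_
  have hs1 : 1 ≤ s := by
    rcases Finset.mem_Ico.1 hs with ⟨h1, h2⟩
    omega
  calc ‖∑ t ∈ F, ((wt η κ s t : ℝ) : ℂ) * ee (y * xx s t)‖ ≤ ∑ t ∈ F, wt η κ s t :=
        norm_sum_le_of_le _ fun t _ => le_of_eq (norm_term _ _ _ _ _)
    _ ≤ ∑' t : ℤ, wt η κ s t := (wt_summable (by linarith) κ hs1).sum_le_tsum F fun t _ => (wt_pos _ _ _ _).le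

private theorem TT_tendsto {R : ℕ} {η κ : ℝ} (hη : 0 < η) (y : ℝ) :
    Filter.Tendsto (fun F : Finset ℤ => TT R η κ F y) Filter.atTop (nhds (SS R η κ y)) := by
  unfold TT SS
  refine tendsto_finsetSum _ fun s hs => ?_
  have hs1 : 1 ≤ s := by
    rcases Finset.mem_Ico.1 hs with ⟨h1, h2⟩
    omega
  have h0 : (fun t : ℤ => ‖((wt η κ s t : ℝ) : ℂ) * ee (y * xx s t)‖) = wt η κ s := by
    funext t
    exact norm_term η κ s t y
  have h1 : Summable (fun t : ℤ => ((wt η κ s t : ℝ) : ℂ) * ee (y * xx s t)) := by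
    apply Summable.of_norm
    rw [h0]
    exact wt_summable hη κ hs1
  exact h1.hasSum

private theorem SS_neg (R : ℕ) (η κ y : ℝ) : SS R η κ (-y) = (starRingEnd ℂ) (SS R η κ y) := by
  unfold SS
  rw [map_sum]
  refine Finset.sum_congr rfl fun s _ => ?_
  rw [Complex.conj_tsum]
  refine tsum_congr fun t => ?_
  rw [map_mul, Complex.conj_ofReal, ← ee_neg, neg_mul]

private theorem step1 {θ η J : ℝ} {R : ℕ} (hR : 1 ≤ R) (hJ : 0 < J) (K : Finset ℝ)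
    (hK : ∀ x : ℝ, |x| ≤ θ → 1 ≤ 3 * ∑ κ ∈ K, Real.exp (-(π * η * (x - κ) ^ 2)))
    {F : Finset ℤ} (hF : Jn (|θ| * (2 * R)) ⊆ F) :
    AA θ R J ≤ 9 / J * ∫ y : ℝ, Real.exp (-(π * y ^ 2 / J ^ 2)) * ‖∑ κ ∈ K, TT R η κ F y‖ ^ 2 := by
  have h0 : PP θ R ⊆ (Finset.Ico R (2 * R)).sigma (fun _ => F) := by
    intro p hp
    unfold PP at hp
    rw [Finset.mem_sigma] at hp ⊢
    refine ⟨hp.1, hF ?_⟩
    rw [mem_Jn]
    have h1 := mem_Jn.1 hp.2
    have h2 : (p.1 : ℝ) ≤ 2 * R := by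
      have h3 := (Finset.mem_Ico.1 hp.1).2
      exact_mod_cast h3.le
    have h4 : (0 : ℝ) ≤ p.1 := Nat.cast_nonneg _
    calc |(p.2 : ℝ)| ≤ θ * p.1 := h1
      _ ≤ |θ| * p.1 := mul_le_mul_of_nonneg_right (le_abs_self θ) h4
      _ ≤ |θ| * (2 * R) := mul_le_mul_of_nonneg_left h2 (abs_nonneg θ)
  have hW : ∀ p ∈ PP θ R, 1 ≤ 3 * ∑ κ ∈ K, wt η κ p.1 p.2 := by
    intro p hp
    unfold PP at hp
    rw [Finset.mem_sigma] at hp
    have h1 := mem_Jn.1 hp.2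
    have h2 : (0 : ℝ) < p.1 := by
      have h3 := (Finset.mem_Ico.1 hp.1).1
      exact_mod_cast (by omega : 0 < p.1)
    apply hK
    rw [abs_div, abs_of_pos h2, div_le_iff₀ h2]
    exact h1
  have hW0 : ∀ p : (Σ _ : ℕ, ℤ), 0 ≤ 3 * ∑ κ ∈ K, wt η κ p.1 p.2 := fun p =>
    mul_nonneg (by norm_num) (Finset.sum_nonneg fun κ _ => (wt_pos _ _ _ _).le)
  have h2 := pars ((Finset.Ico R (2 * R)).sigma (fun _ => F)) (fun p => 3 * ∑ κ ∈ K, wt η κ p.1 p.2)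
    (fun p => xx p.1 p.2) hJ
  have h3 : AA θ R J ≤ ∑ p ∈ (Finset.Ico R (2 * R)).sigma (fun _ => F),
      ∑ p' ∈ (Finset.Ico R (2 * R)).sigma (fun _ => F), (3 * ∑ κ ∈ K, wt η κ p.1 p.2) *
        (3 * ∑ κ ∈ K, wt η κ p'.1 p'.2) * Real.exp (-π * J ^ 2 * (xx p.1 p.2 - xx p'.1 p'.2) ^ 2) := by
    unfold AA
    refine le_trans ?_ (Finset.sum_le_sum_of_subset_of_nonneg h0 fun p _ _ =>
      Finset.sum_nonneg fun p' _ => mul_nonneg (mul_nonneg (hW0 p) (hW0 p')) (Real.exp_pos _).le)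
    refine Finset.sum_le_sum fun p hp => ?_
    refine le_trans ?_ (Finset.sum_le_sum_of_subset_of_nonneg h0 fun p' _ _ =>
      mul_nonneg (mul_nonneg (hW0 p) (hW0 p')) (Real.exp_pos _).le)
    refine Finset.sum_le_sum fun p' hp' => ?_
    apply le_mul_of_one_le_left (Real.exp_pos _).le
    exact one_le_mul_of_one_le_of_one_le (hW p hp) (hW p' hp')
  have h4 : ∀ y : ℝ, Real.exp (-(π * y ^ 2 / J ^ 2)) * ‖∑ p ∈ (Finset.Ico R (2 * R)).sigma (fun _ => F),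
      (((3 * ∑ κ ∈ K, wt η κ p.1 p.2 : ℝ)) : ℂ) * ee (y * xx p.1 p.2)‖ ^ 2 =
      9 * (Real.exp (-(π * y ^ 2 / J ^ 2)) * ‖∑ κ ∈ K, TT R η κ F y‖ ^ 2) := by
    intro y
    have h5 : ∑ p ∈ (Finset.Ico R (2 * R)).sigma (fun _ => F),
      (((3 * ∑ κ ∈ K, wt η κ p.1 p.2 : ℝ)) : ℂ) * ee (y * xx p.1 p.2) = 3 * ∑ κ ∈ K, TT R η κ F y := by
      have h6 : ∑ κ ∈ K, TT R η κ F y = ∑ s ∈ Finset.Ico R (2 * R), ∑ t ∈ F, ∑ κ ∈ K,
          ((wt η κ s t : ℝ) : ℂ) * ee (y * xx s t) := by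
        unfold TT
        rw [Finset.sum_comm]
        exact Finset.sum_congr rfl fun s _ => Finset.sum_comm
      rw [Finset.sum_sigma, h6, Finset.mul_sum]
      refine Finset.sum_congr rfl fun s _ => ?_
      rw [Finset.mul_sum]
      refine Finset.sum_congr rfl fun t _ => ?_
      push_cast
      rw [mul_assoc, Finset.sum_mul]
    rw [h5, norm_mul, mul_pow]
    norm_num
    ring
  simp_rw [h4] at h2
  rw [integral_const_mul] at h2
  refine h3.trans (le_of_eq ?_)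
  rw [h2]
  ring

/-- `exp(-πJ²x²) = (1/J) ∫ exp(-πy²/J²) e(yx) dy`; `A ≤ ∑_{p,p'} W(p)W(p') exp(..)`, `W(p) = 3∑_κ exp(-πη(t/s-κ)²)`, all `t ∈ ℤ`;
truncate `|t| ≤ T`, `T → ∞` -/
theorem t1a {θ η J : ℝ} {R : ℕ} (hR : 1 ≤ R) (hη : 1 ≤ η) (hJ : 0 < J) (K : Finset ℝ)
    (hK : ∀ x : ℝ, |x| ≤ θ → 1 ≤ 3 * ∑ κ ∈ K, Real.exp (-(π * η * (x - κ) ^ 2))) :
    AA θ R J ≤ 18 / J * ∫ y in Set.Ioi (0 : ℝ), Real.exp (-(π * y ^ 2 / J ^ 2)) * (∑ κ ∈ K, ‖SS R η κ y‖) ^ 2 := by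
  have hη0 : 0 < η := by linarith
  have hJ2 : (0 : ℝ) < π / J ^ 2 := by positivity
  have hB : ∀ y : ℝ, Real.exp (-(π * y ^ 2 / J ^ 2)) = Real.exp (-(π / J ^ 2) * y ^ 2) := by
    intro y
    congr 1
    ring
  -- the limit
  have hlim : Filter.Tendsto (fun F : Finset ℤ => ∫ y : ℝ, Real.exp (-(π * y ^ 2 / J ^ 2)) * ‖∑ κ ∈ K, TT R η κ F y‖ ^ 2)
      Filter.atTop (nhds (∫ y : ℝ, Real.exp (-(π * y ^ 2 / J ^ 2)) * ‖∑ κ ∈ K, SS R η κ y‖ ^ 2)) := by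
    apply tendsto_integral_filter_of_dominated_convergence
      (fun y : ℝ => Real.exp (-(π / J ^ 2) * y ^ 2) * ((K.card : ℝ) * (30 * (R : ℝ) ^ 2)) ^ 2)
    · refine Filter.Eventually.of_forall fun F => Continuous.aestronglyMeasurable ?_
      have h1 : Continuous (fun y => ‖∑ κ ∈ K, TT R η κ F y‖) :=
        (continuous_finsetSum _ fun κ _ => TT_cont R η κ F).norm
      have h2 : Continuous (fun y : ℝ => Real.exp (-(π * y ^ 2 / J ^ 2))) := by fun_prop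
      exact h2.mul (h1.pow 2)
    · refine Filter.Eventually.of_forall fun F => Filter.Eventually.of_forall fun y => ?_
      rw [norm_mul, norm_pow, norm_norm, Real.norm_eq_abs, abs_of_pos (Real.exp_pos _), hB]
      apply mul_le_mul_of_nonneg_left _ (Real.exp_pos _).le
      apply pow_le_pow_left₀ (norm_nonneg _)
      calc ‖∑ κ ∈ K, TT R η κ F y‖ ≤ ∑ κ ∈ K, 30 * (R : ℝ) ^ 2 := norm_sum_le_of_le _ fun κ _ => TT_le hη F y
        _ = (K.card : ℝ) * (30 * (R : ℝ) ^ 2) := by rw [Finset.sum_const, nsmul_eq_mul]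
    · exact (integrable_exp_neg_mul_sq hJ2).mul_const _
    · refine Filter.Eventually.of_forall fun y => ?_
      apply Filter.Tendsto.mul tendsto_const_nhds
      exact ((tendsto_finsetSum _ fun κ _ => TT_tendsto hη0 y).norm).pow 2
  have h1 : AA θ R J ≤ 9 / J * ∫ y : ℝ, Real.exp (-(π * y ^ 2 / J ^ 2)) * ‖∑ κ ∈ K, SS R η κ y‖ ^ 2 := by
    apply ge_of_tendsto (hlim.const_mul (9 / J))
    filter_upwards [Filter.eventually_ge_atTop (Jn (|θ| * (2 * R)))] with F hF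
    exact step1 hR hJ K hK hF
  -- the triangle inequality and symmetry
  have hsc : Continuous (fun y => ∑ κ ∈ K, ‖SS R η κ y‖) :=
    continuous_finsetSum _ fun κ _ => (SS_cont R hη0).norm
  have hint : Integrable (fun y : ℝ => Real.exp (-(π * y ^ 2 / J ^ 2)) * (∑ κ ∈ K, ‖SS R η κ y‖) ^ 2) := by
    refine ((integrable_exp_neg_mul_sq hJ2).mul_const (((K.card : ℝ) * (30 * (R : ℝ) ^ 2)) ^ 2)).mono' ?_ ?_
    · apply Continuous.aestronglyMeasurable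
      have h2 : Continuous (fun y : ℝ => Real.exp (-(π * y ^ 2 / J ^ 2))) := by fun_prop
      exact h2.mul (hsc.pow 2)
    · refine Filter.Eventually.of_forall fun y => ?_
      have h0 : 0 ≤ ∑ κ ∈ K, ‖SS R η κ y‖ := Finset.sum_nonneg fun κ _ => norm_nonneg _
      rw [Real.norm_eq_abs, abs_of_nonneg (mul_nonneg (Real.exp_pos _).le (pow_nonneg h0 2)), hB]
      apply mul_le_mul_of_nonneg_left _ (Real.exp_pos _).le
      apply pow_le_pow_left₀ h0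
      calc ∑ κ ∈ K, ‖SS R η κ y‖ ≤ ∑ κ ∈ K, 30 * (R : ℝ) ^ 2 := Finset.sum_le_sum fun κ _ => SS_le hR hη y
        _ = (K.card : ℝ) * (30 * (R : ℝ) ^ 2) := by rw [Finset.sum_const, nsmul_eq_mul]
  have h2 : ∫ y : ℝ, Real.exp (-(π * y ^ 2 / J ^ 2)) * ‖∑ κ ∈ K, SS R η κ y‖ ^ 2 ≤
      ∫ y : ℝ, Real.exp (-(π * y ^ 2 / J ^ 2)) * (∑ κ ∈ K, ‖SS R η κ y‖) ^ 2 := by
    apply integral_mono_of_nonneg _ hint
    · refine Filter.Eventually.of_forall fun y => ?_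
      apply mul_le_mul_of_nonneg_left _ (Real.exp_pos _).le
      exact pow_le_pow_left₀ (norm_nonneg _) (norm_sum_le _ _) 2
    · exact Filter.Eventually.of_forall fun y => mul_nonneg (Real.exp_pos _).le (sq_nonneg _)
  have h3 : ∫ y : ℝ, Real.exp (-(π * y ^ 2 / J ^ 2)) * (∑ κ ∈ K, ‖SS R η κ y‖) ^ 2 =
      2 * ∫ y in Set.Ioi (0 : ℝ), Real.exp (-(π * y ^ 2 / J ^ 2)) * (∑ κ ∈ K, ‖SS R η κ y‖) ^ 2 := by
    rw [← integral_comp_abs (f := fun y : ℝ => Real.exp (-(π * y ^ 2 / J ^ 2)) * (∑ κ ∈ K, ‖SS R η κ y‖) ^ 2)]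
    congr 1
    funext y
    rw [sq_abs]
    congr 2
    refine Finset.sum_congr rfl fun κ _ => ?_
    rcases abs_cases y with ⟨h, _⟩ | ⟨h, _⟩
    · rw [h]
    · rw [h, SS_neg, RCLike.norm_conj]
  have h4 : 9 / J * ∫ y : ℝ, Real.exp (-(π * y ^ 2 / J ^ 2)) * ‖∑ κ ∈ K, SS R η κ y‖ ^ 2 ≤
      9 / J * ∫ y : ℝ, Real.exp (-(π * y ^ 2 / J ^ 2)) * (∑ κ ∈ K, ‖SS R η κ y‖) ^ 2 :=
    mul_le_mul_of_nonneg_left h2 (by positivity)
  refine h1.trans (h4.trans (le_of_eq ?_))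
  rw [h3]
  ring

end Pool.Agent.H93.RS
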