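import Mathlib
import Pool.Agent.H93.RS.Defs

/-!
# [H93 RS ABEL]  partial summation
-/

set_option autoImplicit false

namespace Pool.Agent.H93.RS

open Finset Real MeasureTheory

theorem ee_natCast_mul (s : ℕ) (φ : ℝ) : ee (s * φ) = (ee (φ - round φ)) ^ s := by
  unfold ee
  rw [← Complex.exp_nat_mul, Complex.exp_eq_exp_iff_exists_int]
  refine ⟨s * round φ, ?_⟩
  push_cast
  ring

theorem four_dz_le_norm {φ : ℝ} : 4 * dz φ ≤ ‖1 - ee (φ - round φ)‖ := by
  have h1 : ‖1 - ee (φ - round φ)‖ = |2 * Real.sin (π * (φ - round φ))| := by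
    rw [norm_sub_rev]
    unfold ee
    rw [mul_comm, Complex.norm_exp_I_mul_ofReal_sub_one, Real.norm_eq_abs]
    congr 3
    ring
  rw [h1, abs_mul]
  have h2 : |π * (φ - round φ)| ≤ π / 2 := by
    rw [abs_mul, abs_of_pos Real.pi_pos]
    have := abs_sub_round φ
    nlinarith [Real.pi_pos]
  have h3 := Real.mul_abs_le_abs_sin h2
  rw [abs_mul, abs_of_pos Real.pi_pos] at h3
  have h4 : 2 / π * (π * |φ - round φ|) = 2 * |φ - round φ| := by
    field_simp
  rw [h4] at h3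
  have h5 : |(2 : ℝ)| = 2 := abs_of_pos (by norm_num)
  rw [h5]
  unfold dz
  linarith

/-- the geometric sums over intervals -/
theorem geo {R : ℕ} (m n : ℕ) (hR : 1 ≤ R) (h : n ≤ m + R) (φ : ℝ) :
    ‖∑ s ∈ Finset.Ico m n, ee (s * φ)‖ ≤ 3 / 2 * ff R φ := by
  have hR0 : (1 : ℝ) ≤ R := by exact_mod_cast hR
  have hd := dz_nonneg φ
  have hpos : 0 < 1 + (R : ℝ) * dz φ := by positivity
  have hA : ‖∑ s ∈ Finset.Ico m n, ee (s * φ)‖ ≤ R := by
    calc ‖∑ s ∈ Finset.Ico m n, ee (s * φ)‖ ≤ ∑ s ∈ Finset.Ico m n, ‖ee (s * φ)‖ := norm_sum_le _ _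
      _ = ((n - m : ℕ) : ℝ) := by simp [norm_ee]
      _ ≤ R := by
        have : n - m ≤ R := by omega
        exact_mod_cast this
  have hB : ‖∑ s ∈ Finset.Ico m n, ee (s * φ)‖ * (4 * dz φ) ≤ 2 := by
    have h1 : ∑ s ∈ Finset.Ico m n, ee (s * φ) = ∑ s ∈ Finset.Ico m n, (ee (φ - round φ)) ^ s :=
      Finset.sum_congr rfl fun s _ => ee_natCast_mul s φ
    by_cases hmn : m ≤ n
    · have h2 := geom_sum_Ico_mul_neg (ee (φ - round φ)) hmn
      rw [← h1] at h2
      calc ‖∑ s ∈ Finset.Ico m n, ee (s * φ)‖ * (4 * dz φ)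
          ≤ ‖∑ s ∈ Finset.Ico m n, ee (s * φ)‖ * ‖1 - ee (φ - round φ)‖ :=
            mul_le_mul_of_nonneg_left four_dz_le_norm (norm_nonneg _)
        _ = ‖ee (φ - round φ) ^ m - ee (φ - round φ) ^ n‖ := by rw [← norm_mul, h2]
        _ ≤ ‖ee (φ - round φ) ^ m‖ + ‖ee (φ - round φ) ^ n‖ := norm_sub_le _ _
        _ = 2 := by
          rw [norm_pow, norm_pow, norm_ee]
          norm_num
    · rw [Finset.Ico_eq_empty (by omega)]
      simp
  unfold ff
  rw [← mul_div_assoc, le_div_iff₀ hpos]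
  have hn := norm_nonneg (∑ s ∈ Finset.Ico m n, ee (s * φ))
  nlinarith

/-- summation by parts -/
theorem parts (R : ℕ) (g e : ℕ → ℂ) (n : ℕ) (hn : R ≤ n) :
    ∑ s ∈ Finset.Ico R (n + 1), g s * e s = g n * (∑ s ∈ Finset.Ico R (n + 1), e s) -
      ∑ k ∈ Finset.Ico R n, (g (k + 1) - g k) * (∑ s ∈ Finset.Ico R (k + 1), e s) := by
  induction n, hn using Nat.le_induction with
  | base => simp
  | succ n hn ih =>
    rw [Finset.sum_Ico_succ_top (by omega : R ≤ n + 1) (fun s => g s * e s), ih,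
      Finset.sum_Ico_succ_top (by omega : R ≤ n + 1) e,
      Finset.sum_Ico_succ_top hn (fun k => (g (k + 1) - g k) * (∑ s ∈ Finset.Ico R (k + 1), e s))]
    ring

theorem abel {R : ℕ} (hR : 1 ≤ R) (g g' : ℝ → ℂ) {B : ℝ}
    (hd : ∀ s ∈ Set.Icc (R : ℝ) (2 * R), HasDerivAt g (g' s) s)
    (hg : ∀ s ∈ Set.Icc (R : ℝ) (2 * R), ‖g s‖ ≤ B) (hg' : ∀ s ∈ Set.Icc (R : ℝ) (2 * R), ‖g' s‖ ≤ B / R) (φ : ℝ) :
    ‖∑ s ∈ Finset.Ico R (2 * R), g s * ee (s * φ)‖ ≤ 4 * B * ff R φ := by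
  have hR0 : (1 : ℝ) ≤ R := by exact_mod_cast hR
  have hf : 0 ≤ ff R φ := ff_nonneg (by linarith) φ
  have hB : 0 ≤ B := (norm_nonneg _).trans (hg R ⟨le_refl _, by linarith⟩)
  obtain ⟨n, hn⟩ : ∃ n, 2 * R = n + 1 := ⟨2 * R - 1, by omega⟩
  have hRn : R ≤ n := by omega
  have hn2 : n < 2 * R := by omega
  have hp := parts R (fun s => g s) (fun s => ee (s * φ)) n hRn
  rw [hn, hp]
  have hgn : ‖g n‖ ≤ B := by
    apply hg
    constructor
    · exact_mod_cast hRn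
    · exact_mod_cast hn2.le
  have h1 : ‖g n * ∑ s ∈ Finset.Ico R (n + 1), ee (s * φ)‖ ≤ B * (3 / 2 * ff R φ) := by
    rw [norm_mul]
    exact mul_le_mul hgn (geo R (n + 1) hR (by omega) φ) (norm_nonneg _) hB
  have h2 : ‖∑ k ∈ Finset.Ico R n, (g ((k + 1 : ℕ) : ℝ) - g k) * (∑ s ∈ Finset.Ico R (k + 1), ee (s * φ))‖ ≤
      B * (3 / 2 * ff R φ) := by
    calc ‖∑ k ∈ Finset.Ico R n, (g ((k + 1 : ℕ) : ℝ) - g k) * (∑ s ∈ Finset.Ico R (k + 1), ee (s * φ))‖
        ≤ ∑ k ∈ Finset.Ico R n, ‖(g ((k + 1 : ℕ) : ℝ) - g k) * (∑ s ∈ Finset.Ico R (k + 1), ee (s * φ))‖ :=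
          norm_sum_le _ _
      _ ≤ ∑ k ∈ Finset.Ico R n, B / R * (3 / 2 * ff R φ) := by
          refine Finset.sum_le_sum fun k hk => ?_
          rw [Finset.mem_Ico] at hk
          rw [norm_mul]
          apply mul_le_mul _ (geo R (k + 1) hR (by omega) φ) (norm_nonneg _) (by positivity)
          have hk1 : (k : ℝ) ∈ Set.Icc (R : ℝ) (2 * R) := by
            constructor
            · exact_mod_cast hk.1
            · have : k ≤ 2 * R := by omega
              exact_mod_cast this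
          have hk2 : ((k + 1 : ℕ) : ℝ) ∈ Set.Icc (R : ℝ) (2 * R) := by
            constructor
            · have : R ≤ k + 1 := by omega
              exact_mod_cast this
            · have : k + 1 ≤ 2 * R := by omega
              exact_mod_cast this
          have h := Convex.norm_image_sub_le_of_norm_hasDerivWithin_le (f := g) (f' := g') (C := B / R)
            (s := Set.Icc (R : ℝ) (2 * R)) (fun x hx => (hd x hx).hasDerivWithinAt) hg' (convex_Icc _ _) hk1 hk2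
          have h3 : ‖((k + 1 : ℕ) : ℝ) - k‖ = 1 := by
            push_cast
            simp
          rwa [h3, mul_one] at h
      _ = ((n - R : ℕ) : ℝ) * (B / R * (3 / 2 * ff R φ)) := by simp
      _ ≤ R * (B / R * (3 / 2 * ff R φ)) := by
          apply mul_le_mul_of_nonneg_right _ (by positivity)
          have : n - R ≤ R := by omega
          exact_mod_cast this
      _ = B * (3 / 2 * ff R φ) := by
          field_simp
  calc _ ≤ ‖g n * ∑ s ∈ Finset.Ico R (n + 1), ee (s * φ)‖ +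
        ‖∑ k ∈ Finset.Ico R n, (g ((k + 1 : ℕ) : ℝ) - g k) * (∑ s ∈ Finset.Ico R (k + 1), ee (s * φ))‖ := norm_sub_le _ _
    _ ≤ B * (3 / 2 * ff R φ) + B * (3 / 2 * ff R φ) := add_le_add h1 h2
    _ ≤ 4 * B * ff R φ := by nlinarith [mul_nonneg hB hf]

end Pool.Agent.H93.RS
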