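import Mathlib
import Pool.Agent.H93.RS.Defs

/-!
# [H93 RS AMP]  the amplitudes g1, g2: size and derivative
-/

set_option autoImplicit false

namespace Pool.Agent.H93.RS

open Finset Real MeasureTheory

private theorem one_add_ne (σ : ℝ) : (1 + ((σ : ℝ) : ℂ) * Complex.I : ℂ) ≠ 0 := by
  intro h
  have h1 := congrArg Complex.re h
  simp at h1

private theorem norm_sq_one_add (σ : ℝ) : ‖(1 + ((σ : ℝ) : ℂ) * Complex.I : ℂ)‖ ^ 2 = 1 + σ ^ 2 := by
  rw [← Complex.normSq_eq_norm_sq, Complex.normSq_apply]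
  simp
  ring

private theorem re_w (X σ : ℝ) : (-((X : ℝ) : ℂ) / (1 + ((σ : ℝ) : ℂ) * Complex.I)).re = -(X / (1 + σ ^ 2)) := by
  rw [Complex.div_re, ← Complex.ofReal_neg, Complex.ofReal_re, Complex.ofReal_im, Complex.normSq_eq_norm_sq,
    norm_sq_one_add]
  simp
  ring

private theorem exp_w {X σ : ℝ} (hX : 0 ≤ X) (hσ : σ ^ 2 ≤ 1) :
    ‖Complex.exp (-((X : ℝ) : ℂ) / (1 + ((σ : ℝ) : ℂ) * Complex.I))‖ ≤ Real.exp (-(X / 2)) := by
  rw [Complex.norm_exp, re_w]
  apply Real.exp_le_exp.2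
  have h1 : (0 : ℝ) < 1 + σ ^ 2 := by positivity
  have h2 : X / 2 ≤ X / (1 + σ ^ 2) := div_le_div_of_nonneg_left hX h1 (by linarith)
  linarith

private theorem fin1 {u : ℝ} (hu : 0 ≤ u) : (1 + π * u / 2) * Real.exp (-(π * u / 2)) ≤ 3 * Real.exp (-u) := by
  have hpi := Real.pi_gt_three
  have h1 : π / 2 * u - u + 1 ≤ Real.exp (π / 2 * u - u) := Real.add_one_le_exp _
  have h2 : (1 + π * u / 2) ≤ 3 * Real.exp (π / 2 * u - u) := by nlinarith
  have h3 : 3 * Real.exp (-u) = 3 * Real.exp (π / 2 * u - u) * Real.exp (-(π * u / 2)) := by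
    rw [mul_assoc, ← Real.exp_add]
    congr 2
    ring
  rw [h3]
  exact mul_le_mul_of_nonneg_right h2 (Real.exp_pos _).le

private theorem fin0 {u : ℝ} (hu : 0 ≤ u) : Real.exp (-(π * u / 2)) ≤ Real.exp (-u) := by
  apply Real.exp_le_exp.2
  have hpi := Real.pi_gt_three
  nlinarith

/-- the amplitude as an exponential -/
private theorem amp_eq {a : ℂ} (ha : a ≠ 0) (w : ℂ) :
    1 / a ^ (1 / 2 : ℂ) * Complex.exp w = Complex.exp (-(1 / 2) * Complex.log a + w) := by
  rw [Complex.cpow_def_of_ne_zero ha, one_div, ← Complex.exp_neg, ← Complex.exp_add]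
  congr 1
  ring

private theorem norm_half {a : ℂ} {c : ℝ} (hc : 0 < c) (h : c ≤ ‖a‖) :
    ‖1 / a ^ (1 / 2 : ℂ)‖ ≤ √(1 / c) := by
  have h1 : ‖a ^ (1 / 2 : ℂ)‖ = √‖a‖ := by
    rw [show (1 / 2 : ℂ) = ((1 / 2 : ℝ) : ℂ) by push_cast; ring, Complex.norm_cpow_real, Real.sqrt_eq_rpow]
  rw [norm_div, norm_one, h1, Real.sqrt_div' _ hc.le, Real.sqrt_one]
  exact one_div_le_one_div_of_le (Real.sqrt_pos.2 hc) (Real.sqrt_le_sqrt h)

private theorem dE {X : ℝ} {σ : ℝ → ℝ} {σ' s : ℝ} (h : HasDerivAt σ σ' s) :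
    HasDerivAt (fun s => -((X : ℝ) : ℂ) / (1 + ((σ s : ℝ) : ℂ) * Complex.I))
      (((X * σ' : ℝ) : ℂ) * Complex.I / (1 + ((σ s : ℝ) : ℂ) * Complex.I) ^ 2) s := by
  have h1 : HasDerivAt (fun s => (1 + ((σ s : ℝ) : ℂ) * Complex.I)) (((σ' : ℝ) : ℂ) * Complex.I) s :=
    (h.ofReal_comp.mul_const Complex.I).const_add 1
  have h2 := (hasDerivAt_const s (-((X : ℝ) : ℂ))).fun_div h1 (one_add_ne (σ s))
  refine h2.congr_deriv ?_
  push_cast
  ring

private theorem norm_dE {X σ σ' : ℝ} (hX : 0 ≤ X) :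
    ‖((X * σ' : ℝ) : ℂ) * Complex.I / (1 + ((σ : ℝ) : ℂ) * Complex.I) ^ 2‖ = X * |σ'| / (1 + σ ^ 2) := by
  rw [norm_div, norm_mul, Complex.norm_I, mul_one, norm_pow, norm_sq_one_add, Complex.norm_real, Real.norm_eq_abs,
    abs_mul, abs_of_nonneg hX]

/-- the logarithmic derivative -/
private theorem dAmp {g : ℝ → ℂ} {a E : ℝ → ℂ} {a' E' : ℂ} {s : ℝ} (hs : 0 < s)
    (hg : ∀ t : ℝ, 0 < t → g t = 1 / (a t) ^ (1 / 2 : ℂ) * Complex.exp (E t)) (hre : ∀ t : ℝ, 0 < t → 0 < (a t).re)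
    (ha : HasDerivAt a a' s) (hE : HasDerivAt E E' s) :
    HasDerivAt g (g s * (-(1 / 2) * (a' / a s) + E')) s := by
  have hne : ∀ t : ℝ, 0 < t → a t ≠ 0 := fun t ht h0 => by
    have := hre t ht
    rw [h0] at this
    simp at this
  have h1 : HasDerivAt (fun t => Complex.exp (-(1 / 2) * Complex.log (a t) + E t))
      (Complex.exp (-(1 / 2) * Complex.log (a s) + E s) * (-(1 / 2) * (a' / a s) + E')) s := by
    have h2 : HasDerivAt (fun t => Complex.log (a t)) (a' / a s) s := ha.clog_real (Or.inl (hre s hs))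
    exact ((h2.const_mul _).add hE).cexp
  have h3 : g s = Complex.exp (-(1 / 2) * Complex.log (a s) + E s) := by
    rw [hg s hs, amp_eq (hne s hs)]
  rw [h3]
  refine h1.congr_of_eventuallyEq ?_
  filter_upwards [lt_mem_nhds hs] with t ht
  rw [hg t ht, amp_eq (hne t ht)]

private noncomputable def a1 (η y s : ℝ) : ℂ := ((η / s ^ 2 : ℝ) : ℂ) + ((2 * y / s : ℝ) : ℂ) * Complex.I

private noncomputable def a2 (η m y : ℝ) : ℂ := ((η / (4 * y ^ 2) : ℝ) : ℂ) - ((m / (2 * y) : ℝ) : ℂ) * Complex.I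

private theorem g1_eq (η y δ s : ℝ) : g1 η y δ s = 1 / (a1 η y s) ^ (1 / 2 : ℂ) *
    Complex.exp (-((π * (η * δ ^ 2) : ℝ) : ℂ) / (1 + ((-(η / (2 * y * s)) : ℝ) : ℂ) * Complex.I)) := by
  unfold g1 a1
  congr 3
  · push_cast
    ring
  · push_cast
    ring

private theorem g2_eq (η m δ y : ℝ) : g2 η m δ y = 1 / (a2 η m y) ^ (1 / 2 : ℂ) *
    Complex.exp (-((π * (η * δ ^ 2) : ℝ) : ℂ) / (1 + ((η / (2 * y * m) : ℝ) : ℂ) * Complex.I)) := by
  unfold g2 a2
  congr 3
  push_cast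
  ring

private theorem a1_norm {η y s : ℝ} (hy : 0 < y) (hs : 0 < s) : 2 * y / s ≤ ‖a1 η y s‖ := by
  have h1 : (a1 η y s).im = 2 * y / s := by
    unfold a1
    simp only [Complex.add_im, Complex.mul_im, Complex.ofReal_re, Complex.ofReal_im, Complex.I_re, Complex.I_im]
    ring
  calc 2 * y / s = |(a1 η y s).im| := by rw [h1, abs_of_pos (by positivity)]
    _ ≤ _ := Complex.abs_im_le_norm _

private theorem a2_norm {η m y : ℝ} (hm : 0 < m) (hy : 0 < y) : m / (2 * y) ≤ ‖a2 η m y‖ := by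
  have h1 : (a2 η m y).im = -(m / (2 * y)) := by
    unfold a2
    simp only [Complex.sub_im, Complex.mul_im, Complex.ofReal_re, Complex.ofReal_im, Complex.I_re, Complex.I_im]
    ring
  calc m / (2 * y) = |(a2 η m y).im| := by rw [h1, abs_neg, abs_of_pos (by positivity)]
    _ ≤ _ := Complex.abs_im_le_norm _

/-- with the factor `exp(-X/2)`, `X = πηδ²` -/
private theorem g1_norm' {η y δ s : ℝ} (hη : 0 < η) (hy : 0 < y) (hs : 0 < s) (h : η ≤ 2 * y * s) :
    ‖g1 η y δ s‖ ≤ √(s / (2 * y)) * Real.exp (-(π * (η * δ ^ 2) / 2)) := by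
  rw [g1_eq, norm_mul]
  refine mul_le_mul ?_ ?_ (norm_nonneg _) (Real.sqrt_nonneg _)
  · have h1 := norm_half (c := 2 * y / s) (by positivity) (a1_norm (η := η) hy hs)
    rw [one_div_div] at h1
    exact h1
  · refine exp_w (by positivity) ?_
    rw [neg_sq]
    have h2 : η / (2 * y * s) ≤ 1 := (div_le_one (by positivity)).2 h
    have h3 : 0 ≤ η / (2 * y * s) := by positivity
    nlinarith

private theorem g2_norm' {η m δ y : ℝ} (hη : 0 < η) (hy : 0 < y) (hm : 0 < m) (h : η ≤ 2 * y * m) :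
    ‖g2 η m δ y / ((√y : ℝ) : ℂ)‖ ≤ √(2 / m) * Real.exp (-(π * (η * δ ^ 2) / 2)) := by
  have hsy : 0 < √y := Real.sqrt_pos.2 hy
  rw [g2_eq, norm_div, norm_mul, Complex.norm_real, Real.norm_of_nonneg hsy.le, mul_div_right_comm]
  refine mul_le_mul ?_ ?_ (norm_nonneg _) (Real.sqrt_nonneg _)
  · have h1 := norm_half (c := m / (2 * y)) (by positivity) (a2_norm (η := η) hm hy)
    rw [one_div_div] at h1
    rw [div_le_iff₀ hsy, ← Real.sqrt_mul (by positivity)]
    refine h1.trans (Real.sqrt_le_sqrt (le_of_eq ?_))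
    ring
  · refine exp_w (by positivity) ?_
    have h2 : η / (2 * y * m) ≤ 1 := (div_le_one (by positivity)).2 h
    have h3 : 0 ≤ η / (2 * y * m) := by positivity
    nlinarith

/-- |a| ≥ 2y/s, and Re (πηδ²/(1-iρ)) = πηδ²/(1+ρ²) ≥ πηδ²/2, ρ = η/(2ys) ≤ 1 -/
theorem g1_norm {η y δ s : ℝ} (hη : 0 < η) (hy : 0 < y) (hs : 0 < s) (h : η ≤ 2 * y * s) :
    ‖g1 η y δ s‖ ≤ √(s / (2 * y)) * Real.exp (-(η * δ ^ 2)) := by
  refine (g1_norm' hη hy hs h).trans (mul_le_mul_of_nonneg_left ?_ (Real.sqrt_nonneg _))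
  exact fin0 (by positivity)

theorem g1_deriv {η y δ : ℝ} (hη : 0 < η) (hy : 0 < y) : ∃ g' : ℝ → ℂ, ∀ s : ℝ, 0 < s → η ≤ 2 * y * s →
    HasDerivAt (g1 η y δ) (g' s) s ∧ ‖g' s‖ ≤ 3 / s * (√(s / (2 * y)) * Real.exp (-(η * δ ^ 2))) := by
  set X : ℝ := π * (η * δ ^ 2) with hX
  have hX0 : 0 ≤ X := by positivity
  refine ⟨fun s => g1 η y δ s * (-(1 / 2) * ((((-(2 * η) / s ^ 3 : ℝ) : ℂ) + ((-(2 * y) / s ^ 2 : ℝ) : ℂ) * Complex.I) /
    a1 η y s) + ((X * (η / (2 * y * s ^ 2)) : ℝ) : ℂ) * Complex.I / (1 + ((-(η / (2 * y * s)) : ℝ) : ℂ) * Complex.I) ^ 2),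
    fun s hs h => ⟨?_, ?_⟩⟩
  · refine dAmp hs (fun t _ => g1_eq η y δ t) ?_ ?_ ?_
    · intro t ht
      unfold a1
      simp only [Complex.add_re, Complex.mul_re, Complex.ofReal_re, Complex.ofReal_im, Complex.I_re, Complex.I_im]
      have : 0 < η / t ^ 2 := by positivity
      linarith
    · have h1 : HasDerivAt (fun s : ℝ => η / s ^ 2) (-(2 * η) / s ^ 3) s := by
        have := (hasDerivAt_const s η).fun_div (hasDerivAt_pow 2 s) (by positivity)
        refine this.congr_deriv ?_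
        field_simp
        ring
      have h2 : HasDerivAt (fun s : ℝ => 2 * y / s) (-(2 * y) / s ^ 2) s := by
        have := (hasDerivAt_const s (2 * y)).fun_div (hasDerivAt_id' s) hs.ne'
        refine this.congr_deriv ?_
        ring
      exact h1.ofReal_comp.add (h2.ofReal_comp.mul_const Complex.I)
    · refine dE ?_
      have := ((hasDerivAt_const s η).fun_div ((hasDerivAt_id' s).const_mul (2 * y)) (by positivity)).neg
      refine this.congr_deriv ?_
      field_simp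
      ring
  · have ha := a1_norm (η := η) hy hs
    have ha0 : 0 < ‖a1 η y s‖ := lt_of_lt_of_le (by positivity) ha
    have h1 : ‖(((-(2 * η) / s ^ 3 : ℝ) : ℂ) + ((-(2 * y) / s ^ 2 : ℝ) : ℂ) * Complex.I)‖ ≤ 2 / s * ‖a1 η y s‖ := by
      have e1 : (((-(2 * η) / s ^ 3 : ℝ) : ℂ) + ((-(2 * y) / s ^ 2 : ℝ) : ℂ) * Complex.I) =
          -((1 / s : ℝ) : ℂ) * (a1 η y s + ((η / s ^ 2 : ℝ) : ℂ)) := by
        have hs' : (s : ℂ) ≠ 0 := Complex.ofReal_ne_zero.2 hs.ne'
        unfold a1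
        push_cast
        field_simp
        ring
      have e2 : ‖((η / s ^ 2 : ℝ) : ℂ)‖ ≤ ‖a1 η y s‖ := by
        have e3 : (a1 η y s).re = η / s ^ 2 := by
          unfold a1
          simp only [Complex.add_re, Complex.mul_re, Complex.ofReal_re, Complex.ofReal_im, Complex.I_re, Complex.I_im]
          ring
        rw [Complex.norm_real, Real.norm_eq_abs, ← e3]
        exact Complex.abs_re_le_norm _
      rw [e1, norm_mul, norm_neg, Complex.norm_real, Real.norm_of_nonneg (by positivity)]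
      calc 1 / s * ‖a1 η y s + ((η / s ^ 2 : ℝ) : ℂ)‖ ≤ 1 / s * (‖a1 η y s‖ + ‖a1 η y s‖) :=
            mul_le_mul_of_nonneg_left ((norm_add_le _ _).trans (add_le_add le_rfl e2)) (by positivity)
        _ = _ := by ring
    have h2 : ‖-(1 / 2 : ℂ) * ((((-(2 * η) / s ^ 3 : ℝ) : ℂ) + ((-(2 * y) / s ^ 2 : ℝ) : ℂ) * Complex.I) /
        a1 η y s)‖ ≤ 1 / s := by
      rw [norm_mul, norm_div, norm_neg, norm_div, norm_one, Complex.norm_two]
      rw [show (1 / s : ℝ) = 1 / 2 * (2 / s) by ring]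
      refine mul_le_mul_of_nonneg_left ?_ (by norm_num)
      rw [div_le_iff₀ ha0]
      exact h1
    have h3 : ‖((X * (η / (2 * y * s ^ 2)) : ℝ) : ℂ) * Complex.I / (1 + ((-(η / (2 * y * s)) : ℝ) : ℂ) * Complex.I) ^ 2‖ ≤
        X / 2 * (1 / s) := by
      rw [norm_dE hX0, neg_sq, abs_of_nonneg (by positivity)]
      have h4 : η / (2 * y * s ^ 2) = η / (2 * y * s) * (1 / s) := by
        field_simp
      rw [h4, ← mul_assoc, mul_div_right_comm]
      refine mul_le_mul_of_nonneg_right ?_ (by positivity)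
      rw [div_le_iff₀ (by positivity)]
      have h5 : 2 * (η / (2 * y * s)) ≤ 1 + (η / (2 * y * s)) ^ 2 := by nlinarith [sq_nonneg (η / (2 * y * s) - 1)]
      nlinarith
    have h5 := g1_norm' (δ := δ) hη hy hs h
    rw [norm_mul]
    calc ‖g1 η y δ s‖ * _ ≤ (√(s / (2 * y)) * Real.exp (-(X / 2))) * (1 / s + X / 2 * (1 / s)) :=
          mul_le_mul h5 ((norm_add_le _ _).trans (add_le_add h2 h3)) (norm_nonneg _) (by positivity)
      _ = 1 / s * √(s / (2 * y)) * ((1 + X / 2) * Real.exp (-(X / 2))) := by ring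
      _ ≤ 1 / s * √(s / (2 * y)) * (3 * Real.exp (-(η * δ ^ 2))) := by
          refine mul_le_mul_of_nonneg_left ?_ (by positivity)
          exact fin1 (by positivity)
      _ = _ := by ring

theorem g2_norm {η m δ y : ℝ} (hη : 0 < η) (hy : 0 < y) (hm : 0 < m) (h : η ≤ 2 * y * m) :
    ‖g2 η m δ y / ((√y : ℝ) : ℂ)‖ ≤ √(2 / m) * Real.exp (-(η * δ ^ 2)) := by
  refine (g2_norm' hη hy hm h).trans (mul_le_mul_of_nonneg_left ?_ (Real.sqrt_nonneg _))
  exact fin0 (by positivity)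

theorem g2_deriv {η m δ : ℝ} (hη : 0 < η) (hm : 0 < m) : ∃ h' : ℝ → ℂ, ContinuousOn h' (Set.Ioi 0) ∧
    ∀ y : ℝ, 0 < y → HasDerivAt (fun y : ℝ => g2 η m δ y / ((√y : ℝ) : ℂ)) (h' y) y ∧
      (η ≤ 2 * y * m → ‖h' y‖ ≤ 3 * (η / (m * y ^ 2)) * (√(2 / m) * Real.exp (-(η * δ ^ 2)))) := by
  set X : ℝ := π * (η * δ ^ 2) with hX
  have hX0 : 0 ≤ X := by positivity
  have hre : ∀ t : ℝ, 0 < t → 0 < (a2 η m t).re := by
    intro t ht
    unfold a2
    simp only [Complex.sub_re, Complex.mul_re, Complex.ofReal_re, Complex.ofReal_im, Complex.I_re, Complex.I_im]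
    have : 0 < η / (4 * t ^ 2) := by positivity
    linarith
  have hne : ∀ t : ℝ, 0 < t → a2 η m t ≠ 0 := fun t ht h0 => by
    have := hre t ht
    rw [h0] at this
    simp at this
  set F : ℝ → ℂ := fun y => ((η / (8 * y ^ 3) : ℝ) : ℂ) / a2 η m y +
    ((X * (-(η / (2 * m * y ^ 2))) : ℝ) : ℂ) * Complex.I / (1 + ((η / (2 * y * m) : ℝ) : ℂ) * Complex.I) ^ 2 with hF
  have hder : ∀ y : ℝ, 0 < y → HasDerivAt (fun y : ℝ => g2 η m δ y / ((√y : ℝ) : ℂ)) (g2 η m δ y / ((√y : ℝ) : ℂ) * F y) y := by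
    intro y hy
    have hsy : 0 < √y := Real.sqrt_pos.2 hy
    have h1 : HasDerivAt (g2 η m δ) (g2 η m δ y * (-(1 / 2) * ((((-(η / (2 * y ^ 3)) : ℝ) : ℂ) -
        ((-(m / (2 * y ^ 2)) : ℝ) : ℂ) * Complex.I) / a2 η m y) + ((X * (-(η / (2 * m * y ^ 2))) : ℝ) : ℂ) * Complex.I /
        (1 + ((η / (2 * y * m) : ℝ) : ℂ) * Complex.I) ^ 2)) y := by
      refine dAmp hy (fun t _ => g2_eq η m δ t) hre ?_ ?_
      · have h1 : HasDerivAt (fun y : ℝ => η / (4 * y ^ 2)) (-(η / (2 * y ^ 3))) y := by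
          have := (hasDerivAt_const y η).fun_div ((hasDerivAt_pow 2 y).const_mul 4) (by positivity)
          refine this.congr_deriv ?_
          field_simp
          ring
        have h2 : HasDerivAt (fun y : ℝ => m / (2 * y)) (-(m / (2 * y ^ 2))) y := by
          have := (hasDerivAt_const y m).fun_div ((hasDerivAt_id' y).const_mul 2) (by positivity)
          refine this.congr_deriv ?_
          field_simp
          ring
        exact h1.ofReal_comp.sub (h2.ofReal_comp.mul_const Complex.I)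
      · refine dE ?_
        have := (hasDerivAt_const y η).fun_div (((hasDerivAt_id' y).const_mul 2).mul_const m) (by positivity)
        refine this.congr_deriv ?_
        field_simp
        ring
    have h2 : HasDerivAt (fun y : ℝ => ((√y : ℝ) : ℂ)) (((1 / (2 * √y)) : ℝ) : ℂ) y :=
      (Real.hasDerivAt_sqrt hy.ne').ofReal_comp
    have h3 := h1.fun_div h2 (Complex.ofReal_ne_zero.2 hsy.ne')
    refine h3.congr_deriv ?_
    have e1 : ((√y : ℝ) : ℂ) ≠ 0 := Complex.ofReal_ne_zero.2 hsy.ne'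
    have e2 : a2 η m y ≠ 0 := hne y hy
    have e3 : ((√y : ℝ) : ℂ) ^ 2 = (y : ℂ) := by
      rw [← Complex.ofReal_pow, Real.sq_sqrt hy.le]
    have e4 : (y : ℂ) ≠ 0 := Complex.ofReal_ne_zero.2 hy.ne'
    have e5 : -(1 / 2) * ((((-(η / (2 * y ^ 3)) : ℝ) : ℂ) - ((-(m / (2 * y ^ 2)) : ℝ) : ℂ) * Complex.I) / a2 η m y) =
        ((η / (8 * y ^ 3) : ℝ) : ℂ) / a2 η m y + 1 / (2 * (y : ℂ)) := by
      have hN : -(1 / 2) * ((((-(η / (2 * y ^ 3)) : ℝ) : ℂ) - ((-(m / (2 * y ^ 2)) : ℝ) : ℂ) * Complex.I)) =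
          ((η / (8 * y ^ 3) : ℝ) : ℂ) + a2 η m y / (2 * (y : ℂ)) := by
        unfold a2
        push_cast
        field_simp
        ring
      rw [← mul_div_assoc, hN, add_div]
      congr 1
      field_simp
    have e6 : (((1 / (2 * √y)) : ℝ) : ℂ) = 1 / (2 * ((√y : ℝ) : ℂ)) := by
      push_cast
      ring
    rw [e5, e6, ← e3]
    show _ = g2 η m δ y / ((√y : ℝ) : ℂ) * (((η / (8 * y ^ 3) : ℝ) : ℂ) / a2 η m y +
      ((X * (-(η / (2 * m * y ^ 2))) : ℝ) : ℂ) * Complex.I / (1 + ((η / (2 * y * m) : ℝ) : ℂ) * Complex.I) ^ 2)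
    generalize ((η / (8 * y ^ 3) : ℝ) : ℂ) / a2 η m y = u
    generalize ((X * (-(η / (2 * m * y ^ 2))) : ℝ) : ℂ) * Complex.I / (1 + ((η / (2 * y * m) : ℝ) : ℂ) * Complex.I) ^ 2 = v
    generalize g2 η m δ y = g
    field_simp
    ring
  refine ⟨fun y => g2 η m δ y / ((√y : ℝ) : ℂ) * F y, ?_, fun y hy => ⟨hder y hy, fun h => ?_⟩⟩
  · intro y hy
    have hy' : 0 < y := hy
    refine ((hder y hy').continuousAt.mul ?_).continuousWithinAt
    have c1 : ContinuousAt (fun y : ℝ => η / (8 * y ^ 3)) y := by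
      apply ContinuousAt.div continuousAt_const (by fun_prop) (by positivity)
    have c2 : ContinuousAt (a2 η m) y := by
      unfold a2
      have d1 : ContinuousAt (fun y : ℝ => η / (4 * y ^ 2)) y := by
        apply ContinuousAt.div continuousAt_const (by fun_prop) (by positivity)
      have d2 : ContinuousAt (fun y : ℝ => m / (2 * y)) y := by
        apply ContinuousAt.div continuousAt_const (by fun_prop) (by positivity)
      exact (Complex.continuous_ofReal.continuousAt.comp d1).sub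
        ((Complex.continuous_ofReal.continuousAt.comp d2).mul continuousAt_const)
    have c3 : ContinuousAt (fun y : ℝ => X * (-(η / (2 * m * y ^ 2)))) y := by
      apply ContinuousAt.mul continuousAt_const
      apply ContinuousAt.neg
      apply ContinuousAt.div continuousAt_const (by fun_prop) (by positivity)
    have c4 : ContinuousAt (fun y : ℝ => η / (2 * y * m)) y := by
      apply ContinuousAt.div continuousAt_const (by fun_prop) (by positivity)
    refine ((Complex.continuous_ofReal.continuousAt.comp c1).div c2 (hne y hy')).add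
      (((Complex.continuous_ofReal.continuousAt.comp c3).mul continuousAt_const).div
        ((continuousAt_const.add ((Complex.continuous_ofReal.continuousAt.comp c4).mul continuousAt_const)).pow 2) ?_)
    exact pow_ne_zero 2 (one_add_ne _)
  · have ha := a2_norm (η := η) hm hy
    have ha0 : 0 < ‖a2 η m y‖ := lt_of_lt_of_le (by positivity) ha
    have h2 : ‖((η / (8 * y ^ 3) : ℝ) : ℂ) / a2 η m y‖ ≤ η / (m * y ^ 2) := by
      rw [norm_div, Complex.norm_real, Real.norm_of_nonneg (by positivity), div_le_iff₀ ha0]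
      calc η / (8 * y ^ 3) ≤ η / (m * y ^ 2) * (m / (2 * y)) := by
            rw [show η / (m * y ^ 2) * (m / (2 * y)) = η / (2 * y ^ 3) by field_simp]
            exact div_le_div_of_nonneg_left hη.le (by positivity) (by nlinarith [pow_pos hy 3])
        _ ≤ _ := mul_le_mul_of_nonneg_left ha (by positivity)
    have h3 : ‖((X * (-(η / (2 * m * y ^ 2))) : ℝ) : ℂ) * Complex.I / (1 + ((η / (2 * y * m) : ℝ) : ℂ) * Complex.I) ^ 2‖ ≤
        X / 2 * (η / (m * y ^ 2)) := by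
      rw [norm_dE hX0, abs_neg, abs_of_nonneg (by positivity)]
      rw [show X * (η / (2 * m * y ^ 2)) = X / 2 * (η / (m * y ^ 2)) by field_simp]
      exact div_le_self (by positivity) (by nlinarith [sq_nonneg (η / (2 * y * m))])
    have h5 := g2_norm' (δ := δ) hη hy hm h
    rw [norm_mul]
    calc ‖g2 η m δ y / ((√y : ℝ) : ℂ)‖ * ‖F y‖
        ≤ (√(2 / m) * Real.exp (-(X / 2))) * (η / (m * y ^ 2) + X / 2 * (η / (m * y ^ 2))) :=
          mul_le_mul h5 ((norm_add_le _ _).trans (add_le_add h2 h3)) (norm_nonneg _) (by positivity)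
      _ = (η / (m * y ^ 2)) * √(2 / m) * ((1 + X / 2) * Real.exp (-(X / 2))) := by ring
      _ ≤ (η / (m * y ^ 2)) * √(2 / m) * (3 * Real.exp (-(η * δ ^ 2))) := by
          refine mul_le_mul_of_nonneg_left ?_ (by positivity)
          exact fin1 (by positivity)
      _ = _ := by ring

end Pool.Agent.H93.RS
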