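import Mathlib
import Pool.Agent.H93.RS.Defs

/-!
# [H93 RS TH]  the theta identity
-/

set_option autoImplicit false

namespace Pool.Agent.H93.RS

open Complex Real

theorem theta_alg (η c μ : ℝ) (l : ℤ) (hcC : (c : ℂ) ≠ 0) (hd0' : (1 + (η : ℂ) / (2 * c) * I) ≠ 0) :
    -(π * η * μ ^ 2) + -π / ((η : ℂ) - 2 * c * I) * (l + I * (η * μ)) ^ 2 =
      -(π * (η / (4 * c ^ 2)) * ((l : ℂ) - 2 * c * μ) ^ 2) / (1 + (η / (2 * c)) * I) + 2 * π * (-(l : ℂ) ^ 2 / (4 * c)) * I := by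
  have hd2 : (2 * (c : ℂ) + η * I) ≠ 0 := by
    intro h
    apply hd0'
    field_simp
    linear_combination h
  have e1 : ((η : ℂ) - 2 * c * I) = -I * (2 * c + η * I) := by
    ring_nf
    rw [I_sq]
    ring
  have e2 : (1 + (η : ℂ) / (2 * c) * I) = (2 * c + η * I) / (2 * c) := by
    field_simp
  have hI : I ≠ (0 : ℂ) := I_ne_zero
  rw [e1, e2]
  rw [← sub_eq_zero]
  field_simp
  ring_nf
  simp only [I_sq, show I ^ 3 = -I by rw [pow_succ, I_sq]; ring]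
  ring

/-- `∑ exp(-πη(n-μ)²) e(c n²) = a^{-1/2} ∑ exp(-π(η/4c²)(l-2cμ)²/(1+iη/2c)) e(-l²/(4c))`, `a = η - 2ic`. -/
theorem theta_gen (η c μ : ℝ) (hη : 0 < η) (hc : c ≠ 0) :
    (∑' n : ℤ, cexp (-(π * η * ((n : ℝ) - μ) ^ 2 : ℝ)) * cexp ((2 * π * (c * (n : ℝ) ^ 2) : ℝ) * I)) =
      1 / ((η : ℂ) - 2 * c * I) ^ (1 / 2 : ℂ) *
        ∑' l : ℤ, cexp (-(π * (η / (4 * c ^ 2)) * ((l : ℝ) - 2 * c * μ) ^ 2 : ℝ) / (1 + (η / (2 * c) : ℝ) * I)) *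
          cexp ((2 * π * (-(l : ℝ) ^ 2 / (4 * c)) : ℝ) * I) := by
  have ha : 0 < ((η : ℂ) - 2 * c * I).re := by simp [hη]
  have hcC : (c : ℂ) ≠ 0 := by exact_mod_cast hc
  have hd0 : (1 + (η / (2 * c) : ℝ) * I : ℂ) ≠ 0 := by
    intro h
    have := congrArg Complex.re h
    rw [Complex.add_re, Complex.one_re, Complex.re_ofReal_mul, Complex.I_re, mul_zero, add_zero] at this
    simp at this
  have key := Complex.tsum_exp_neg_quadratic ha ((η * μ : ℝ) : ℂ)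
  have h1 : ∀ n : ℤ, cexp (-(π * η * ((n : ℝ) - μ) ^ 2 : ℝ)) * cexp ((2 * π * (c * (n : ℝ) ^ 2) : ℝ) * I) =
      cexp (-(π * η * μ ^ 2 : ℝ)) * cexp (-π * ((η : ℂ) - 2 * c * I) * n ^ 2 + 2 * π * ((η * μ : ℝ) : ℂ) * n) := by
    intro n
    rw [← Complex.exp_add, ← Complex.exp_add]
    congr 1
    push_cast
    ring
  rw [tsum_congr h1, tsum_mul_left, key]
  have h2 : ∀ l : ℤ, cexp (-(π * η * μ ^ 2 : ℝ)) * cexp (-π / ((η : ℂ) - 2 * c * I) * (l + I * ((η * μ : ℝ) : ℂ)) ^ 2) =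
      cexp (-(π * (η / (4 * c ^ 2)) * ((l : ℝ) - 2 * c * μ) ^ 2 : ℝ) / (1 + (η / (2 * c) : ℝ) * I)) *
          cexp ((2 * π * (-(l : ℝ) ^ 2 / (4 * c)) : ℝ) * I) := by
    intro l
    rw [← Complex.exp_add, ← Complex.exp_add]
    congr 1
    push_cast
    have hd0' : (1 + (η : ℂ) / (2 * c) * I) ≠ 0 := by
      have := hd0
      push_cast at this
      exact this
    exact theta_alg η c μ l hcC hd0'
  rw [← mul_assoc, mul_comm (cexp _) (1 / _), mul_assoc, ← tsum_mul_left, tsum_congr h2]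

theorem th1 {η y s κ : ℝ} (hη : 0 < η) (hy : 0 < y) (hs : 0 < s) :
    ∑' t : ℤ, ((Real.exp (-(π * η * ((t : ℝ) / s - κ) ^ 2)) : ℝ) : ℂ) * ee (-(y * (t : ℝ) ^ 2 / s)) =
      ∑' j : ℤ, g1 η y ((j : ℝ) / (2 * y) - κ) s * ee (s * (j : ℝ) ^ 2 / (4 * y)) := by
  have hs0 : s ≠ 0 := hs.ne'
  have hy0 : y ≠ 0 := hy.ne'
  have key := theta_gen (η / s ^ 2) (-y / s) (κ * s) (by positivity) (div_ne_zero (neg_ne_zero.2 hy0) hs0)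
  have h1 : ∀ t : ℤ, ((Real.exp (-(π * η * ((t : ℝ) / s - κ) ^ 2)) : ℝ) : ℂ) * ee (-(y * (t : ℝ) ^ 2 / s)) =
      cexp (-(π * (η / s ^ 2) * ((t : ℝ) - κ * s) ^ 2 : ℝ)) * cexp ((2 * π * (-y / s * (t : ℝ) ^ 2) : ℝ) * I) := by
    intro t
    unfold ee
    rw [Complex.ofReal_exp]
    have e1 : -(π * η * ((t : ℝ) / s - κ) ^ 2) = -(π * (η / s ^ 2) * ((t : ℝ) - κ * s) ^ 2) := by
      field_simp
    have e2 : 2 * π * -(y * (t : ℝ) ^ 2 / s) = 2 * π * (-y / s * (t : ℝ) ^ 2) := by ring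
    rw [e1, e2]
    push_cast
    rfl
  rw [tsum_congr h1, key, ← tsum_mul_left]
  rw [← (Equiv.neg ℤ).tsum_eq (fun l : ℤ => 1 / (((η / s ^ 2 : ℝ) : ℂ) - 2 * ((-y / s : ℝ) : ℂ) * I) ^ (1 / 2 : ℂ) *
        (cexp (-(π * (η / s ^ 2 / (4 * (-y / s) ^ 2)) * ((l : ℝ) - 2 * (-y / s) * (κ * s)) ^ 2 : ℝ) /
          (1 + (η / s ^ 2 / (2 * (-y / s)) : ℝ) * I)) *
          cexp ((2 * π * (-(l : ℝ) ^ 2 / (4 * (-y / s))) : ℝ) * I)))]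
  refine tsum_congr fun j => ?_
  unfold g1 ee
  have e1 : (((η / s ^ 2 : ℝ) : ℂ) - 2 * ((-y / s : ℝ) : ℂ) * I) = (((η / s ^ 2 : ℝ) : ℂ) + ((2 * y / s : ℝ) : ℂ) * Complex.I) := by
    push_cast
    ring
  have e2 : (π * (η / s ^ 2 / (4 * (-y / s) ^ 2)) * ((((Equiv.neg ℤ) j : ℤ) : ℝ) - 2 * (-y / s) * (κ * s)) ^ 2 : ℝ) =
      (π * η * ((j : ℝ) / (2 * y) - κ) ^ 2) := by
    rw [Equiv.neg_apply]
    push_cast
    field_simp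
    ring
  have e3 : (η / s ^ 2 / (2 * (-y / s)) : ℝ) = -(η / (2 * y * s)) := by
    field_simp
  have e4 : (2 * π * (-((((Equiv.neg ℤ) j : ℤ) : ℝ)) ^ 2 / (4 * (-y / s))) : ℝ) = 2 * π * (s * (j : ℝ) ^ 2 / (4 * y)) := by
    rw [Equiv.neg_apply]
    push_cast
    field_simp
  rw [e1, e2, e3, e4]
  push_cast
  ring_nf

theorem th2 {η y m κ : ℝ} (hη : 0 < η) (hy : 0 < y) (hm : 0 < m) :
    ∑' j : ℤ, ((Real.exp (-(π * η * ((j : ℝ) / (2 * y) - κ) ^ 2)) : ℝ) : ℂ) * ee (m * (j : ℝ) ^ 2 / (4 * y)) =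
      ∑' l : ℤ, g2 η m ((l : ℝ) / m - κ) y * ee (-(y * (l : ℝ) ^ 2 / m)) := by
  have hm0 : m ≠ 0 := hm.ne'
  have hy0 : y ≠ 0 := hy.ne'
  have key := theta_gen (η / (4 * y ^ 2)) (m / (4 * y)) (2 * y * κ) (by positivity) (by positivity)
  have h1 : ∀ t : ℤ, ((Real.exp (-(π * η * ((t : ℝ) / (2 * y) - κ) ^ 2)) : ℝ) : ℂ) * ee (m * (t : ℝ) ^ 2 / (4 * y)) =
      cexp (-(π * (η / (4 * y ^ 2)) * ((t : ℝ) - 2 * y * κ) ^ 2 : ℝ)) * cexp ((2 * π * (m / (4 * y) * (t : ℝ) ^ 2) : ℝ) * I) := by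
    intro t
    unfold ee
    rw [Complex.ofReal_exp]
    have e1 : -(π * η * ((t : ℝ) / (2 * y) - κ) ^ 2) = -(π * (η / (4 * y ^ 2)) * ((t : ℝ) - 2 * y * κ) ^ 2) := by
      field_simp
      ring
    have e2 : 2 * π * (m * (t : ℝ) ^ 2 / (4 * y)) = 2 * π * (m / (4 * y) * (t : ℝ) ^ 2) := by ring
    rw [e1, e2]
    push_cast
    rfl
  rw [tsum_congr h1, key, ← tsum_mul_left]
  refine tsum_congr fun l => ?_
  unfold g2 ee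
  have e1 : (((η / (4 * y ^ 2) : ℝ) : ℂ) - 2 * ((m / (4 * y) : ℝ) : ℂ) * I) =
      (((η / (4 * y ^ 2) : ℝ) : ℂ) - ((m / (2 * y) : ℝ) : ℂ) * Complex.I) := by
    push_cast
    ring
  have e2 : (π * (η / (4 * y ^ 2) / (4 * (m / (4 * y)) ^ 2)) * ((l : ℝ) - 2 * (m / (4 * y)) * (2 * y * κ)) ^ 2 : ℝ) =
      (π * η * ((l : ℝ) / m - κ) ^ 2) := by
    field_simp
    ring
  have e3 : (η / (4 * y ^ 2) / (2 * (m / (4 * y))) : ℝ) = (η / (2 * y * m)) := by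
    field_simp
    try ring
  have e4 : (2 * π * (-(l : ℝ) ^ 2 / (4 * (m / (4 * y)))) : ℝ) = 2 * π * -(y * (l : ℝ) ^ 2 / m) := by
    field_simp
  rw [e1, e2, e3, e4]
  push_cast
  ring_nf

end Pool.Agent.H93.RS
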