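import Mathlib
import Pool.Agent.H93.RS.Defs
import Pool.Agent.H93.RS.Th
import Pool.Agent.H93.RS.Amp
import Pool.Agent.H93.RS.Abel
import Pool.Agent.H93.RS.Gs

/-!
# [H93 RS T1P]  pointwise bound of S
-/

set_option autoImplicit false

namespace Pool.Agent.H93.RS

open Finset Real MeasureTheory

/-- the theta identity for the inner sum, with the phase of `s` -/
theorem inner_eq {η y κ : ℝ} (hη : 0 < η) (hy : 0 < y) {s : ℕ} (hs : 0 < s) :
    ∑' t : ℤ, ((Real.exp (-(π * η * ((t : ℝ) / s - κ) ^ 2)) : ℝ) : ℂ) * ee (y * xx s t) =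
      ∑' j : ℤ, g1 η y ((j : ℝ) / (2 * y) - κ) s * ee (s * ph j y) := by
  have hs' : (0 : ℝ) < s := by exact_mod_cast hs
  have key := th1 (κ := κ) hη hy hs'
  have h1 : ∀ t : ℤ, ((Real.exp (-(π * η * ((t : ℝ) / s - κ) ^ 2)) : ℝ) : ℂ) * ee (y * xx s t) =
      ee (y * s) * (((Real.exp (-(π * η * ((t : ℝ) / s - κ) ^ 2)) : ℝ) : ℂ) * ee (-(y * (t : ℝ) ^ 2 / s))) := by
    intro t
    have : y * xx s t = y * s + -(y * (t : ℝ) ^ 2 / s) := by
      unfold xx
      ring
    rw [this, ee_add]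
    ring
  rw [tsum_congr h1, tsum_mul_left, key, ← tsum_mul_left]
  refine tsum_congr fun j => ?_
  have : (s : ℝ) * ph j y = y * s + s * (j : ℝ) ^ 2 / (4 * y) := by
    unfold ph
    ring
  rw [this, ee_add]
  ring

theorem sqrt_le_aux {R s y : ℝ} (hy : 0 < y) (hs : s ≤ 2 * R) : √(s / (2 * y)) ≤ √(R / y) := by
  apply Real.sqrt_le_sqrt
  rw [div_le_div_iff₀ (by positivity) hy]
  nlinarith

theorem t1p {θ θ' : ℝ} (hθ : 0 < θ) (h : θ < θ') (h1 : θ' < 1) : ∃ C c : ℝ, 0 < C ∧ 0 < c ∧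
    ∀ R : ℕ, 1 ≤ R → ∀ η κ y : ℝ, 1 ≤ η → |κ| ≤ θ → 0 < y → η ≤ 2 * R * y →
      ‖SS R η κ y‖ ≤ C * √(R / y) * (qq θ' R y + R * (1 + y) * Real.exp (-(c * η))) := by
  refine ⟨240, (θ' - θ) ^ 2 / 2, by norm_num, by have := sub_pos.2 h; positivity, ?_⟩
  intro R hR η κ y hη hκ hy hηy
  have hη0 : 0 < η := by linarith
  have hR1 : (1 : ℝ) ≤ R := by exact_mod_cast hR
  have hR0 : (0 : ℝ) < R := by linarith
  set δ : ℤ → ℝ := fun j => (j : ℝ) / (2 * y) - κ with hδ
  set G : ℤ → ℝ := fun j => Real.exp (-(η * (δ j) ^ 2)) with hG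
  have h2y : (0 : ℝ) < 2 * y := by positivity
  have hGs : Summable G := gs_summable h2y hη0
  have hG2s : Summable (fun j : ℤ => Real.exp (-(η / 2 * (δ j) ^ 2))) := gs_summable h2y (by positivity)
  -- size condition
  have hsz : ∀ s : ℝ, (R : ℝ) ≤ s → η ≤ 2 * y * s := by
    intro s hs
    nlinarith
  -- summability of the g1 sums
  have hsum : ∀ s ∈ Finset.Ico R (2 * R), Summable (fun j : ℤ => g1 η y (δ j) s * ee (s * ph j y)) := by
    intro s hs
    rw [Finset.mem_Ico] at hs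
    have hsR : (R : ℝ) ≤ s := by exact_mod_cast hs.1
    apply Summable.of_norm_bounded (hGs.mul_left (√((s : ℝ) / (2 * y))))
    intro j
    rw [norm_mul, norm_ee, mul_one]
    exact g1_norm hη0 hy (by linarith) (hsz _ hsR)
  have hSS : SS R η κ y = ∑' j : ℤ, ∑ s ∈ Finset.Ico R (2 * R), g1 η y (δ j) s * ee (s * ph j y) := by
    rw [Summable.tsum_finsetSum hsum]
    unfold SS
    refine Finset.sum_congr rfl fun s hs => ?_
    rw [Finset.mem_Ico] at hs
    exact inner_eq hη0 hy (by omega)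
  -- Abel for each j
  have habel : ∀ j : ℤ, ‖∑ s ∈ Finset.Ico R (2 * R), g1 η y (δ j) s * ee (s * ph j y)‖ ≤
      12 * √(R / y) * (G j * ff R (ph j y)) := by
    intro j
    obtain ⟨g', hg'⟩ := g1_deriv (δ := δ j) hη0 hy
    have := abel hR (g1 η y (δ j)) g' (B := 3 * √(R / y) * G j) (fun s hs => (hg' s (by linarith [hs.1]) (hsz s hs.1)).1)
      (fun s hs => ?_) (fun s hs => ?_) (ph j y)
    · calc _ ≤ 4 * (3 * √(R / y) * G j) * ff R (ph j y) := this
        _ = 12 * √(R / y) * (G j * ff R (ph j y)) := by ring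
    · have e1 := g1_norm (δ := δ j) hη0 hy (by linarith [hs.1] : 0 < s) (hsz s hs.1)
      have e2 : √(s / (2 * y)) ≤ √(R / y) := sqrt_le_aux hy hs.2
      have e3 : 0 ≤ √(R / y) * G j := by positivity
      calc ‖g1 η y (δ j) s‖ ≤ √(s / (2 * y)) * G j := e1
        _ ≤ √(R / y) * G j := mul_le_mul_of_nonneg_right e2 (Real.exp_pos _).le
        _ ≤ 3 * √(R / y) * G j := by linarith
    · have hs0 : 0 < s := by linarith [hs.1]
      have e1 := (hg' s hs0 (hsz s hs.1)).2
      have e2 : √(s / (2 * y)) ≤ √(R / y) := sqrt_le_aux hy hs.2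
      calc ‖g' s‖ ≤ 3 / s * (√(s / (2 * y)) * G j) := e1
        _ ≤ 3 / R * (√(R / y) * G j) := by
            apply mul_le_mul
            · exact div_le_div_of_nonneg_left (by norm_num) hR0 hs.1
            · exact mul_le_mul_of_nonneg_right e2 (Real.exp_pos _).le
            · positivity
            · positivity
        _ = 3 * √(R / y) * G j / R := by ring
  -- split
  set E : ℝ := Real.exp (-((θ' - θ) ^ 2 / 2 * η)) with hE
  have hsplit : ∀ j : ℤ, G j * ff R (ph j y) ≤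
      (if j ∈ Jn (2 * θ' * y) then ff R (ph j y) else 0) + R * E * Real.exp (-(η / 2 * (δ j) ^ 2)) := by
    intro j
    have hf0 := ff_nonneg hR0.le (ph j y)
    have hf1 := ff_le hR0.le (ph j y)
    by_cases hj : j ∈ Jn (2 * θ' * y)
    · rw [if_pos hj]
      have hG1 : G j ≤ 1 := by
        rw [hG]
        apply Real.exp_le_one_iff.2
        have : 0 ≤ η * (δ j) ^ 2 := by positivity
        linarith
      have e1 : G j * ff R (ph j y) ≤ 1 * ff R (ph j y) := mul_le_mul_of_nonneg_right hG1 hf0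
      have e2 : 0 ≤ R * E * Real.exp (-(η / 2 * (δ j) ^ 2)) := by positivity
      linarith
    · rw [if_neg hj, zero_add]
      rw [mem_Jn, not_le] at hj
      have hj' : θ' < |(j : ℝ) / (2 * y)| := by
        rw [abs_div, abs_of_pos h2y, lt_div_iff₀ h2y]
        linarith
      have hδj : θ' - θ ≤ |δ j| := by
        have := abs_sub_abs_le_abs_sub ((j : ℝ) / (2 * y)) κ
        rw [hδ]
        simp only
        linarith
      have hδ2 : (θ' - θ) ^ 2 ≤ (δ j) ^ 2 := by
        rw [← sq_abs (δ j)]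
        exact pow_le_pow_left₀ (sub_pos.2 h).le hδj 2
      have hG1 : G j ≤ E * Real.exp (-(η / 2 * (δ j) ^ 2)) := by
        rw [hG, hE, ← Real.exp_add]
        apply Real.exp_le_exp.2
        nlinarith
      calc G j * ff R (ph j y) ≤ (E * Real.exp (-(η / 2 * (δ j) ^ 2))) * R :=
            mul_le_mul hG1 hf1 hf0 (by positivity)
        _ = R * E * Real.exp (-(η / 2 * (δ j) ^ 2)) := by ring
  have hind : Summable (fun j : ℤ => if j ∈ Jn (2 * θ' * y) then ff R (ph j y) else 0) :=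
    summable_of_ne_finset_zero (s := Jn (2 * θ' * y)) (fun j hj => if_neg hj)
  have hrhs : Summable (fun j : ℤ => (if j ∈ Jn (2 * θ' * y) then ff R (ph j y) else 0) +
      R * E * Real.exp (-(η / 2 * (δ j) ^ 2))) := hind.add (hG2s.mul_left _)
  have hlhs : Summable (fun j : ℤ => G j * ff R (ph j y)) :=
    Summable.of_nonneg_of_le (fun j => mul_nonneg (Real.exp_pos _).le (ff_nonneg hR0.le _)) hsplit hrhs
  have hbound : ∑' j : ℤ, G j * ff R (ph j y) ≤ qq θ' R y + R * E * (20 * (1 + y)) := by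
    calc ∑' j : ℤ, G j * ff R (ph j y) ≤ ∑' j : ℤ, ((if j ∈ Jn (2 * θ' * y) then ff R (ph j y) else 0) +
          R * E * Real.exp (-(η / 2 * (δ j) ^ 2))) := hlhs.tsum_le_tsum hsplit hrhs
      _ = (∑' j : ℤ, (if j ∈ Jn (2 * θ' * y) then ff R (ph j y) else 0)) +
          R * E * ∑' j : ℤ, Real.exp (-(η / 2 * (δ j) ^ 2)) := by
            rw [hind.tsum_add (hG2s.mul_left _), tsum_mul_left]
      _ = qq θ' R y + R * E * ∑' j : ℤ, Real.exp (-(η / 2 * (δ j) ^ 2)) := by
            congr 1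
            rw [tsum_eq_sum (s := Jn (2 * θ' * y)) (fun j hj => if_neg hj)]
            unfold qq
            exact Finset.sum_congr rfl fun j hj => if_pos hj
      _ ≤ qq θ' R y + R * E * (20 * (1 + y)) := by
            have := gs_le (a := 2 * y) (c := η / 2) (κ := κ) h2y (by linarith)
            have h3 : ∑' j : ℤ, Real.exp (-(η / 2 * (δ j) ^ 2)) ≤ 20 * (1 + y) := by
              refine le_trans this ?_
              linarith
            have h4 : 0 ≤ R * E := by positivity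
            have := mul_le_mul_of_nonneg_left h3 h4
            linarith
  rw [hSS]
  have hn : Summable (fun j : ℤ => ‖∑ s ∈ Finset.Ico R (2 * R), g1 η y (δ j) s * ee (s * ph j y)‖) :=
    Summable.of_nonneg_of_le (fun j => norm_nonneg _) habel (hlhs.mul_left _)
  have hq := qq_nonneg (θ := θ') hR0.le y
  have hsq : 0 ≤ √(R / y) := Real.sqrt_nonneg _
  calc ‖∑' j : ℤ, ∑ s ∈ Finset.Ico R (2 * R), g1 η y (δ j) s * ee (s * ph j y)‖
      ≤ ∑' j : ℤ, ‖∑ s ∈ Finset.Ico R (2 * R), g1 η y (δ j) s * ee (s * ph j y)‖ := norm_tsum_le_tsum_norm hn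
    _ ≤ ∑' j : ℤ, 12 * √(R / y) * (G j * ff R (ph j y)) := hn.tsum_le_tsum habel (hlhs.mul_left _)
    _ = 12 * √(R / y) * ∑' j : ℤ, G j * ff R (ph j y) := tsum_mul_left
    _ ≤ 12 * √(R / y) * (qq θ' R y + R * E * (20 * (1 + y))) := mul_le_mul_of_nonneg_left hbound (by positivity)
    _ ≤ 240 * √(R / y) * (qq θ' R y + R * (1 + y) * E) := by
        have : 0 ≤ √(R / y) * qq θ' R y := mul_nonneg hsq hq
        nlinarith

end Pool.Agent.H93.RS
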