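import Mathlib
import Pool.Agent.H93.RS.Defs
import Pool.Agent.H93.RS.T1a
import Pool.Agent.H93.RS.T1p
import Pool.Agent.H93.RS.Cov
import Pool.Agent.H93.RS.Msr
import Pool.Agent.H93.RS.Ex

/-!
# [H93 RS T1]  A in terms of Q
-/

set_option autoImplicit false

namespace Pool.Agent.H93.RS

open Finset Real MeasureTheory

/-- small `y`: only `j = 0` -/
theorem qq_small {θ' R y : ℝ} (h1 : θ' < 1) (h0 : 0 ≤ θ') (hR : 0 < R) (hy : 0 < y) (hy4 : y ≤ 1 / 4) : qq θ' R y ≤ 1 / y := by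
  have hJ : Jn (2 * θ' * y) = {0} := by
    ext j
    rw [mem_Jn, Finset.mem_singleton]
    constructor
    · intro hj
      have h2 : |(j : ℝ)| < 1 := by
        have : θ' * y ≤ 1 * y := mul_le_mul_of_nonneg_right h1.le hy.le
        linarith
      have h3 : |j| < 1 := by exact_mod_cast h2
      exact Int.abs_lt_one_iff.1 h3
    · rintro rfl
      simp
      positivity
  unfold qq
  rw [hJ, Finset.sum_singleton]
  have hph : ph 0 y = y := by
    unfold ph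
    simp
  rw [hph]
  have hr : round y = 0 := by
    rw [round_eq, Int.floor_eq_zero_iff]
    constructor <;> linarith
  have hdz : dz y = y := by
    unfold dz
    rw [hr]
    simp [abs_of_pos hy]
  unfold ff
  rw [hdz, div_le_div_iff₀ (by positivity) hy]
  nlinarith

/-- trivial range -/
theorem sum_sq_le {K : Finset ℝ} {f : ℝ → ℝ} {η M : ℝ} (hη : 1 ≤ η) (hK : (K.card : ℝ) ≤ 5 * √η) (hf0 : ∀ κ ∈ K, 0 ≤ f κ)
    (hf : ∀ κ ∈ K, f κ ≤ M) (hM : 0 ≤ M) :
    (∑ κ ∈ K, f κ) ^ 2 ≤ 25 * η * M ^ 2 := by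
  have h1 : ∑ κ ∈ K, f κ ≤ 5 * √η * M := by
    calc ∑ κ ∈ K, f κ ≤ ∑ _κ ∈ K, M := Finset.sum_le_sum hf
      _ = K.card * M := by rw [Finset.sum_const, nsmul_eq_mul]
      _ ≤ 5 * √η * M := mul_le_mul_of_nonneg_right hK hM
  have h0 : 0 ≤ ∑ κ ∈ K, f κ := Finset.sum_nonneg hf0
  calc (∑ κ ∈ K, f κ) ^ 2 ≤ (5 * √η * M) ^ 2 := pow_le_pow_left₀ h0 h1 2
    _ = 25 * (√η) ^ 2 * M ^ 2 := by ring
    _ = 25 * η * M ^ 2 := by rw [Real.sq_sqrt (by linarith)]

/-- gaussian tail -/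
theorem tail_le {J L : ℝ} (hJ : 0 < J) (hL : 0 ≤ L) :
    ∫ y in Set.Ioi (J * L), Real.exp (-(π * y ^ 2 / J ^ 2)) ≤ 2 * J * Real.exp (-(L ^ 2)) := by
  have hb : (0 : ℝ) < 1 / J ^ 2 := by positivity
  have hint : Integrable (fun y : ℝ => Real.exp (-(1 / J ^ 2) * y ^ 2)) := integrable_exp_neg_mul_sq hb
  have h1 : ∫ y in Set.Ioi (J * L), Real.exp (-(π * y ^ 2 / J ^ 2)) ≤
      ∫ y in Set.Ioi (J * L), Real.exp (-(L ^ 2)) * Real.exp (-(1 / J ^ 2) * y ^ 2) := by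
    apply setIntegral_mono_on
    · have : Integrable (fun y : ℝ => Real.exp (-(π / J ^ 2) * y ^ 2)) := integrable_exp_neg_mul_sq (by positivity)
      refine (this.integrableOn).congr_fun (fun y _ => ?_) measurableSet_Ioi
      simp only
      congr 1
      ring
    · exact (hint.const_mul _).integrableOn
    · exact measurableSet_Ioi
    · intro y hy
      rw [Set.mem_Ioi] at hy
      rw [← Real.exp_add]
      apply Real.exp_le_exp.2
      have h2 : (J * L) ^ 2 ≤ y ^ 2 := pow_le_pow_left₀ (by positivity) hy.le 2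
      have h3 : L ^ 2 ≤ y ^ 2 / J ^ 2 := by
        rw [le_div_iff₀ (by positivity)]
        nlinarith
      have h4 : 0 ≤ y ^ 2 / J ^ 2 := by positivity
      have h5 := Real.pi_gt_three
      have h6 : π * y ^ 2 / J ^ 2 = π * (y ^ 2 / J ^ 2) := by ring
      have h7 : -(1 / J ^ 2) * y ^ 2 = -(y ^ 2 / J ^ 2) := by ring
      rw [h6, h7]
      nlinarith
  have h2 : ∫ y in Set.Ioi (J * L), Real.exp (-(L ^ 2)) * Real.exp (-(1 / J ^ 2) * y ^ 2) ≤
      ∫ y : ℝ, Real.exp (-(L ^ 2)) * Real.exp (-(1 / J ^ 2) * y ^ 2) := by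
    apply setIntegral_le_integral (hint.const_mul _)
    exact Filter.Eventually.of_forall fun y => by positivity
  have h3 : ∫ y : ℝ, Real.exp (-(L ^ 2)) * Real.exp (-(1 / J ^ 2) * y ^ 2) = Real.exp (-(L ^ 2)) * √(π / (1 / J ^ 2)) := by
    rw [integral_const_mul, integral_gaussian]
  have h4 : √(π / (1 / J ^ 2)) ≤ 2 * J := by
    rw [Real.sqrt_le_left (by positivity)]
    have : π / (1 / J ^ 2) = π * J ^ 2 := by field_simp
    rw [this]
    nlinarith [Real.pi_lt_four, sq_nonneg J]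
  rw [h3] at h2
  have h5 := mul_le_mul_of_nonneg_left h4 (Real.exp_pos (-(L ^ 2))).le
  linarith

/-- `∫_a^b y^{-3} dy ≤ 1/(2a²)` -/
theorem int_cube {a b : ℝ} (ha : 0 < a) (hab : a ≤ b) : ∫ y in Set.Ioc a b, 1 / y ^ 3 ≤ 1 / (2 * a ^ 2) := by
  rw [← intervalIntegral.integral_of_le hab]
  have hb : 0 < b := by linarith
  have h0 : (0 : ℝ) ∉ Set.uIcc a b := by
    rw [Set.uIcc_of_le hab]
    intro h
    linarith [h.1]
  have h1 : ∫ y in a..b, 1 / y ^ 3 = ∫ y in a..b, y ^ (-3 : ℤ) := by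
    congr 1
    ext y
    rw [zpow_neg, one_div]
    norm_cast
  rw [h1, integral_zpow (Or.inr ⟨by norm_num, h0⟩)]
  have h2 : (b ^ ((-3 : ℤ) + 1) - a ^ ((-3 : ℤ) + 1)) / (((-3 : ℤ) : ℝ) + 1) = 1 / (2 * a ^ 2) - 1 / (2 * b ^ 2) := by
    have e : ((-3 : ℤ) + 1) = -2 := by norm_num
    rw [e, zpow_neg, zpow_neg]
    have e2 : a ^ (2 : ℤ) = a ^ 2 := by norm_cast
    have e3 : b ^ (2 : ℤ) = b ^ 2 := by norm_cast
    rw [e2, e3]
    push_cast
    field_simp
    ring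
  rw [h2]
  have : 0 < 1 / (2 * b ^ 2) := by positivity
  linarith

theorem split_Ioi {F : ℝ → ℝ} (hF : Integrable F) {p q : ℝ} (h : p ≤ q) :
    ∫ y in Set.Ioi p, F y = (∫ y in Set.Ioc p q, F y) + ∫ y in Set.Ioi q, F y := by
  rw [← Set.Ioc_union_Ioi_eq_Ioi h]
  exact setIntegral_union (Set.Ioc_disjoint_Ioi le_rfl) measurableSet_Ioi hF.integrableOn hF.integrableOn

theorem t1 {θ θ' : ℝ} (hθ : 0 < θ) (h : θ < θ') (h1 : θ' < 1) {ε : ℝ} (hε : 0 < ε) : ∃ C : ℝ, 0 < C ∧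
    ∀ R : ℕ, 1 ≤ R → ∀ J : ℝ, 1 ≤ J →
      AA θ R J ≤ C * (R * J) ^ ε * ((R : ℝ) ^ 3 / J + R / J * QQ θ' (J * (R * J) ^ ε) R) := by
  obtain ⟨Cp, cp, hCp, hcp, hP⟩ := t1p hθ h h1
  obtain ⟨C1, hC1, hE1⟩ := expo (N := 2 + 2 * ε) (c := 2 * cp) (ε := ε / 2) (by positivity) (by positivity)
  obtain ⟨C2, hC2, hE2⟩ := expo (N := 1) (c := 1) (ε := 2 * ε) one_pos (by positivity)
  set D : ℝ := 11250 + 100 * Cp ^ 2 * (1 + C1) + 1250 * Cp ^ 2 * C1 + 45000 * C2 + 50 * Cp ^ 2 with hD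
  have hD0 : 0 < D := by positivity
  refine ⟨18 * D, by positivity, ?_⟩
  intro R hR J hJ
  have hR1 : (1 : ℝ) ≤ R := by exact_mod_cast hR
  have hR0 : (0 : ℝ) < R := by linarith
  have hJ0 : 0 < J := by linarith
  have hθ'0 : 0 < θ' := by linarith
  set X : ℝ := R * J with hX
  have hX1 : 1 ≤ X := one_le_mul_of_one_le_of_one_le hR1 hJ
  have hX0 : 0 < X := by linarith
  set η : ℝ := X ^ (ε / 2) with hηdef
  have hη : 1 ≤ η := Real.one_le_rpow hX1 (by positivity)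
  have hη0 : 0 < η := by linarith
  have hη2 : η ^ 2 = X ^ ε := by
    rw [hηdef, ← Real.rpow_natCast, ← Real.rpow_mul hX0.le]
    congr 1
    push_cast
    ring
  set L : ℝ := X ^ ε with hL
  have hL1 : 1 ≤ L := Real.one_le_rpow hX1 hε.le
  have hηL : η ≤ L := by
    rw [← hη2]
    nlinarith
  have hL2 : L ^ 2 = X ^ (2 * ε) := by
    rw [hL, ← Real.rpow_natCast, ← Real.rpow_mul hX0.le]
    congr 1
    push_cast
    ring
  obtain ⟨K, hKc, hKθ, hKcov⟩ := cov hθ (by linarith) hη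
  set E : ℝ := Real.exp (-(cp * η)) with hE
  have hE0 : 0 < E := Real.exp_pos _
  have hE2' : E ^ 2 = Real.exp (-(2 * cp * η)) := by
    rw [hE, ← Real.exp_nat_mul]
    congr 1
    push_cast
    ring
  have hXE : X ^ (2 + 2 * ε) * E ^ 2 ≤ C1 := by
    rw [hE2']
    exact hE1 X hX1
  have hRX : (R : ℝ) ≤ X := le_mul_of_one_le_right hR0.le hJ
  have hJX : J ≤ X := le_mul_of_one_le_left hJ0.le hR1
  have hRE : (R : ℝ) * E ^ 2 ≤ C1 := by
    refine le_trans (mul_le_mul_of_nonneg_right ?_ (sq_nonneg E)) hXE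
    refine le_trans hRX ?_
    calc X = X ^ (1 : ℝ) := (Real.rpow_one X).symm
      _ ≤ X ^ (2 + 2 * ε) := Real.rpow_le_rpow_of_exponent_le hX1 (by linarith)
  have hcE : (J * L) ^ 2 * E ^ 2 ≤ C1 := by
    refine le_trans (mul_le_mul_of_nonneg_right ?_ (sq_nonneg E)) hXE
    rw [mul_pow, hL2, Real.rpow_add hX0]
    have : J ^ 2 ≤ X ^ (2 : ℝ) := by
      rw [Real.rpow_two]
      exact pow_le_pow_left₀ hJ0.le hJX 2
    exact mul_le_mul_of_nonneg_right this (by positivity)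
  have hXL : X * Real.exp (-(L ^ 2)) ≤ C2 := by
    have := hE2 X hX1
    rw [Real.rpow_one, one_mul, ← hL2] at this
    exact this
  -- the integrand
  set F : ℝ → ℝ := fun y => Real.exp (-(π * y ^ 2 / J ^ 2)) * (∑ κ ∈ K, ‖SS R η κ y‖) ^ 2 with hF
  have hFc : Continuous F := by
    apply Continuous.mul
    · fun_prop
    · apply Continuous.pow
      exact continuous_finsetSum _ fun κ _ => (SS_cont R hη0).norm
  have hF0 : ∀ y, 0 ≤ F y := fun y => by
    rw [hF]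
    positivity
  have hFb : ∀ y, F y ≤ 22500 * η * (R : ℝ) ^ 4 * Real.exp (-(π * y ^ 2 / J ^ 2)) := by
    intro y
    have := sum_sq_le (f := fun κ => ‖SS R η κ y‖) hη hKc (fun κ _ => norm_nonneg _) (fun κ _ => SS_le hR hη y) (by positivity)
    calc F y ≤ Real.exp (-(π * y ^ 2 / J ^ 2)) * (25 * η * (30 * (R : ℝ) ^ 2) ^ 2) :=
          mul_le_mul_of_nonneg_left this (Real.exp_pos _).le
      _ = 22500 * η * (R : ℝ) ^ 4 * Real.exp (-(π * y ^ 2 / J ^ 2)) := by ring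
  have hgi : Integrable (fun y : ℝ => Real.exp (-(π * y ^ 2 / J ^ 2))) := by
    have : Integrable (fun y : ℝ => Real.exp (-(π / J ^ 2) * y ^ 2)) := integrable_exp_neg_mul_sq (by positivity)
    refine this.congr (Filter.Eventually.of_forall fun y => ?_)
    simp only
    congr 1
    ring
  have hFi : Integrable F := by
    refine (hgi.const_mul (22500 * η * (R : ℝ) ^ 4)).mono' hFc.aestronglyMeasurable (Filter.Eventually.of_forall fun y => ?_)
    rw [Real.norm_of_nonneg (hF0 y)]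
    exact hFb y
  have hexp1 : ∀ y : ℝ, Real.exp (-(π * y ^ 2 / J ^ 2)) ≤ 1 := fun y => by
    apply Real.exp_le_one_iff.2
    have : 0 ≤ π * y ^ 2 / J ^ 2 := by positivity
    linarith
  -- pointwise bound beyond a
  set a : ℝ := η / (2 * R) with ha
  have ha0 : 0 < a := by positivity
  have hFp : ∀ y, a < y → F y ≤ 50 * η * Cp ^ 2 * ((R / y) * ((qq θ' R y) ^ 2 + (R : ℝ) ^ 2 * (1 + y) ^ 2 * E ^ 2)) := by
    intro y hy
    have hy0 : 0 < y := by linarith
    have hηy : η ≤ 2 * R * y := by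
      rw [ha, div_lt_iff₀ (by positivity)] at hy
      linarith
    have hq0 := qq_nonneg (θ := θ') hR0.le y
    have hM0 : 0 ≤ Cp * √(R / y) * (qq θ' R y + R * (1 + y) * E) := by positivity
    have := sum_sq_le (f := fun κ => ‖SS R η κ y‖) hη hKc (fun κ _ => norm_nonneg _)
      (fun κ hκ => hP R hR η κ y hη (hKθ κ hκ) hy0 hηy) hM0
    have hM2 : (Cp * √(R / y) * (qq θ' R y + R * (1 + y) * E)) ^ 2 ≤
        2 * Cp ^ 2 * ((R / y) * ((qq θ' R y) ^ 2 + (R : ℝ) ^ 2 * (1 + y) ^ 2 * E ^ 2)) := by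
      rw [mul_pow, mul_pow, Real.sq_sqrt (by positivity)]
      have e1 : (qq θ' R y + R * (1 + y) * E) ^ 2 ≤ 2 * ((qq θ' R y) ^ 2 + (R : ℝ) ^ 2 * (1 + y) ^ 2 * E ^ 2) := by
        nlinarith [sq_nonneg (qq θ' R y - R * (1 + y) * E)]
      have e2 : 0 ≤ Cp ^ 2 * (R / y) := by positivity
      have := mul_le_mul_of_nonneg_left e1 e2
      linarith
    calc F y ≤ 1 * (∑ κ ∈ K, ‖SS R η κ y‖) ^ 2 := mul_le_mul_of_nonneg_right (hexp1 y) (sq_nonneg _)
      _ ≤ 25 * η * (Cp * √(R / y) * (qq θ' R y + R * (1 + y) * E)) ^ 2 := by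
          rw [one_mul]
          exact this
      _ ≤ 25 * η * (2 * Cp ^ 2 * ((R / y) * ((qq θ' R y) ^ 2 + (R : ℝ) ^ 2 * (1 + y) ^ 2 * E ^ 2))) :=
          mul_le_mul_of_nonneg_left hM2 (by positivity)
      _ = 50 * η * Cp ^ 2 * ((R / y) * ((qq θ' R y) ^ 2 + (R : ℝ) ^ 2 * (1 + y) ^ 2 * E ^ 2)) := by ring
  set b : ℝ := max a (1 / 4) with hb
  have hab : a ≤ b := le_max_left _ _
  have hb4 : 1 / 4 ≤ b := le_max_right _ _
  have hbc : b ≤ J * L := by
    apply max_le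
    · rw [ha, div_le_iff₀ (by positivity)]
      have : 1 ≤ 2 * (R : ℝ) := by linarith
      have h2 : L ≤ J * L := le_mul_of_one_le_left (by linarith) hJ
      have h3 : J * L ≤ J * L * (2 * R) := le_mul_of_one_le_right (by positivity) this
      linarith
    · have : 1 ≤ J * L := one_le_mul_of_one_le_of_one_le hJ hL1
      linarith
  -- (a)
  have hIa : ∫ y in Set.Ioc 0 a, F y ≤ 11250 * η ^ 2 * (R : ℝ) ^ 3 := by
    have e1 : ∫ y in Set.Ioc 0 a, F y ≤ ∫ y in Set.Ioc 0 a, 22500 * η * (R : ℝ) ^ 4 := by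
      apply setIntegral_mono_on hFi.integrableOn _ measurableSet_Ioc
      · intro y _
        refine le_trans (hFb y) ?_
        exact mul_le_of_le_one_right (by positivity) (hexp1 y)
      · exact integrableOn_const (by rw [Real.volume_Ioc]; exact ENNReal.ofReal_ne_top)
    rw [setIntegral_const, Real.volume_real_Ioc_of_le ha0.le, smul_eq_mul] at e1
    have e2 : (a - 0) * (22500 * η * (R : ℝ) ^ 4) = 11250 * η ^ 2 * (R : ℝ) ^ 3 := by
      rw [ha]
      field_simp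
      ring
    linarith
  -- (b)
  have hIb : ∫ y in Set.Ioc a b, F y ≤ 50 * η * Cp ^ 2 * ((2 + 2 * C1) * (R : ℝ) ^ 3) := by
    rcases le_total (1 / 4) a with h4 | h4
    · have : b = a := max_eq_left h4
      rw [this]
      simp
      positivity
    · have hb' : b = 1 / 4 := max_eq_right h4
      rw [hb']
      have hi3 : IntegrableOn (fun y : ℝ => 1 / y ^ 3) (Set.Ioc a (1 / 4)) := by
        apply IntegrableOn.mono_set (t := Set.Icc a (1 / 4)) _ Set.Ioc_subset_Icc_self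
        apply ContinuousOn.integrableOn_compact isCompact_Icc
        apply ContinuousOn.div continuousOn_const (by fun_prop)
        intro y hy
        have : 0 < y := by linarith [hy.1]
        positivity
      have hic : IntegrableOn (fun _ : ℝ => 8 * C1 * (R : ℝ) ^ 3) (Set.Ioc a (1 / 4)) :=
        integrableOn_const (by rw [Real.volume_Ioc]; exact ENNReal.ofReal_ne_top)
      have e1 : ∫ y in Set.Ioc a (1 / 4), F y ≤ ∫ y in Set.Ioc a (1 / 4), 50 * η * Cp ^ 2 * (R * (1 / y ^ 3) + 8 * C1 * (R : ℝ) ^ 3) := by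
        apply setIntegral_mono_on hFi.integrableOn ((hi3.const_mul _).add hic |>.const_mul _) measurableSet_Ioc
        intro y hy
        have hy0 : 0 < y := by linarith [hy.1]
        refine le_trans (hFp y hy.1) ?_
        apply mul_le_mul_of_nonneg_left _ (by positivity)
        have hq := qq_small h1 hθ'0.le hR0 hy0 hy.2
        have hq0 := qq_nonneg (θ := θ') hR0.le y
        have hq2 : (qq θ' R y) ^ 2 ≤ 1 / y ^ 2 := by
          calc (qq θ' R y) ^ 2 ≤ (1 / y) ^ 2 := pow_le_pow_left₀ hq0 hq 2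
            _ = 1 / y ^ 2 := by rw [div_pow, one_pow]
        have hy1 : 1 / y ≤ 2 * R := by
          rw [div_le_iff₀ hy0]
          have := hy.1
          rw [ha, div_lt_iff₀ (by positivity)] at this
          linarith
        have hyy : (1 + y) ^ 2 ≤ 4 := by nlinarith [hy.2]
        calc (R / y) * ((qq θ' R y) ^ 2 + (R : ℝ) ^ 2 * (1 + y) ^ 2 * E ^ 2)
            ≤ (R / y) * (1 / y ^ 2 + (R : ℝ) ^ 2 * 4 * E ^ 2) := by
              apply mul_le_mul_of_nonneg_left _ (by positivity)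
              apply add_le_add hq2
              apply mul_le_mul_of_nonneg_right _ (sq_nonneg E)
              exact mul_le_mul_of_nonneg_left hyy (by positivity)
          _ = R * (1 / y ^ 3) + 4 * (R : ℝ) ^ 2 * (R * E ^ 2) * (1 / y) := by
              field_simp
          _ ≤ R * (1 / y ^ 3) + 4 * (R : ℝ) ^ 2 * C1 * (2 * R) := by
              gcongr
          _ = R * (1 / y ^ 3) + 8 * C1 * (R : ℝ) ^ 3 := by ring
      rw [integral_const_mul, integral_add (hi3.const_mul _) hic, integral_const_mul, setIntegral_const,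
        Real.volume_real_Ioc_of_le h4, smul_eq_mul] at e1
      refine le_trans e1 ?_
      apply mul_le_mul_of_nonneg_left _ (by positivity)
      have e2 := int_cube ha0 h4
      have e3 : 1 / (2 * a ^ 2) ≤ 2 * (R : ℝ) ^ 2 := by
        rw [ha, div_pow, div_le_iff₀ (by positivity)]
        have : 1 ≤ η ^ 2 := one_le_pow₀ hη
        have e4 : 2 * (R : ℝ) ^ 2 * (2 * (η ^ 2 / (2 * R) ^ 2)) = η ^ 2 := by
          field_simp
          try ring
        linarith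
      have e5 : R * (∫ y in Set.Ioc a (1 / 4), 1 / y ^ 3) ≤ R * (2 * (R : ℝ) ^ 2) :=
        mul_le_mul_of_nonneg_left (le_trans e2 e3) hR0.le
      have e6 : (1 / 4 - a) * (8 * C1 * (R : ℝ) ^ 3) ≤ (1 / 4) * (8 * C1 * (R : ℝ) ^ 3) :=
        mul_le_mul_of_nonneg_right (by linarith) (by positivity)
      nlinarith
  -- (c)
  have hIc : ∫ y in Set.Ioc b (J * L), F y ≤ 50 * η * Cp ^ 2 * (R * QQ θ' (J * L) R + 25 * C1 * (R : ℝ) ^ 3) := by
    have hiq := qq_integrableOn (θ := θ') (R := R) hθ'0.le h1.le hR0.le (J * L)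
    have hfin : volume (Set.Ioc (1 / 4) (J * L)) ≠ ⊤ := by
      rw [Real.volume_Ioc]
      exact ENNReal.ofReal_ne_top
    have hic : IntegrableOn (fun _ : ℝ => (R : ℝ) ^ 2 * E ^ 2 * (25 * (J * L))) (Set.Ioc (1 / 4) (J * L)) :=
      integrableOn_const hfin
    have hisum : IntegrableOn (fun y => 50 * η * Cp ^ 2 * (R * ((qq θ' R y) ^ 2 / y + (R : ℝ) ^ 2 * E ^ 2 * (25 * (J * L)))))
        (Set.Ioc (1 / 4) (J * L)) := ((hiq.add hic).const_mul _).const_mul _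
    have e1 : ∫ y in Set.Ioc b (J * L), F y ≤ ∫ y in Set.Ioc b (J * L),
        50 * η * Cp ^ 2 * (R * ((qq θ' R y) ^ 2 / y + (R : ℝ) ^ 2 * E ^ 2 * (25 * (J * L)))) := by
      apply setIntegral_mono_on hFi.integrableOn (hisum.mono_set (Set.Ioc_subset_Ioc_left hb4)) measurableSet_Ioc
      intro y hy
      have hy4 : 1 / 4 ≤ y := by linarith [hy.1]
      have hy0 : 0 < y := by linarith
      refine le_trans (hFp y (lt_of_le_of_lt hab hy.1)) ?_
      apply mul_le_mul_of_nonneg_left _ (by positivity)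
      have e2 : (1 + y) ^ 2 ≤ 25 * y ^ 2 := by nlinarith
      have e3 : (1 + y) ^ 2 / y ≤ 25 * (J * L) := by
        rw [div_le_iff₀ hy0]
        have : y * y ≤ (J * L) * y := mul_le_mul_of_nonneg_right hy.2 hy0.le
        nlinarith
      calc (R / y) * ((qq θ' R y) ^ 2 + (R : ℝ) ^ 2 * (1 + y) ^ 2 * E ^ 2)
          = R * ((qq θ' R y) ^ 2 / y + (R : ℝ) ^ 2 * E ^ 2 * ((1 + y) ^ 2 / y)) := by
            field_simp
        _ ≤ R * ((qq θ' R y) ^ 2 / y + (R : ℝ) ^ 2 * E ^ 2 * (25 * (J * L))) := by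
            gcongr
    have e4 : ∫ y in Set.Ioc b (J * L),
        50 * η * Cp ^ 2 * (R * ((qq θ' R y) ^ 2 / y + (R : ℝ) ^ 2 * E ^ 2 * (25 * (J * L)))) ≤
        ∫ y in Set.Ioc (1 / 4) (J * L), 50 * η * Cp ^ 2 * (R * ((qq θ' R y) ^ 2 / y + (R : ℝ) ^ 2 * E ^ 2 * (25 * (J * L)))) := by
      apply setIntegral_mono_set hisum
      · rw [Filter.EventuallyLE, ae_restrict_iff' measurableSet_Ioc]
        refine Filter.Eventually.of_forall fun y hy => ?_
        have hy0 : 0 < y := by linarith [hy.1]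
        simp only [Pi.zero_apply]
        positivity
      · exact Filter.Eventually.of_forall (Set.Ioc_subset_Ioc_left hb4)
    refine le_trans e1 (le_trans e4 ?_)
    rw [integral_const_mul, integral_const_mul, integral_add hiq hic, setIntegral_const,
      Real.volume_real_Ioc_of_le (by linarith), smul_eq_mul]
    apply mul_le_mul_of_nonneg_left _ (by positivity)
    have e5 : (J * L - 1 / 4) * ((R : ℝ) ^ 2 * E ^ 2 * (25 * (J * L))) ≤ (J * L) * ((R : ℝ) ^ 2 * E ^ 2 * (25 * (J * L))) :=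
      mul_le_mul_of_nonneg_right (by linarith) (by positivity)
    have e6 : (J * L) * ((R : ℝ) ^ 2 * E ^ 2 * (25 * (J * L))) = 25 * (R : ℝ) ^ 2 * ((J * L) ^ 2 * E ^ 2) := by ring
    have e7 : 25 * (R : ℝ) ^ 2 * ((J * L) ^ 2 * E ^ 2) ≤ 25 * (R : ℝ) ^ 2 * C1 := mul_le_mul_of_nonneg_left hcE (by positivity)
    have e8 : (J * L - 1 / 4) * ((R : ℝ) ^ 2 * E ^ 2 * (25 * (J * L))) ≤ 25 * (R : ℝ) ^ 2 * C1 := by linarith
    have e9 := mul_le_mul_of_nonneg_left e8 hR0.le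
    have e10 : (R : ℝ) * (25 * (R : ℝ) ^ 2 * C1) = 25 * C1 * (R : ℝ) ^ 3 := by ring
    unfold QQ
    rw [mul_add]
    linarith
  -- (d)
  have hId : ∫ y in Set.Ioi (J * L), F y ≤ 45000 * η * C2 * (R : ℝ) ^ 3 := by
    have e1 : ∫ y in Set.Ioi (J * L), F y ≤ ∫ y in Set.Ioi (J * L), 22500 * η * (R : ℝ) ^ 4 * Real.exp (-(π * y ^ 2 / J ^ 2)) :=
      setIntegral_mono_on hFi.integrableOn (hgi.integrableOn.const_mul _) measurableSet_Ioi fun y _ => hFb y
    rw [integral_const_mul] at e1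
    have e2 := tail_le hJ0 (by linarith : (0 : ℝ) ≤ L)
    have e3 : 22500 * η * (R : ℝ) ^ 4 * ∫ y in Set.Ioi (J * L), Real.exp (-(π * y ^ 2 / J ^ 2)) ≤
        22500 * η * (R : ℝ) ^ 4 * (2 * J * Real.exp (-(L ^ 2))) := mul_le_mul_of_nonneg_left e2 (by positivity)
    have e4 : 22500 * η * (R : ℝ) ^ 4 * (2 * J * Real.exp (-(L ^ 2))) = 45000 * η * (R : ℝ) ^ 3 * (X * Real.exp (-(L ^ 2))) := by
      rw [hX]
      ring
    have e5 : 45000 * η * (R : ℝ) ^ 3 * (X * Real.exp (-(L ^ 2))) ≤ 45000 * η * (R : ℝ) ^ 3 * C2 :=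
      mul_le_mul_of_nonneg_left hXL (by positivity)
    linarith
  have hT := t1a hR hη hJ0 K hKcov
  have hQ0 : 0 ≤ QQ θ' (J * L) R := QQ_nonneg _ _ _
  have hsplit : ∫ y in Set.Ioi (0 : ℝ), F y = (∫ y in Set.Ioc 0 a, F y) + ((∫ y in Set.Ioc a b, F y) +
      ((∫ y in Set.Ioc b (J * L), F y) + ∫ y in Set.Ioi (J * L), F y)) := by
    rw [split_Ioi hFi ha0.le, split_Ioi hFi hab, split_Ioi hFi hbc]
  have hηη : η ≤ η ^ 2 := by nlinarith
  have hR3 : 0 < (R : ℝ) ^ 3 := by positivity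
  have htot : ∫ y in Set.Ioi (0 : ℝ), F y ≤ η ^ 2 * D * ((R : ℝ) ^ 3 + R * QQ θ' (J * L) R) := by
    rw [hsplit]
    have f1 : ∀ Z : ℝ, 0 ≤ Z → η * Z ≤ η ^ 2 * Z := fun Z hZ => mul_le_mul_of_nonneg_right hηη hZ
    have g1 := f1 (50 * Cp ^ 2 * ((2 + 2 * C1) * (R : ℝ) ^ 3)) (by positivity)
    have g2 := f1 (50 * Cp ^ 2 * (R * QQ θ' (J * L) R + 25 * C1 * (R : ℝ) ^ 3)) (by positivity)
    have g3 := f1 (45000 * C2 * (R : ℝ) ^ 3) (by positivity)
    have g4 : 0 ≤ η ^ 2 * ((11250 + 100 * Cp ^ 2 * (1 + C1) + 1250 * Cp ^ 2 * C1 + 45000 * C2) * (R * QQ θ' (J * L) R)) := by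
      positivity
    have g5 : 0 ≤ η ^ 2 * (50 * Cp ^ 2 * (R : ℝ) ^ 3) := by positivity
    have g6 : η ^ 2 * D * ((R : ℝ) ^ 3 + R * QQ θ' (J * L) R) = 11250 * η ^ 2 * (R : ℝ) ^ 3 +
        η ^ 2 * (50 * Cp ^ 2 * ((2 + 2 * C1) * (R : ℝ) ^ 3)) +
        η ^ 2 * (50 * Cp ^ 2 * (R * QQ θ' (J * L) R + 25 * C1 * (R : ℝ) ^ 3)) +
        η ^ 2 * (45000 * C2 * (R : ℝ) ^ 3) +
        η ^ 2 * ((11250 + 100 * Cp ^ 2 * (1 + C1) + 1250 * Cp ^ 2 * C1 + 45000 * C2) * (R * QQ θ' (J * L) R)) +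
        η ^ 2 * (50 * Cp ^ 2 * (R : ℝ) ^ 3) := by
      rw [hD]
      ring
    rw [g6]
    linarith
  have h18 : 0 ≤ 18 / J := by positivity
  calc AA θ R J ≤ 18 / J * ∫ y in Set.Ioi (0 : ℝ), F y := hT
    _ ≤ 18 / J * (η ^ 2 * D * ((R : ℝ) ^ 3 + R * QQ θ' (J * L) R)) := mul_le_mul_of_nonneg_left htot h18
    _ = 18 * D * L * ((R : ℝ) ^ 3 / J + R / J * QQ θ' (J * L) R) := by
        rw [hη2]
        field_simp

end Pool.Agent.H93.RS
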