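import Mathlib
import Pool.Agent.H93.RS.Defs

/-!
# [H93 RS LS]  gaussian large sieve
-/

set_option autoImplicit false

namespace Pool.Agent.H93.RS

open Finset Real MeasureTheory

namespace Ls

lemma exp_pi_le : Real.exp π ≤ 24 := by
  have h1 : π ≤ 3 + 1416 / 10000 := by
    have := Real.pi_lt_d4
    linarith
  have h2 : Real.exp π ≤ Real.exp (3 + 1416 / 10000) := Real.exp_le_exp.2 h1
  have h3 : Real.exp (3 + 1416 / 10000 : ℝ) = Real.exp 1 ^ 3 * Real.exp (1416 / 10000) := by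
    rw [← Real.exp_nat_mul, ← Real.exp_add]
    norm_num
  have h4 : Real.exp 1 ≤ 2.7182818286 := Real.exp_one_lt_d9.le
  have h5 : Real.exp (1416 / 10000) ≤ 1 / (1 - 1416 / 10000) := by
    have h6 : (1 - 1416 / 10000 : ℝ) ≤ Real.exp (-(1416 / 10000)) := by
      have := Real.add_one_le_exp (-(1416 / 10000 : ℝ))
      linarith
    have h7 : Real.exp (1416 / 10000 : ℝ) * Real.exp (-(1416 / 10000)) = 1 := by
      rw [← Real.exp_add]; simp
    rw [le_div_iff₀ (by norm_num)]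
    have h8 := (Real.exp_pos (1416 / 10000 : ℝ)).le
    nlinarith
  have h9 : Real.exp 1 ^ 3 ≤ 2.7182818286 ^ 3 := pow_le_pow_left₀ (Real.exp_pos _).le h4 3
  calc Real.exp π ≤ Real.exp 1 ^ 3 * Real.exp (1416 / 10000) := by rw [← h3]; exact h2
    _ ≤ 2.7182818286 ^ 3 * (1 / (1 - 1416 / 10000)) :=
        mul_le_mul h9 h5 (Real.exp_pos _).le (by norm_num)
    _ ≤ 24 := by norm_num

lemma continuous_ee : Continuous ee := by
  unfold ee
  fun_prop

lemma gker_int {J : ℝ} (hJ : 0 < J) (d : ℝ) :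
    Integrable (fun y : ℝ => ((Real.exp (-π * y ^ 2 / J ^ 2) : ℝ) : ℂ) * ee (y * d)) := by
  have hb : 0 < π / J ^ 2 := by positivity
  have h1 := integrable_exp_neg_mul_sq hb
  refine h1.mono ?_ ?_
  · apply Continuous.aestronglyMeasurable
    have h2 : Continuous (fun y : ℝ => ee (y * d)) := continuous_ee.comp (by fun_prop)
    have h3 : Continuous (fun y : ℝ => ((Real.exp (-π * y ^ 2 / J ^ 2) : ℝ) : ℂ)) := by fun_prop
    exact h3.mul h2
  · refine Filter.Eventually.of_forall fun y => le_of_eq ?_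
    rw [norm_mul, norm_ee, mul_one, Complex.norm_real]
    congr 2
    ring

lemma gker {J : ℝ} (hJ : 0 < J) (d : ℝ) :
    ∫ y : ℝ, ((Real.exp (-π * y ^ 2 / J ^ 2) : ℝ) : ℂ) * ee (y * d) =
      ((J * Real.exp (-π * J ^ 2 * d ^ 2) : ℝ) : ℂ) := by
  have hb : 0 < ((π / J ^ 2 : ℝ) : ℂ).re := by
    rw [Complex.ofReal_re]; positivity
  have h := fourierIntegral_gaussian hb ((2 * π * d : ℝ) : ℂ)
  have e1 : (fun y : ℝ => ((Real.exp (-π * y ^ 2 / J ^ 2) : ℝ) : ℂ) * ee (y * d)) =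
      fun x : ℝ => Complex.exp (Complex.I * ((2 * π * d : ℝ) : ℂ) * x) *
        Complex.exp (-((π / J ^ 2 : ℝ) : ℂ) * x ^ 2) := by
    funext y
    unfold ee
    rw [Complex.ofReal_exp, mul_comm]
    congr 2
    · push_cast; ring
    · push_cast; ring
  rw [e1, h]
  have e2 : ((π : ℂ) / ((π / J ^ 2 : ℝ) : ℂ)) ^ (1 / 2 : ℂ) = ((J : ℝ) : ℂ) := by
    have e3 : ((π : ℂ) / ((π / J ^ 2 : ℝ) : ℂ)) = ((J ^ 2 : ℝ) : ℂ) := by
      rw [← Complex.ofReal_div]
      congr 1
      have := Real.pi_pos.ne'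
      field_simp
    have e4 : (1 / 2 : ℂ) = (((1 / 2 : ℝ)) : ℂ) := by push_cast; ring
    rw [e3, e4, ← Complex.ofReal_cpow (by positivity), ← Real.sqrt_eq_rpow, Real.sqrt_sq hJ.le]
  rw [e2]
  rw [Complex.ofReal_mul J, Complex.ofReal_exp]
  congr 2
  push_cast
  have h1 : (π : ℂ) ≠ 0 := by exact_mod_cast Real.pi_pos.ne'
  have h2 : (J : ℂ) ≠ 0 := by exact_mod_cast hJ.ne'
  field_simp
  ring

/-- a nonnegative exponential polynomial with frequencies `x_p - x_p'` -/
lemma quad {ι : Type} (P : Finset ι) (x : ι → ℝ) (a : ι → ι → ℂ) {A J α β : ℝ} (hJ : 0 < J) (hα : -J ≤ α)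
    (hαβ : α ≤ β) (hβ : β ≤ J) (ha : ∀ p ∈ P, ∀ p' ∈ P, ‖a p p'‖ ≤ A) (g : ℝ → ℝ) (hg0 : ∀ y, 0 ≤ g y)
    (hg : ∀ y, ((g y : ℝ) : ℂ) = ∑ p ∈ P, ∑ p' ∈ P, a p p' * ee (y * (x p - x p'))) :
    ∫ y in α..β, g y ≤ 24 * J * A * ∑ p ∈ P, ∑ p' ∈ P, Real.exp (-π * J ^ 2 * (x p - x p') ^ 2) := by
  have hcg : Continuous g := by
    have h1 : g = fun y => (∑ p ∈ P, ∑ p' ∈ P, a p p' * ee (y * (x p - x p'))).re := by
      funext y
      rw [← hg y, Complex.ofReal_re]
    rw [h1]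
    apply Complex.continuous_re.comp
    refine continuous_finset_sum _ fun p _ => continuous_finset_sum _ fun p' _ => ?_
    exact continuous_const.mul (continuous_ee.comp (by fun_prop))
  have e1 : (fun y : ℝ => ((Real.exp (-π * y ^ 2 / J ^ 2) * g y : ℝ) : ℂ)) =
      fun y : ℝ => ∑ p ∈ P, ∑ p' ∈ P, a p p' *
        (((Real.exp (-π * y ^ 2 / J ^ 2) : ℝ) : ℂ) * ee (y * (x p - x p'))) := by
    funext y
    rw [Complex.ofReal_mul, hg y, Finset.mul_sum]
    refine Finset.sum_congr rfl fun p _ => ?_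
    rw [Finset.mul_sum]
    refine Finset.sum_congr rfl fun p' _ => ?_
    ring
  have hintC : Integrable (fun y : ℝ => ((Real.exp (-π * y ^ 2 / J ^ 2) * g y : ℝ) : ℂ)) := by
    rw [e1]
    refine integrable_finset_sum _ fun p _ => integrable_finset_sum _ fun p' _ => ?_
    exact (gker_int hJ _).const_mul _
  have hint : Integrable (fun y : ℝ => Real.exp (-π * y ^ 2 / J ^ 2) * g y) := by
    refine (hintC.re).congr (Filter.Eventually.of_forall fun y => ?_)
    exact Complex.ofReal_re _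
  have hval : ((∫ y : ℝ, Real.exp (-π * y ^ 2 / J ^ 2) * g y : ℝ) : ℂ) =
      ∑ p ∈ P, ∑ p' ∈ P, a p p' * ((J * Real.exp (-π * J ^ 2 * (x p - x p') ^ 2) : ℝ) : ℂ) := by
    rw [← integral_complex_ofReal, e1, integral_finset_sum]
    · refine Finset.sum_congr rfl fun p _ => ?_
      rw [integral_finset_sum]
      · refine Finset.sum_congr rfl fun p' _ => ?_
        rw [integral_const_mul, gker hJ]
      · intro p' _
        exact (gker_int hJ _).const_mul _
    · intro p _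
      refine integrable_finset_sum _ fun p' _ => ?_
      exact (gker_int hJ _).const_mul _
  have hnn : 0 ≤ ∫ y : ℝ, Real.exp (-π * y ^ 2 / J ^ 2) * g y :=
    integral_nonneg fun y => mul_nonneg (Real.exp_pos _).le (hg0 y)
  have hbd : ∫ y : ℝ, Real.exp (-π * y ^ 2 / J ^ 2) * g y ≤
      J * A * ∑ p ∈ P, ∑ p' ∈ P, Real.exp (-π * J ^ 2 * (x p - x p') ^ 2) := by
    have h1 : ∫ y : ℝ, Real.exp (-π * y ^ 2 / J ^ 2) * g y =
        ‖((∫ y : ℝ, Real.exp (-π * y ^ 2 / J ^ 2) * g y : ℝ) : ℂ)‖ := by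
      rw [Complex.norm_real, Real.norm_eq_abs, abs_of_nonneg hnn]
    rw [h1, hval]
    refine (norm_sum_le _ _).trans ?_
    rw [Finset.mul_sum]
    refine Finset.sum_le_sum fun p hp => (norm_sum_le _ _).trans ?_
    rw [Finset.mul_sum]
    refine Finset.sum_le_sum fun p' hp' => ?_
    rw [norm_mul, Complex.norm_real, Real.norm_eq_abs, abs_of_nonneg (by positivity)]
    have h2 := ha p hp p' hp'
    have h3 : 0 ≤ J * Real.exp (-π * J ^ 2 * (x p - x p') ^ 2) := by positivity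
    calc ‖a p p'‖ * (J * Real.exp (-π * J ^ 2 * (x p - x p') ^ 2))
        ≤ A * (J * Real.exp (-π * J ^ 2 * (x p - x p') ^ 2)) := mul_le_mul_of_nonneg_right h2 h3
      _ = J * A * Real.exp (-π * J ^ 2 * (x p - x p') ^ 2) := by ring
  have hpt : ∀ y ∈ Set.Icc α β, g y ≤ 24 * (Real.exp (-π * y ^ 2 / J ^ 2) * g y) := by
    intro y hy
    have h1 : y ^ 2 ≤ J ^ 2 := by
      apply sq_le_sq'
      · linarith [hy.1]
      · linarith [hy.2]
    have h2 : -π ≤ -π * y ^ 2 / J ^ 2 := by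
      rw [le_div_iff₀ (by positivity)]
      have := Real.pi_pos
      nlinarith
    have h3 : Real.exp (-π) ≤ Real.exp (-π * y ^ 2 / J ^ 2) := Real.exp_le_exp.2 h2
    have h4 : 1 ≤ 24 * Real.exp (-π) := by
      have h5 := exp_pi_le
      have h6 : Real.exp π * Real.exp (-π) = 1 := by rw [← Real.exp_add]; simp
      have h7 := Real.exp_pos (-π)
      nlinarith
    have h5 : 1 ≤ 24 * Real.exp (-π * y ^ 2 / J ^ 2) := by linarith
    have h6 := mul_le_mul_of_nonneg_right h5 (hg0 y)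
    linarith
  calc ∫ y in α..β, g y ≤ ∫ y in α..β, 24 * (Real.exp (-π * y ^ 2 / J ^ 2) * g y) := by
        apply intervalIntegral.integral_mono_on hαβ
        · exact hcg.intervalIntegrable _ _
        · apply Continuous.intervalIntegrable
          fun_prop
        · exact hpt
    _ = 24 * ∫ y in α..β, (Real.exp (-π * y ^ 2 / J ^ 2) * g y) := by
        rw [intervalIntegral.integral_const_mul]
    _ ≤ 24 * ∫ y : ℝ, (Real.exp (-π * y ^ 2 / J ^ 2) * g y) := by
        apply mul_le_mul_of_nonneg_left _ (by norm_num)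
        rw [intervalIntegral.integral_of_le hαβ]
        apply setIntegral_le_integral hint
        exact Filter.Eventually.of_forall fun y => mul_nonneg (Real.exp_pos _).le (hg0 y)
    _ ≤ 24 * (J * A * ∑ p ∈ P, ∑ p' ∈ P, Real.exp (-π * J ^ 2 * (x p - x p') ^ 2)) :=
        mul_le_mul_of_nonneg_left hbd (by norm_num)
    _ = _ := by ring

lemma conj_ee (t : ℝ) : (starRingEnd ℂ) (ee t) = ee (-t) := by
  unfold ee
  rw [← Complex.exp_conj]
  congr 1
  rw [map_mul, Complex.conj_ofReal, Complex.conj_I]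
  push_cast
  ring

lemma sq_expand {ι : Type} (P : Finset ι) (x : ι → ℝ) (c : ι → ℂ) (y : ℝ) :
    ((‖∑ p ∈ P, c p * ee (y * x p)‖ ^ 2 : ℝ) : ℂ) =
      ∑ p ∈ P, ∑ p' ∈ P, (c p * (starRingEnd ℂ) (c p')) * ee (y * (x p - x p')) := by
  rw [← Complex.normSq_eq_norm_sq, ← Complex.mul_conj, map_sum, Finset.sum_mul_sum]
  refine Finset.sum_congr rfl fun p _ => Finset.sum_congr rfl fun p' _ => ?_
  rw [map_mul, conj_ee]
  have : y * (x p - x p') = y * x p + -(y * x p') := by ring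
  rw [this, ee_add]
  ring

end Ls

open Ls

/-- `1_[-J,J] ≤ e^π exp(-πy²/J²)`, `∫ exp(-πy²/J²) e(yx) dy = J exp(-πJ²x²)` -/
theorem ls0 {ι : Type} (P : Finset ι) (x : ι → ℝ) (c : ι → ℂ) {B J a b : ℝ} (hJ : 0 < J) (ha : -J ≤ a) (hab : a ≤ b)
    (hb : b ≤ J) (hc : ∀ p ∈ P, ‖c p‖ ≤ B) :
    ∫ y in a..b, ‖∑ p ∈ P, c p * ee (y * x p)‖ ^ 2 ≤
      24 * J * B ^ 2 * ∑ p ∈ P, ∑ p' ∈ P, Real.exp (-π * J ^ 2 * (x p - x p') ^ 2) := by
  refine quad P x (fun p p' => c p * (starRingEnd ℂ) (c p')) hJ ha hab hb ?_ _ (fun y => sq_nonneg _)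
    (fun y => sq_expand P x c y)
  intro p hp p' hp'
  rw [norm_mul, RCLike.norm_conj, sq]
  exact mul_le_mul (hc p hp) (hc p' hp') (norm_nonneg _) ((norm_nonneg _).trans (hc p hp))

/-- `c_p(y) = c_p(J) - ∫_y^J c_p'(u) du`, Cauchy with weight `y0/u²`, `ls0` for each `u` (constant 96) -/
theorem ls1 {ι : Type} (P : Finset ι) (x : ι → ℝ) (c c' : ι → ℝ → ℂ) {B J y0 : ℝ} (hy0 : 0 < y0) (hJ : y0 ≤ J)
    (hd : ∀ p ∈ P, ∀ y ∈ Set.Icc y0 J, HasDerivAt (c p) (c' p y) y)
    (hcont : ∀ p ∈ P, ContinuousOn (c' p) (Set.Icc y0 J))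
    (hc : ∀ p ∈ P, ∀ y ∈ Set.Icc y0 J, ‖c p y‖ ≤ B)
    (hc' : ∀ p ∈ P, ∀ y ∈ Set.Icc y0 J, ‖c' p y‖ ≤ B * (y0 / y ^ 2)) :
    ∫ y in y0..J, ‖∑ p ∈ P, c p y * ee (y * x p)‖ ^ 2 ≤
      200 * J * B ^ 2 * ∑ p ∈ P, ∑ p' ∈ P, Real.exp (-π * J ^ 2 * (x p - x p') ^ 2) := by
  have hJ0 : 0 < J := lt_of_lt_of_le hy0 hJ
  have hu : Set.uIcc y0 J = Set.Icc y0 J := Set.uIcc_of_le hJ
  -- the weight
  have hw : ContinuousOn (fun u : ℝ => y0 / u ^ 2) (Set.Icc y0 J) := by
    apply ContinuousOn.div continuousOn_const (by fun_prop)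
    intro u hu'
    have : 0 < u := lt_of_lt_of_le hy0 hu'.1
    positivity
  have hwi : IntervalIntegrable (fun u : ℝ => y0 / u ^ 2) volume y0 J := by
    apply ContinuousOn.intervalIntegrable; rw [hu]; exact hw
  have hW : ∫ u in y0..J, y0 / u ^ 2 ≤ 1 := by
    have h1 : ∫ u in y0..J, y0 / u ^ 2 = (-(y0 / J)) - (-(y0 / y0)) := by
      apply intervalIntegral.integral_eq_sub_of_hasDerivAt (f := fun u => -(y0 / u))
      · intro u hu'
        rw [hu] at hu'
        have hu0 : 0 < u := lt_of_lt_of_le hy0 hu'.1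
        have h2 : HasDerivAt (fun u : ℝ => -(y0 * u⁻¹)) (-(y0 * (-(u ^ 2)⁻¹))) u :=
          ((hasDerivAt_inv hu0.ne').const_mul y0).neg
        have h3 : (fun u : ℝ => -(y0 / u)) = fun u : ℝ => -(y0 * u⁻¹) := by
          funext v; rw [div_eq_mul_inv]
        rw [h3]
        have h4 : y0 / u ^ 2 = -(y0 * (-(u ^ 2)⁻¹)) := by rw [div_eq_mul_inv]; ring
        rw [h4]; exact h2
      · exact hwi
    rw [h1, div_self hy0.ne']
    have : 0 < y0 / J := by positivity
    linarith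
  -- the function g
  have hGc : ∀ y : ℝ, ContinuousOn (fun u => ∑ p ∈ P, c' p u * ee (y * x p)) (Set.Icc y0 J) := by
    intro y
    refine continuousOn_finset_sum _ fun p hp => ?_
    exact (hcont p hp).mul continuousOn_const
  have hgg : ∀ y : ℝ, ContinuousOn (fun u => (u ^ 2 / y0) * ‖∑ p ∈ P, c' p u * ee (y * x p)‖ ^ 2)
      (Set.Icc y0 J) := by
    intro y
    apply ContinuousOn.mul (by fun_prop)
    exact (hGc y).norm.pow 2
  have hggi : ∀ y : ℝ, IntervalIntegrable (fun u => (u ^ 2 / y0) * ‖∑ p ∈ P, c' p u * ee (y * x p)‖ ^ 2)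
      volume y0 J := by
    intro y
    apply ContinuousOn.intervalIntegrable; rw [hu]; exact hgg y
  let g : ℝ → ℝ := fun y => ∫ u in y0..J, (u ^ 2 / y0) * ‖∑ p ∈ P, c' p u * ee (y * x p)‖ ^ 2
  let a : ι → ι → ℂ := fun p p' => ∫ u in y0..J, ((u ^ 2 / y0 : ℝ) : ℂ) * (c' p u * (starRingEnd ℂ) (c' p' u))
  have hai : ∀ p ∈ P, ∀ p' ∈ P, IntervalIntegrable
      (fun u : ℝ => ((u ^ 2 / y0 : ℝ) : ℂ) * (c' p u * (starRingEnd ℂ) (c' p' u))) volume y0 J := by
    intro p hp p' hp'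
    apply ContinuousOn.intervalIntegrable; rw [hu]
    apply ContinuousOn.mul
    · exact (Complex.continuous_ofReal.comp (by fun_prop)).continuousOn
    · exact (hcont p hp).mul (Complex.continuous_conj.comp_continuousOn (hcont p' hp'))
  have hg0 : ∀ y, 0 ≤ g y := by
    intro y
    apply intervalIntegral.integral_nonneg hJ
    intro u hu'
    positivity
  have hab : ∀ p ∈ P, ∀ p' ∈ P, ‖a p p'‖ ≤ B ^ 2 := by
    intro p hp p' hp'
    have h1 : ‖a p p'‖ ≤ ∫ u in y0..J, B ^ 2 * (y0 / u ^ 2) := by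
      refine (intervalIntegral.norm_integral_le_integral_norm hJ).trans ?_
      apply intervalIntegral.integral_mono_on hJ (hai p hp p' hp').norm (hwi.const_mul _)
      intro u hu'
      have hu0 : 0 < u := lt_of_lt_of_le hy0 hu'.1
      rw [norm_mul, norm_mul, RCLike.norm_conj, Complex.norm_real, Real.norm_eq_abs, abs_of_nonneg (by positivity)]
      have h2 := hc' p hp u hu'
      have h3 := hc' p' hp' u hu'
      have h4 : ‖c' p u‖ * ‖c' p' u‖ ≤ (B * (y0 / u ^ 2)) * (B * (y0 / u ^ 2)) :=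
        mul_le_mul h2 h3 (norm_nonneg _) ((norm_nonneg _).trans h2)
      calc u ^ 2 / y0 * (‖c' p u‖ * ‖c' p' u‖) ≤ u ^ 2 / y0 * ((B * (y0 / u ^ 2)) * (B * (y0 / u ^ 2))) :=
            mul_le_mul_of_nonneg_left h4 (by positivity)
        _ = B ^ 2 * (y0 / u ^ 2) := by
            field_simp
    rw [intervalIntegral.integral_const_mul] at h1
    calc ‖a p p'‖ ≤ B ^ 2 * ∫ u in y0..J, y0 / u ^ 2 := h1
      _ ≤ B ^ 2 * 1 := mul_le_mul_of_nonneg_left hW (sq_nonneg _)
      _ = B ^ 2 := mul_one _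
  have hga : ∀ y, ((g y : ℝ) : ℂ) = ∑ p ∈ P, ∑ p' ∈ P, a p p' * ee (y * (x p - x p')) := by
    intro y
    have h1 : ((g y : ℝ) : ℂ) = ∫ u in y0..J, ((u ^ 2 / y0 * ‖∑ p ∈ P, c' p u * ee (y * x p)‖ ^ 2 : ℝ) : ℂ) := by
      rw [intervalIntegral.integral_ofReal]
    rw [h1]
    have h2 : (fun u : ℝ => ((u ^ 2 / y0 * ‖∑ p ∈ P, c' p u * ee (y * x p)‖ ^ 2 : ℝ) : ℂ)) =
        fun u : ℝ => ∑ p ∈ P, ∑ p' ∈ P,
          (((u ^ 2 / y0 : ℝ) : ℂ) * (c' p u * (starRingEnd ℂ) (c' p' u))) * ee (y * (x p - x p')) := by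
      funext u
      rw [Complex.ofReal_mul, sq_expand P x (fun p => c' p u) y, Finset.mul_sum]
      refine Finset.sum_congr rfl fun p _ => ?_
      rw [Finset.mul_sum]
      refine Finset.sum_congr rfl fun p' _ => ?_
      ring
    rw [h2, intervalIntegral.integral_finset_sum]
    · refine Finset.sum_congr rfl fun p hp => ?_
      rw [intervalIntegral.integral_finset_sum]
      · refine Finset.sum_congr rfl fun p' hp' => ?_
        rw [intervalIntegral.integral_mul_const]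
      · intro p' hp'
        exact (hai p hp p' hp').mul_const _
    · intro p hp
      have h3 : (fun u : ℝ => ∑ p' ∈ P,
          (((u ^ 2 / y0 : ℝ) : ℂ) * (c' p u * (starRingEnd ℂ) (c' p' u))) * ee (y * (x p - x p'))) =
          ∑ p' ∈ P, fun u : ℝ =>
          (((u ^ 2 / y0 : ℝ) : ℂ) * (c' p u * (starRingEnd ℂ) (c' p' u))) * ee (y * (x p - x p')) := by
        funext u; simp
      rw [h3]
      exact IntervalIntegrable.sum _ fun p' hp' => (hai p hp p' hp').mul_const _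
  have hquad := quad P x a hJ0 (by linarith) hJ le_rfl hab g hg0 hga
  have hS0 := ls0 P x (fun p => c p J) (B := B) hJ0 (a := y0) (b := J) (by linarith) hJ le_rfl
    (fun p hp => hc p hp J ⟨hJ, le_rfl⟩)
  -- pointwise
  have hpt : ∀ y ∈ Set.Icc y0 J, ‖∑ p ∈ P, c p y * ee (y * x p)‖ ^ 2 ≤
      2 * ‖∑ p ∈ P, c p J * ee (y * x p)‖ ^ 2 + 2 * g y := by
    intro y hy
    have hyJ : y ≤ J := hy.2
    have hsub : Set.Icc y J ⊆ Set.Icc y0 J := Set.Icc_subset_Icc hy.1 le_rfl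
    have huy : Set.uIcc y J = Set.Icc y J := Set.uIcc_of_le hyJ
    have hci : ∀ p ∈ P, IntervalIntegrable (c' p) volume y J := by
      intro p hp
      apply ContinuousOn.intervalIntegrable; rw [huy]; exact (hcont p hp).mono hsub
    have hF : ∑ p ∈ P, c p y * ee (y * x p) = ∑ p ∈ P, c p J * ee (y * x p) -
        ∫ u in y..J, ∑ p ∈ P, c' p u * ee (y * x p) := by
      rw [intervalIntegral.integral_finset_sum]
      · rw [← Finset.sum_sub_distrib]
        refine Finset.sum_congr rfl fun p hp => ?_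
        rw [intervalIntegral.integral_mul_const, ← sub_mul]
        congr 1
        have h1 : ∫ u in y..J, c' p u = c p J - c p y := by
          apply intervalIntegral.integral_eq_sub_of_hasDerivAt
          · intro u hu'
            rw [huy] at hu'
            exact hd p hp u (hsub hu')
          · exact hci p hp
        rw [h1]; ring
      · intro p hp
        exact (hci p hp).mul_const _
    have hnc : ContinuousOn (fun u => ‖∑ p ∈ P, c' p u * ee (y * x p)‖) (Set.Icc y0 J) := (hGc y).norm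
    have hni : IntervalIntegrable (fun u => ‖∑ p ∈ P, c' p u * ee (y * x p)‖) volume y0 J := by
      apply ContinuousOn.intervalIntegrable; rw [hu]; exact hnc
    set I : ℝ := ∫ u in y0..J, ‖∑ p ∈ P, c' p u * ee (y * x p)‖ with hI
    have hI1 : ‖∫ u in y..J, ∑ p ∈ P, c' p u * ee (y * x p)‖ ≤ I := by
      refine (intervalIntegral.norm_integral_le_integral_norm hyJ).trans ?_
      rw [hI]
      apply intervalIntegral.integral_mono_interval hy.1 hyJ le_rfl
      · exact Filter.Eventually.of_forall fun u => norm_nonneg _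
      · exact hni
    have hI0 : 0 ≤ I := intervalIntegral.integral_nonneg hJ fun u _ => norm_nonneg _
    have hI2 : I ^ 2 ≤ g y := by
      have h1 : ∫ u in y0..J, 2 * I * ‖∑ p ∈ P, c' p u * ee (y * x p)‖ ≤
          ∫ u in y0..J, (I ^ 2 * (y0 / u ^ 2) + (u ^ 2 / y0) * ‖∑ p ∈ P, c' p u * ee (y * x p)‖ ^ 2) := by
        apply intervalIntegral.integral_mono_on hJ (hni.const_mul _) ((hwi.const_mul _).add (hggi y))
        intro u hu'
        have hu0 : 0 < u := lt_of_lt_of_le hy0 hu'.1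
        set n := ‖∑ p ∈ P, c' p u * ee (y * x p)‖
        have h2 : I ^ 2 * (y0 / u ^ 2) + (u ^ 2 / y0) * n ^ 2 - 2 * I * n = (y0 / u ^ 2) * (I - (u ^ 2 / y0) * n) ^ 2 := by
          field_simp
          ring
        have h3 : 0 ≤ (y0 / u ^ 2) * (I - (u ^ 2 / y0) * n) ^ 2 := by positivity
        linarith
      rw [intervalIntegral.integral_const_mul, intervalIntegral.integral_add (hwi.const_mul _) (hggi y),
        intervalIntegral.integral_const_mul] at h1
      have h4 : I ^ 2 * ∫ u in y0..J, y0 / u ^ 2 ≤ I ^ 2 * 1 := mul_le_mul_of_nonneg_left hW (sq_nonneg _)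
      have h5 : 2 * I * I ≤ I ^ 2 * 1 + g y := le_trans h1 (by
        have : (∫ u in y0..J, (u ^ 2 / y0) * ‖∑ p ∈ P, c' p u * ee (y * x p)‖ ^ 2) = g y := rfl
        rw [this]; linarith)
      nlinarith
    have hnorm : ‖∑ p ∈ P, c p y * ee (y * x p)‖ ≤ ‖∑ p ∈ P, c p J * ee (y * x p)‖ + I := by
      rw [hF]
      exact (norm_sub_le _ _).trans (add_le_add le_rfl hI1)
    calc ‖∑ p ∈ P, c p y * ee (y * x p)‖ ^ 2 ≤ (‖∑ p ∈ P, c p J * ee (y * x p)‖ + I) ^ 2 :=
          pow_le_pow_left₀ (norm_nonneg _) hnorm 2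
      _ ≤ 2 * ‖∑ p ∈ P, c p J * ee (y * x p)‖ ^ 2 + 2 * I ^ 2 := by
          nlinarith [sq_nonneg (‖∑ p ∈ P, c p J * ee (y * x p)‖ - I)]
      _ ≤ _ := by linarith
  -- continuity of the two sides
  have hcc : ∀ p ∈ P, ContinuousOn (c p) (Set.Icc y0 J) := fun p hp y hy =>
    (hd p hp y hy).continuousAt.continuousWithinAt
  have hSi : IntervalIntegrable (fun y => ‖∑ p ∈ P, c p y * ee (y * x p)‖ ^ 2) volume y0 J := by
    apply ContinuousOn.intervalIntegrable; rw [hu]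
    apply ContinuousOn.pow
    apply ContinuousOn.norm
    refine continuousOn_finset_sum _ fun p hp => (hcc p hp).mul ?_
    exact (continuous_ee.comp (by fun_prop)).continuousOn
  have hS0i : IntervalIntegrable (fun y => 2 * ‖∑ p ∈ P, c p J * ee (y * x p)‖ ^ 2) volume y0 J := by
    apply Continuous.intervalIntegrable
    apply Continuous.mul continuous_const
    apply Continuous.pow
    apply Continuous.norm
    refine continuous_finset_sum _ fun p hp => continuous_const.mul ?_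
    exact continuous_ee.comp (by fun_prop)
  have hgcont : Continuous g := by
    have h1 : g = fun y => (∑ p ∈ P, ∑ p' ∈ P, a p p' * ee (y * (x p - x p'))).re := by
      funext y
      rw [← hga y, Complex.ofReal_re]
    rw [h1]
    apply Complex.continuous_re.comp
    refine continuous_finset_sum _ fun p _ => continuous_finset_sum _ fun p' _ => ?_
    exact continuous_const.mul (continuous_ee.comp (by fun_prop))
  have hgi : IntervalIntegrable (fun y => 2 * g y) volume y0 J :=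
    (continuous_const.mul hgcont).intervalIntegrable _ _
  have hE : 0 ≤ ∑ p ∈ P, ∑ p' ∈ P, Real.exp (-π * J ^ 2 * (x p - x p') ^ 2) :=
    Finset.sum_nonneg fun _ _ => Finset.sum_nonneg fun _ _ => (Real.exp_pos _).le
  calc ∫ y in y0..J, ‖∑ p ∈ P, c p y * ee (y * x p)‖ ^ 2
      ≤ ∫ y in y0..J, (2 * ‖∑ p ∈ P, c p J * ee (y * x p)‖ ^ 2 + 2 * g y) :=
        intervalIntegral.integral_mono_on hJ hSi (hS0i.add hgi) hpt
    _ = 2 * (∫ y in y0..J, ‖∑ p ∈ P, c p J * ee (y * x p)‖ ^ 2) + 2 * ∫ y in y0..J, g y := by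
        rw [intervalIntegral.integral_add hS0i hgi, intervalIntegral.integral_const_mul,
          intervalIntegral.integral_const_mul]
    _ ≤ 2 * (24 * J * B ^ 2 * ∑ p ∈ P, ∑ p' ∈ P, Real.exp (-π * J ^ 2 * (x p - x p') ^ 2)) +
        2 * (24 * J * B ^ 2 * ∑ p ∈ P, ∑ p' ∈ P, Real.exp (-π * J ^ 2 * (x p - x p') ^ 2)) := by
        linarith
    _ ≤ _ := by
        have : 0 ≤ J * B ^ 2 * ∑ p ∈ P, ∑ p' ∈ P, Real.exp (-π * J ^ 2 * (x p - x p') ^ 2) :=
          mul_nonneg (by positivity) hE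
        nlinarith

end Pool.Agent.H93.RS
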