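import Mathlib
import Pool.Agent.H93.RS.Defs
import Pool.Agent.H72.RS.Fej

/-!
# [H93 RS FJ]  Fejer kernels
-/

set_option autoImplicit false

namespace Pool.Agent.H93.RS

open Finset Real MeasureTheory

private theorem ee_eq (x : ℝ) : ee x = Complex.exp (2 * Real.pi * Complex.I * (x : ℝ)) := by
  unfold ee
  congr 1
  push_cast
  ring

private theorem ee_int_shift (n : ℕ) (u : ℝ) (m : ℤ) : ee (n * u) = ee (n * (u - m)) := by
  rw [ee_eq, ee_eq]
  have : (2 * Real.pi * Complex.I * ((n * u : ℝ) : ℝ) : ℂ) =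
      2 * Real.pi * Complex.I * ((n * (u - m) : ℝ) : ℝ) + ((n * m : ℤ) : ℂ) * (2 * Real.pi * Complex.I) := by
    push_cast; ring
  rw [this, Complex.exp_add, Complex.exp_int_mul_two_pi_mul_I, mul_one]

private theorem norm_ee_sub_one (x : ℝ) : ‖ee x - 1‖ = 2 * |Real.sin (π * x)| := by
  have h := Complex.norm_exp_I_mul_ofReal_sub_one (2 * π * x)
  unfold ee
  rw [mul_comm]
  rw [h, Real.norm_eq_abs, abs_mul, abs_of_pos (by norm_num : (0 : ℝ) < 2)]
  congr 3
  ring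

/-- The geometric sum of length `N` is at least `2N/π` for `N|v| ≤ 1/2`. -/
private theorem geom_low (N : ℕ) (v : ℝ) (h : (N : ℝ) * |v| ≤ 1 / 2) :
    2 / π * (N : ℝ) ≤ ‖∑ m ∈ Finset.range N, ee (m * v)‖ := by
  rcases Nat.eq_zero_or_pos N with h0 | h0
  · subst h0; simp
  have hN : (1 : ℝ) ≤ N := by exact_mod_cast h0
  rcases eq_or_ne v 0 with hv | hv
  · subst hv
    have : ∑ m ∈ Finset.range N, ee ((m : ℝ) * 0) = N := by
      have : ∀ m ∈ Finset.range N, ee ((m : ℝ) * 0) = 1 := by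
        intro m _
        unfold ee
        simp
      rw [Finset.sum_congr rfl this]
      simp
    rw [this, Complex.norm_natCast]
    have : 2 / π ≤ 1 := by
      rw [div_le_one Real.pi_pos]
      exact Real.two_le_pi
    nlinarith
  have hv0 : 0 < |v| := abs_pos.2 hv
  have hgeo : (∑ m ∈ Finset.range N, ee (m * v)) * (ee v - 1) = ee (N * v) - 1 := by
    have e1 : ∀ m ∈ Finset.range N, ee (m * v) = ee v ^ m := by
      intro m _
      unfold ee
      rw [← Complex.exp_nat_mul]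
      congr 1
      push_cast
      ring
    rw [Finset.sum_congr rfl e1, geom_sum_mul]
    congr 1
    unfold ee
    rw [← Complex.exp_nat_mul]
    congr 1
    push_cast
    ring
  have hn := congrArg norm hgeo
  rw [norm_mul, norm_ee_sub_one, norm_ee_sub_one] at hn
  -- |sin(π N v)| ≥ 2 N |v|
  have s1 : 2 * ((N : ℝ) * |v|) ≤ |Real.sin (π * (N * v))| := by
    have e : |Real.sin (π * (N * v))| = |Real.sin (π * (N * |v|))| := by
      rcases abs_choice v with h' | h'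
      · rw [h']
      · rw [h']
        have : π * ((N : ℝ) * -v) = -(π * (N * v)) := by ring
        rw [this, Real.sin_neg, abs_neg]
    rw [e]
    have h1 := Real.mul_le_sin (x := π * (N * |v|)) (by positivity)
      (by nlinarith [Real.pi_pos])
    refine le_trans ?_ (le_trans h1 (le_abs_self _))
    apply le_of_eq
    field_simp
  have s2 : |Real.sin (π * v)| ≤ π * |v| := by
    have := Real.abs_sin_le_abs (x := π * v)
    rw [abs_mul, abs_of_pos Real.pi_pos] at this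
    exact this
  have hS : 0 ≤ ‖∑ m ∈ Finset.range N, ee (m * v)‖ := norm_nonneg _
  have h2 : 2 * ((N : ℝ) * |v|) ≤ ‖∑ m ∈ Finset.range N, ee (m * v)‖ * (π * |v|) := by
    calc 2 * ((N : ℝ) * |v|) ≤ |Real.sin (π * (N * v))| := s1
      _ = ‖∑ m ∈ Finset.range N, ee (m * v)‖ * |Real.sin (π * v)| := by linarith
      _ ≤ _ := mul_le_mul_of_nonneg_left s2 hS
  rw [div_mul_eq_mul_div, div_le_iff₀ Real.pi_pos]
  have h3 : (2 * (N : ℝ)) * |v| ≤ (‖∑ m ∈ Finset.range N, ee (m * v)‖ * π) * |v| := by linarith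
  exact le_of_mul_le_mul_right h3 hv0

/-- `F_N(u) ≥ 4N/π²` for `‖u‖ ≤ 1/(2N)`; constant `π² ≤ 10` -/
theorem fj1 {R : ℝ} (hR : 1 ≤ R) {L : ℕ} (hL : R ≤ 2 ^ L) (u : ℝ) :
    ff R u ≤ 10 * ∑ k ∈ Finset.range (L + 2), (1 / 2 ^ k : ℝ) * ‖∑ m ∈ Finset.range (2 ^ k), ee (m * u)‖ ^ 2 := by
  set v : ℝ := u - round u with hv
  have hv2 : |v| ≤ 1 / 2 := abs_sub_round u
  have hv0 : 0 ≤ |v| := abs_nonneg v
  have key : ∀ k ∈ Finset.range (L + 2),
      (1 / 2 ^ k : ℝ) * ‖∑ m ∈ Finset.range (2 ^ k), ee (m * u)‖ ^ 2 ≤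
      ∑ k ∈ Finset.range (L + 2), (1 / 2 ^ k : ℝ) * ‖∑ m ∈ Finset.range (2 ^ k), ee (m * u)‖ ^ 2 := by
    intro k hk
    exact Finset.single_le_sum
      (f := fun k : ℕ => (1 / 2 ^ k : ℝ) * ‖∑ m ∈ Finset.range (2 ^ k), ee (m * u)‖ ^ 2)
      (fun i _ => by positivity) hk
  have good : ∀ k : ℕ, ((2 : ℝ) ^ k) * |v| ≤ 1 / 2 →
      4 * (2 : ℝ) ^ k ≤ 10 * ((1 / 2 ^ k : ℝ) * ‖∑ m ∈ Finset.range (2 ^ k), ee (m * u)‖ ^ 2) := by
    intro k hk
    have h1 := geom_low (2 ^ k) v (by push_cast; exact hk)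
    have e2 : ∑ m ∈ Finset.range (2 ^ k), ee (m * u) = ∑ m ∈ Finset.range (2 ^ k), ee (m * v) := by
      apply Finset.sum_congr rfl
      intro m _
      rw [hv]
      exact ee_int_shift m u (round u)
    rw [e2]
    push_cast at h1
    have hp : (0 : ℝ) < 2 ^ k := by positivity
    have h2 : (2 / π * (2 : ℝ) ^ k) ^ 2 ≤ ‖∑ m ∈ Finset.range (2 ^ k), ee (m * v)‖ ^ 2 :=
      pow_le_pow_left₀ (by positivity) h1 2
    have h3 : (1 / 2 ^ k : ℝ) * (2 / π * (2 : ℝ) ^ k) ^ 2 ≤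
        (1 / 2 ^ k : ℝ) * ‖∑ m ∈ Finset.range (2 ^ k), ee (m * v)‖ ^ 2 :=
      mul_le_mul_of_nonneg_left h2 (by positivity)
    have h4 : (1 / 2 ^ k : ℝ) * (2 / π * (2 : ℝ) ^ k) ^ 2 = 4 * 2 ^ k / π ^ 2 := by
      field_simp
      norm_num
    have h5 : π ^ 2 ≤ 10 := by
      have := Real.pi_lt_d2
      have h0 := Real.pi_pos
      norm_num at this
      nlinarith
    have h6 : 4 * (2 : ℝ) ^ k ≤ 10 * (4 * 2 ^ k / π ^ 2) := by
      rw [← mul_div_assoc, le_div_iff₀ (by positivity)]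
      nlinarith
    linarith
  -- trivial bounds of the left side
  have lhs1 : ff R u ≤ R := ff_le (by linarith) u
  have lhs2 : ∀ c : ℝ, 0 < c → c ≤ |v| → ff R u ≤ 1 / c := by
    intro c hc hcv
    unfold ff dz
    rw [← hv, div_le_div_iff₀ (by nlinarith) hc]
    have : R * c ≤ R * |v| := mul_le_mul_of_nonneg_left hcv (by linarith)
    linarith
  rw [Finset.mul_sum] at *
  have key2 : ∀ k ∈ Finset.range (L + 2),
      10 * ((1 / 2 ^ k : ℝ) * ‖∑ m ∈ Finset.range (2 ^ k), ee (m * u)‖ ^ 2) ≤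
      ∑ k ∈ Finset.range (L + 2), 10 * ((1 / 2 ^ k : ℝ) * ‖∑ m ∈ Finset.range (2 ^ k), ee (m * u)‖ ^ 2) := by
    intro k hk
    exact Finset.single_le_sum
      (f := fun k : ℕ => 10 * ((1 / 2 ^ k : ℝ) * ‖∑ m ∈ Finset.range (2 ^ k), ee (m * u)‖ ^ 2))
      (fun i _ => by positivity) hk
  by_cases hall : (2 : ℝ) ^ L * |v| ≤ 1 / 2
  · have h1 := good L hall
    have h2 := key2 L (by simp)
    have h3 : (0 : ℝ) < 2 ^ L := by positivity
    linarith
  · have hex : ∃ k, ¬ ((2 : ℝ) ^ k * |v| ≤ 1 / 2) := ⟨L, hall⟩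
    classical
    have hk1 := Nat.find_spec hex
    have hk2 : ∀ m, m < Nat.find hex → ((2 : ℝ) ^ m * |v| ≤ 1 / 2) := by
      intro m hm
      have := Nat.find_min hex hm
      push Not at this
      exact this
    have hk0 : Nat.find hex ≠ 0 := by
      intro h0
      rw [h0] at hk1
      apply hk1
      rw [pow_zero, one_mul]
      exact hv2
    obtain ⟨k, hk⟩ := Nat.exists_eq_succ_of_ne_zero hk0
    have hkL : Nat.find hex ≤ L := Nat.find_min' hex hall
    rw [hk] at hk1 hk2 hkL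
    have hka := hk2 k (Nat.lt_succ_self k)
    push Not at hk1
    have h1 := good k hka
    have h2 := key2 k (by simp; omega)
    have h3 : 1 / (4 * (2 : ℝ) ^ k) ≤ |v| := by
      rw [div_le_iff₀ (by positivity)]
      have : (2 : ℝ) ^ (k + 1) * |v| = 2 * (2 ^ k * |v|) := by rw [pow_succ]; ring
      have h4 : (1 : ℝ) / 2 < 2 ^ (k + 1) * |v| := hk1
      rw [this] at h4
      have h5 : |v| * (4 * (2 : ℝ) ^ k) = 2 * (2 * (2 ^ k * |v|)) := by ring
      rw [h5]
      have h6 := mul_le_mul_of_nonneg_left h4.le (by norm_num : (0 : ℝ) ≤ 2)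
      norm_num at h6
      exact h6
    have h4 := lhs2 _ (by positivity) h3
    rw [one_div_one_div] at h4
    linarith

private theorem ee_re (x : ℝ) : (ee x).re = Real.cos (2 * π * x) := by
  unfold ee
  exact Complex.exp_ofReal_mul_I_re _

theorem fj2 {N : ℕ} (hN : 1 ≤ N) (u : ℝ) :
    (1 / N : ℝ) * ‖∑ m ∈ Finset.range N, ee (m * u)‖ ^ 2 =
      1 + 2 * (∑ m ∈ Finset.Ico 1 N, (((1 - (m : ℝ) / N : ℝ)) : ℂ) * ee (m * u)).re := by
  have e1 : ∑ m ∈ Finset.range N, ee (m * u) =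
      ∑ m ∈ Finset.range N, Complex.exp (2 * Real.pi * Complex.I * (m * u : ℝ)) :=
    Finset.sum_congr rfl fun m _ => ee_eq _
  rw [e1, H72.RS.fejer]
  have hN0 : (N : ℝ) ≠ 0 := by
    have : 0 < N := hN
    positivity
  rw [mul_add, one_div, inv_mul_cancel₀ hN0]
  congr 1
  rw [mul_left_comm, Finset.mul_sum, Complex.re_sum]
  congr 1
  apply Finset.sum_congr rfl
  intro m _
  rw [Complex.re_ofReal_mul, ee_re]
  field_simp

end Pool.Agent.H93.RS
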