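import Mathlib
import Pool.Agent.H93.RS.Defs
import Pool.Agent.H93.RS.Th
import Pool.Agent.H93.RS.Amp
import Pool.Agent.H93.RS.Fj
import Pool.Agent.H93.RS.Gs

/-!
# [H93 RS T2P]  pointwise bound of q
-/

set_option autoImplicit false

namespace Pool.Agent.H93.RS

open Finset Real MeasureTheory

/-- The gaussian weight in `j`. -/
noncomputable def wj (η κ y : ℝ) (j : ℤ) : ℝ := Real.exp (-(π * η * ((j : ℝ) / (2 * y) - κ) ^ 2))

theorem wj_pos (η κ y : ℝ) (j : ℤ) : 0 < wj η κ y j := Real.exp_pos _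

theorem wj_summable {η κ y : ℝ} (hη : 1 ≤ η) (hy : 0 < y) : Summable (wj η κ y) := by
  unfold wj
  exact gs_summable (a := 2 * y) (c := π * η) (κ := κ) (by positivity) (by positivity)

theorem wj_tsum {η κ y : ℝ} (hη : 1 ≤ η) (hy : 0 < y) : ∑' j : ℤ, wj η κ y j ≤ 20 * (1 + y) := by
  have h := gs_le (a := 2 * y) (c := π * η) (κ := κ) (by positivity)
    (by nlinarith [Real.pi_gt_three])
  unfold wj
  linarith

/-- The complex gaussian sum in `j`, theta transformed. -/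
theorem wj_theta {η κ y : ℝ} (hη : 1 ≤ η) (hy : 0 < y) {m : ℕ} (hm : 1 ≤ m) :
    ∑' j : ℤ, ((wj η κ y j : ℝ) : ℂ) * ee (m * ph j y) =
      ∑' l : ℤ, g2 η m ((l : ℝ) / m - κ) y * ee (y * xx m l) := by
  have hm0 : (0 : ℝ) < m := by exact_mod_cast hm
  have h := th2 (η := η) (y := y) (m := m) (κ := κ) (by linarith) hy hm0
  have e1 : ∀ j : ℤ, ((wj η κ y j : ℝ) : ℂ) * ee (m * ph j y) =
      ee (m * y) * (((Real.exp (-(π * η * ((j : ℝ) / (2 * y) - κ) ^ 2)) : ℝ) : ℂ) *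
        ee (m * (j : ℝ) ^ 2 / (4 * y))) := by
    intro j
    have : (m : ℝ) * ph j y = m * y + m * (j : ℝ) ^ 2 / (4 * y) := by unfold ph; ring
    rw [this, ee_add]
    unfold wj
    ring
  have e2 : ∀ l : ℤ, g2 η m ((l : ℝ) / m - κ) y * ee (y * xx m l) =
      ee (m * y) * (g2 η m ((l : ℝ) / m - κ) y * ee (-(y * (l : ℝ) ^ 2 / m))) := by
    intro l
    have : y * xx m l = m * y + -(y * (l : ℝ) ^ 2 / m) := by unfold xx; ring
    rw [this, ee_add]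
    ring
  rw [tsum_congr e1, tsum_congr e2, tsum_mul_left, tsum_mul_left, h]

/-- The size of `g2` far from the centre. -/
theorem g2_bd {θ θ' η κ y : ℝ} (hη : 1 ≤ η) (hy : η ≤ y) (hκ : |κ| ≤ θ) (hθ : θ < θ') {m : ℕ}
    (hm : 1 ≤ m) (l : ℤ) :
    ‖g2 η m ((l : ℝ) / m - κ) y‖ ≤
      √y * √(2 / m) * Real.exp (-(1 / 2 * ((l : ℝ) / m - κ) ^ 2)) ∧
    (l ∉ Jn (θ' * m) → ‖g2 η m ((l : ℝ) / m - κ) y‖ ≤
      √y * √(2 / m) * Real.exp (-((θ' - θ) ^ 2 / 2 * η)) *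
        Real.exp (-(1 / 2 * ((l : ℝ) / m - κ) ^ 2))) := by
  have hy0 : 0 < y := by linarith
  have hm0 : (1 : ℝ) ≤ m := by exact_mod_cast hm
  set δ : ℝ := (l : ℝ) / m - κ with hδ
  have h1 := g2_norm (η := η) (m := m) (δ := δ) (y := y) (by linarith) hy0 (by linarith)
    (by nlinarith)
  have hsy : 0 < √y := Real.sqrt_pos.2 hy0
  rw [norm_div, Complex.norm_real, Real.norm_eq_abs, abs_of_pos hsy, div_le_iff₀ hsy] at h1
  have h2 : ‖g2 η m δ y‖ ≤ √y * √(2 / m) * Real.exp (-(η * δ ^ 2)) := by linarith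
  have hd : 0 ≤ δ ^ 2 := sq_nonneg _
  constructor
  · refine le_trans h2 ?_
    apply mul_le_mul_of_nonneg_left _ (by positivity)
    apply Real.exp_le_exp.2
    nlinarith
  · intro hl
    refine le_trans h2 ?_
    rw [mul_assoc (√y * √(2 / (m : ℝ)))]
    apply mul_le_mul_of_nonneg_left _ (by positivity)
    rw [← Real.exp_add]
    apply Real.exp_le_exp.2
    rw [mem_Jn] at hl
    push Not at hl
    have h3 : θ' < |(l : ℝ) / m| := by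
      rw [abs_div, abs_of_pos (by linarith : (0 : ℝ) < m), lt_div_iff₀ (by linarith)]
      exact hl
    have h4 : θ' - θ ≤ |δ| := by
      have := abs_sub_abs_le_abs_sub ((l : ℝ) / m) κ
      rw [hδ]
      linarith
    have h5 : (θ' - θ) ^ 2 ≤ δ ^ 2 := by
      rw [← sq_abs δ]
      apply pow_le_pow_left₀ (by linarith) h4
    nlinarith

/-- The theta transformed sum, up to a small tail. -/
theorem tail {θ θ' η κ y : ℝ} (hη : 1 ≤ η) (hy : η ≤ y) (hκ : |κ| ≤ θ) (hθ : θ < θ') {m : ℕ}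
    (hm : 1 ≤ m) :
    ‖(∑' l : ℤ, g2 η m ((l : ℝ) / m - κ) y * ee (y * xx m l)) -
      ∑ l ∈ Jn (θ' * m), g2 η m ((l : ℝ) / m - κ) y * ee (y * xx m l)‖ ≤
      30 * m * (√y * Real.exp (-((θ' - θ) ^ 2 / 2 * η))) := by
  have hy0 : 0 < y := by linarith
  have hm0 : (1 : ℝ) ≤ m := by exact_mod_cast hm
  have hgs : Summable (fun l : ℤ => Real.exp (-(1 / 2 * ((l : ℝ) / m - κ) ^ 2))) :=
    gs_summable (a := m) (c := 1 / 2) (κ := κ) (by linarith) (by norm_num)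
  have hgl := gs_le (a := m) (c := 1 / 2) (κ := κ) (by linarith) (by norm_num)
  have hG : Summable (fun l : ℤ => g2 η m ((l : ℝ) / m - κ) y * ee (y * xx m l)) := by
    apply Summable.of_norm_bounded (hgs.mul_left (√y * √(2 / m)))
    intro l
    rw [norm_mul, norm_ee, mul_one]
    exact (g2_bd hη hy hκ hθ hm l).1
  classical
  have h1 : HasSum (fun l : ℤ => if l ∈ Jn (θ' * m) then g2 η m ((l : ℝ) / m - κ) y * ee (y * xx m l)
      else 0) (∑ l ∈ Jn (θ' * m), g2 η m ((l : ℝ) / m - κ) y * ee (y * xx m l)) := by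
    have h := hasSum_sum_of_ne_finset_zero (s := Jn (θ' * m))
      (f := fun l : ℤ => if l ∈ Jn (θ' * m) then g2 η m ((l : ℝ) / m - κ) y * ee (y * xx m l)
      else 0) (L := SummationFilter.unconditional ℤ) (fun l hl => by simp [hl])
    have e : ∑ l ∈ Jn (θ' * m), (if l ∈ Jn (θ' * m) then g2 η m ((l : ℝ) / m - κ) y * ee (y * xx m l)
      else 0) = ∑ l ∈ Jn (θ' * m), g2 η m ((l : ℝ) / m - κ) y * ee (y * xx m l) :=
      Finset.sum_congr rfl fun l hl => by simp [hl]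
    rw [e] at h
    exact h
  have h2 := hG.hasSum.sub h1
  have h3 := (hgs.mul_left (√y * √(2 / m) * Real.exp (-((θ' - θ) ^ 2 / 2 * η)))).hasSum
  have h4 := HasSum.norm_le_of_bounded h2 h3 (by
    intro l
    by_cases hl : l ∈ Jn (θ' * m)
    · simp only [hl, if_true, sub_self, norm_zero]
      positivity
    · simp only [hl, if_false, sub_zero]
      rw [norm_mul, norm_ee, mul_one]
      exact (g2_bd hη hy hκ hθ hm l).2 hl)
  refine le_trans h4 ?_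
  rw [tsum_mul_left]
  have h5 : √(2 / (m : ℝ)) ≤ 3 / 2 := by
    rw [Real.sqrt_le_left (by norm_num)]
    rw [div_le_iff₀ (by linarith)]
    norm_num
    linarith
  set E := Real.exp (-((θ' - θ) ^ 2 / 2 * η)) with hE
  have hE0 : 0 < E := Real.exp_pos _
  have hsy : 0 < √y := Real.sqrt_pos.2 hy0
  calc √y * √(2 / (m : ℝ)) * E * ∑' l : ℤ, Real.exp (-(1 / 2 * ((l : ℝ) / m - κ) ^ 2)) ≤
      √y * (3 / 2) * E * (10 * (1 + m)) := by gcongr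
    _ ≤ √y * (3 / 2) * E * (10 * (2 * m)) := by gcongr; linarith
    _ = 30 * m * (√y * E) := by ring

/-- One Fejer kernel, one cell. -/
theorem one_cell {θ θ' η κ y : ℝ} (hη : 1 ≤ η) (hy : η ≤ y) (hκ : |κ| ≤ θ) (hθ : θ < θ') (k : ℕ) :
    Summable (fun j : ℤ => wj η κ y j *
      ((1 / 2 ^ k : ℝ) * ‖∑ m ∈ Finset.range (2 ^ k), ee (m * ph j y)‖ ^ 2)) ∧
    ∑' j : ℤ, wj η κ y j *
      ((1 / 2 ^ k : ℝ) * ‖∑ m ∈ Finset.range (2 ^ k), ee (m * ph j y)‖ ^ 2) ≤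
      60 * ((1 + y) + ‖∑ m ∈ Finset.Ico (1 : ℕ) (2 ^ k), ∑ l ∈ Jn (θ' * m),
            (((1 - (m : ℝ) / 2 ^ k : ℝ)) : ℂ) * g2 η m ((l : ℝ) / m - κ) y * ee (y * xx m l)‖ +
          √y * 4 ^ k * Real.exp (-((θ' - θ) ^ 2 / 2 * η))) := by
  have hy0 : 0 < y := by linarith
  have hw := wj_summable (η := η) (κ := κ) (y := y) hη hy0
  have hT : ∀ m : ℕ, Summable (fun j : ℤ => ((wj η κ y j : ℝ) : ℂ) * ee (m * ph j y)) := by
    intro m
    apply Summable.of_norm_bounded hw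
    intro j
    rw [norm_mul, norm_ee, mul_one, Complex.norm_real, Real.norm_eq_abs, abs_of_pos (wj_pos _ _ _ _)]
  have h1 : HasSum (fun j : ℤ => ∑ m ∈ Finset.Ico (1 : ℕ) (2 ^ k), (((1 - (m : ℝ) / 2 ^ k : ℝ)) : ℂ) *
      (((wj η κ y j : ℝ) : ℂ) * ee (m * ph j y)))
      (∑ m ∈ Finset.Ico (1 : ℕ) (2 ^ k), (((1 - (m : ℝ) / 2 ^ k : ℝ)) : ℂ) *
        ∑' j : ℤ, ((wj η κ y j : ℝ) : ℂ) * ee (m * ph j y)) := by
    apply hasSum_sum
    intro m _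
    exact (hT m).hasSum.mul_left _
  have h2 := hw.hasSum.add ((Complex.hasSum_re h1).mul_left 2)
  have h3 : (fun j : ℤ => wj η κ y j *
      ((1 / 2 ^ k : ℝ) * ‖∑ m ∈ Finset.range (2 ^ k), ee (m * ph j y)‖ ^ 2)) =
      (fun j : ℤ => wj η κ y j + 2 * (∑ m ∈ Finset.Ico (1 : ℕ) (2 ^ k),
        (((1 - (m : ℝ) / 2 ^ k : ℝ)) : ℂ) * (((wj η κ y j : ℝ) : ℂ) * ee (m * ph j y))).re) := by
    funext j
    have h := fj2 (N := 2 ^ k) Nat.one_le_two_pow (ph j y)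
    push_cast at h
    rw [h, mul_add, mul_one, mul_left_comm]
    congr 2
    rw [← Complex.re_ofReal_mul, Finset.mul_sum]
    congr 1
    apply Finset.sum_congr rfl
    intro m _
    push_cast
    ring
  rw [← h3] at h2
  refine ⟨h2.summable, ?_⟩
  rw [h2.tsum_eq]
  -- the main part
  have hw2 := wj_tsum (η := η) (κ := κ) (y := y) hη hy0
  set E := Real.exp (-((θ' - θ) ^ 2 / 2 * η)) with hE
  set M := ∑ m ∈ Finset.Ico (1 : ℕ) (2 ^ k), ∑ l ∈ Jn (θ' * m),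
            (((1 - (m : ℝ) / 2 ^ k : ℝ)) : ℂ) * g2 η m ((l : ℝ) / m - κ) y * ee (y * xx m l) with hM
  have h4 : ‖(∑ m ∈ Finset.Ico (1 : ℕ) (2 ^ k), (((1 - (m : ℝ) / 2 ^ k : ℝ)) : ℂ) *
        ∑' j : ℤ, ((wj η κ y j : ℝ) : ℂ) * ee (m * ph j y)) - M‖ ≤ 30 * (√y * 4 ^ k * E) := by
    rw [hM, ← Finset.sum_sub_distrib]
    have h5 : ∀ m ∈ Finset.Ico (1 : ℕ) (2 ^ k), ‖(((1 - (m : ℝ) / 2 ^ k : ℝ)) : ℂ) *
        (∑' j : ℤ, ((wj η κ y j : ℝ) : ℂ) * ee (m * ph j y)) -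
        ∑ l ∈ Jn (θ' * m), (((1 - (m : ℝ) / 2 ^ k : ℝ)) : ℂ) * g2 η m ((l : ℝ) / m - κ) y *
          ee (y * xx m l)‖ ≤ 30 * 2 ^ k * (√y * E) := by
      intro m hm
      rw [Finset.mem_Ico] at hm
      have hmk : (m : ℝ) ≤ 2 ^ k := by
        have := hm.2.le
        exact_mod_cast this
      rw [wj_theta hη hy0 hm.1]
      have e : ∑ l ∈ Jn (θ' * m), (((1 - (m : ℝ) / 2 ^ k : ℝ)) : ℂ) * g2 η m ((l : ℝ) / m - κ) y *
          ee (y * xx m l) = (((1 - (m : ℝ) / 2 ^ k : ℝ)) : ℂ) *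
            ∑ l ∈ Jn (θ' * m), g2 η m ((l : ℝ) / m - κ) y * ee (y * xx m l) := by
        rw [Finset.mul_sum]
        apply Finset.sum_congr rfl
        intro l _
        ring
      rw [e, ← mul_sub, norm_mul, Complex.norm_real, Real.norm_eq_abs]
      have h6 : |1 - (m : ℝ) / 2 ^ k| ≤ 1 := by
        have hp : (0 : ℝ) < 2 ^ k := by positivity
        have h7 : (m : ℝ) / 2 ^ k ≤ 1 := by rw [div_le_one hp]; exact hmk
        have h8 : 0 ≤ (m : ℝ) / 2 ^ k := by positivity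
        rw [abs_le]
        constructor <;> linarith
      have h9 := tail (θ' := θ') hη hy hκ hθ hm.1
      calc |1 - (m : ℝ) / 2 ^ k| * ‖(∑' l : ℤ, g2 η m ((l : ℝ) / m - κ) y * ee (y * xx m l)) -
            ∑ l ∈ Jn (θ' * m), g2 η m ((l : ℝ) / m - κ) y * ee (y * xx m l)‖
          ≤ 1 * (30 * m * (√y * E)) := by
            apply mul_le_mul h6 h9 (norm_nonneg _) (by norm_num)
        _ ≤ 30 * 2 ^ k * (√y * E) := by
            rw [one_mul]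
            gcongr
    refine le_trans (norm_sum_le _ _) (le_trans (Finset.sum_le_sum h5) ?_)
    rw [Finset.sum_const, nsmul_eq_mul, Nat.card_Ico]
    have h10 : ((2 ^ k - 1 : ℕ) : ℝ) ≤ 2 ^ k := by
      have : 2 ^ k - 1 ≤ 2 ^ k := Nat.sub_le _ _
      exact_mod_cast this
    have h11 : (4 : ℝ) ^ k = 2 ^ k * 2 ^ k := by
      rw [← mul_pow]; norm_num
    calc ((2 ^ k - 1 : ℕ) : ℝ) * (30 * 2 ^ k * (√y * E)) ≤ 2 ^ k * (30 * 2 ^ k * (√y * E)) := by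
          gcongr
      _ = 30 * (√y * 4 ^ k * E) := by rw [h11]; ring
  have h12 : (∑ m ∈ Finset.Ico (1 : ℕ) (2 ^ k), (((1 - (m : ℝ) / 2 ^ k : ℝ)) : ℂ) *
        ∑' j : ℤ, ((wj η κ y j : ℝ) : ℂ) * ee (m * ph j y)).re ≤ ‖M‖ + 30 * (√y * 4 ^ k * E) := by
    refine le_trans (Complex.re_le_norm _) ?_
    have := norm_sub_norm_le (∑ m ∈ Finset.Ico (1 : ℕ) (2 ^ k), (((1 - (m : ℝ) / 2 ^ k : ℝ)) : ℂ) *
        ∑' j : ℤ, ((wj η κ y j : ℝ) : ℂ) * ee (m * ph j y)) M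
    linarith
  have hM0 : 0 ≤ ‖M‖ := norm_nonneg _
  linarith

/-- `f ≤ 10 ∑_k F_{2^k}`; `1 ≤ 3∑_κ exp(-πη(j/2y-κ)²)` for `|j| ≤ 2θy`; `fj2`; `th2` in `j`; terms `|l| > θ'm` by `g2_norm` and `gs_le` -/
theorem t2p {θ θ' : ℝ} (hθ : 0 < θ) (h : θ < θ') (h1 : θ' < 1) : ∃ C c : ℝ, 0 < C ∧ 0 < c ∧
    ∀ R : ℝ, 1 ≤ R → ∀ L : ℕ, R ≤ 2 ^ L → ∀ η : ℝ, 1 ≤ η → ∀ K : Finset ℝ, (∀ κ ∈ K, |κ| ≤ θ) →
      (∀ x : ℝ, |x| ≤ θ → 1 ≤ 3 * ∑ κ ∈ K, Real.exp (-(π * η * (x - κ) ^ 2))) → ∀ y : ℝ, η ≤ y →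
      qq θ R y ≤ C * ∑ k ∈ Finset.range (L + 2), ∑ κ ∈ K,
        ((1 + y) + ‖∑ m ∈ Finset.Ico (1 : ℕ) (2 ^ k), ∑ l ∈ Jn (θ' * m),
            (((1 - (m : ℝ) / 2 ^ k : ℝ)) : ℂ) * g2 η m ((l : ℝ) / m - κ) y * ee (y * xx m l)‖ +
          √y * 4 ^ k * Real.exp (-(c * η))) := by
  refine ⟨1800, (θ' - θ) ^ 2 / 2, by norm_num, by
    have : 0 < θ' - θ := by linarith
    positivity, ?_⟩
  intro R hR L hL η hη K hK hcov y hy
  have hy0 : 0 < y := by linarith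
  unfold qq
  set Fk : ℕ → ℤ → ℝ := fun k j =>
    (1 / 2 ^ k : ℝ) * ‖∑ m ∈ Finset.range (2 ^ k), ee (m * ph j y)‖ ^ 2 with hFk
  have hF0 : ∀ k j, 0 ≤ Fk k j := fun k j => by rw [hFk]; positivity
  -- pointwise
  have p1 : ∀ j ∈ Jn (2 * θ * y), ff R (ph j y) ≤
      30 * ∑ k ∈ Finset.range (L + 2), ∑ κ ∈ K, wj η κ y j * Fk k j := by
    intro j hj
    rw [mem_Jn] at hj
    have hx : |(j : ℝ) / (2 * y)| ≤ θ := by
      rw [abs_div, abs_of_pos (by linarith : (0 : ℝ) < 2 * y), div_le_iff₀ (by linarith)]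
      linarith
    have hc := hcov _ hx
    have hf := fj1 hR hL (ph j y)
    have hS0 : 0 ≤ ∑ k ∈ Finset.range (L + 2), Fk k j := Finset.sum_nonneg fun k _ => hF0 k j
    have e : ∑ k ∈ Finset.range (L + 2), ∑ κ ∈ K, wj η κ y j * Fk k j =
        (∑ κ ∈ K, wj η κ y j) * ∑ k ∈ Finset.range (L + 2), Fk k j := by
      rw [Finset.sum_comm, Finset.sum_mul]
      apply Finset.sum_congr rfl
      intro κ _
      rw [Finset.mul_sum]
    rw [e]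
    have hc' : 1 ≤ 3 * ∑ κ ∈ K, wj η κ y j := hc
    have hf' : ff R (ph j y) ≤ 10 * ∑ k ∈ Finset.range (L + 2), Fk k j := hf
    nlinarith [mul_le_mul_of_nonneg_right hc' hS0]
  refine le_trans (Finset.sum_le_sum p1) ?_
  rw [← Finset.mul_sum, Finset.sum_comm]
  have p2 : ∀ k ∈ Finset.range (L + 2), ∑ j ∈ Jn (2 * θ * y), ∑ κ ∈ K, wj η κ y j * Fk k j ≤
      ∑ κ ∈ K, 60 * ((1 + y) + ‖∑ m ∈ Finset.Ico (1 : ℕ) (2 ^ k), ∑ l ∈ Jn (θ' * m),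
            (((1 - (m : ℝ) / 2 ^ k : ℝ)) : ℂ) * g2 η m ((l : ℝ) / m - κ) y * ee (y * xx m l)‖ +
          √y * 4 ^ k * Real.exp (-((θ' - θ) ^ 2 / 2 * η))) := by
    intro k _
    rw [Finset.sum_comm]
    apply Finset.sum_le_sum
    intro κ hκ
    have hc := one_cell (θ' := θ') hη hy (hK κ hκ) h k
    refine le_trans ?_ hc.2
    exact hc.1.sum_le_tsum _ (fun j _ => mul_nonneg (wj_pos _ _ _ _).le (hF0 k j))
  have p3 := Finset.sum_le_sum p2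
  have e3 : ∑ k ∈ Finset.range (L + 2), ∑ κ ∈ K, 60 * ((1 + y) +
      ‖∑ m ∈ Finset.Ico (1 : ℕ) (2 ^ k), ∑ l ∈ Jn (θ' * m),
            (((1 - (m : ℝ) / 2 ^ k : ℝ)) : ℂ) * g2 η m ((l : ℝ) / m - κ) y * ee (y * xx m l)‖ +
          √y * 4 ^ k * Real.exp (-((θ' - θ) ^ 2 / 2 * η))) =
      60 * ∑ k ∈ Finset.range (L + 2), ∑ κ ∈ K, ((1 + y) +
      ‖∑ m ∈ Finset.Ico (1 : ℕ) (2 ^ k), ∑ l ∈ Jn (θ' * m),
            (((1 - (m : ℝ) / 2 ^ k : ℝ)) : ℂ) * g2 η m ((l : ℝ) / m - κ) y * ee (y * xx m l)‖ +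
          √y * 4 ^ k * Real.exp (-((θ' - θ) ^ 2 / 2 * η))) := by
    rw [Finset.mul_sum]
    apply Finset.sum_congr rfl
    intro k _
    rw [Finset.mul_sum]
  rw [e3] at p3
  linarith

end Pool.Agent.H93.RS
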