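import Mathlib
import Pool.Agent.H93.RS.Defs
import Pool.Agent.H93.RS.T2p
import Pool.Agent.H93.RS.Ls
import Pool.Agent.H93.RS.Small
import Pool.Agent.H93.RS.Cov
import Pool.Agent.H93.RS.Msr
import Pool.Agent.H93.RS.Ex

/-!
# [H93 RS T2]  Q in terms of A
-/

set_option autoImplicit false

namespace Pool.Agent.H93.RS

open Finset Real MeasureTheory

/-- coefficient of one block -/
noncomputable def cc (η κ : ℝ) (k : ℕ) (p : Σ _ : ℕ, ℤ) (y : ℝ) : ℂ :=
  (((1 - (p.1 : ℝ) / 2 ^ k : ℝ)) : ℂ) * (g2 η p.1 ((p.2 : ℝ) / p.1 - κ) y / ((√y : ℝ) : ℂ))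

/-- one block -/
noncomputable def bb (θ' η κ : ℝ) (k i : ℕ) (y : ℝ) : ℂ :=
  ∑ p ∈ PP θ' (2 ^ i), cc η κ k p y * ee (y * xx p.1 p.2)

theorem dyadic_split (k : ℕ) (F : ℕ → ℂ) :
    ∑ m ∈ Finset.Ico (1 : ℕ) (2 ^ k), F m =
      ∑ i ∈ Finset.range k, ∑ m ∈ Finset.Ico (2 ^ i) (2 * 2 ^ i), F m := by
  induction k with
  | zero => simp
  | succ k ih =>
    rw [Finset.sum_range_succ, ← ih, pow_succ, mul_comm (2 ^ k) 2]
    rw [Finset.sum_Ico_consecutive _ Nat.one_le_two_pow (by omega)]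

theorem block_sum {θ' η κ y : ℝ} (hy : 0 < y) (k : ℕ) :
    ∑ m ∈ Finset.Ico (1 : ℕ) (2 ^ k), ∑ l ∈ Jn (θ' * m),
            (((1 - (m : ℝ) / 2 ^ k : ℝ)) : ℂ) * g2 η m ((l : ℝ) / m - κ) y * ee (y * xx m l) =
      ((√y : ℝ) : ℂ) * ∑ i ∈ Finset.range k, bb θ' η κ k i y := by
  have hs : ((√y : ℝ) : ℂ) ≠ 0 := by
    have := Real.sqrt_pos.2 hy
    exact_mod_cast this.ne'
  rw [dyadic_split, Finset.mul_sum]
  apply Finset.sum_congr rfl
  intro i _
  unfold bb PP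
  rw [Finset.sum_sigma, Finset.mul_sum]
  apply Finset.sum_congr rfl
  intro m _
  rw [Finset.mul_sum]
  apply Finset.sum_congr rfl
  intro l _
  unfold cc
  simp only
  field_simp

/-- The integral of the square of one block. -/
theorem blk {θ' η κ J : ℝ} (hη : 1 ≤ η) (hJ : η ≤ J) {k i : ℕ} (hik : i < k) :
    ContinuousOn (fun y => bb θ' η κ k i y) (Set.Icc η J) ∧
    ∫ y in η..J, ‖bb θ' η κ k i y‖ ^ 2 ≤ 3600 * J * (AA θ' (2 ^ i) J / 2 ^ i) := by
  have hη0 : 0 < η := by linarith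
  have H : ∀ p : (Σ _ : ℕ, ℤ), ∃ h' : ℝ → ℂ, 0 < p.1 → (ContinuousOn h' (Set.Ioi 0) ∧
    ∀ y : ℝ, 0 < y → HasDerivAt (fun y : ℝ => g2 η p.1 ((p.2 : ℝ) / p.1 - κ) y / ((√y : ℝ) : ℂ)) (h' y) y ∧
      (η ≤ 2 * y * p.1 → ‖h' y‖ ≤ 3 * (η / (p.1 * y ^ 2)) *
        (√(2 / p.1) * Real.exp (-(η * ((p.2 : ℝ) / p.1 - κ) ^ 2))))) := by
    intro p
    by_cases hp : 0 < p.1
    · have hp' : (0 : ℝ) < p.1 := by exact_mod_cast hp
      obtain ⟨h', hh⟩ := g2_deriv (η := η) (m := p.1) (δ := (p.2 : ℝ) / p.1 - κ) hη0 hp'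
      exact ⟨h', fun _ => hh⟩
    · exact ⟨0, fun h => absurd h hp⟩
  choose h' hh using H
  have hPP : ∀ p ∈ PP θ' (2 ^ i), 2 ^ i ≤ p.1 ∧ p.1 < 2 * 2 ^ i := by
    intro p hp
    unfold PP at hp
    rw [Finset.mem_sigma, Finset.mem_Ico] at hp
    exact hp.1
  have hp1 : ∀ p ∈ PP θ' (2 ^ i), 0 < p.1 := fun p hp =>
    lt_of_lt_of_le (by positivity) (hPP p hp).1
  have hp2 : ∀ p ∈ PP θ' (2 ^ i), (2 : ℝ) ^ i ≤ p.1 := fun p hp => by
    have := (hPP p hp).1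
    exact_mod_cast this
  have hp3 : ∀ p ∈ PP θ' (2 ^ i), ‖(((1 - (p.1 : ℝ) / 2 ^ k : ℝ)) : ℂ)‖ ≤ 1 := fun p hp => by
    have h1 := (hPP p hp).2
    have h2 : 2 * 2 ^ i ≤ 2 ^ k := by
      calc 2 * 2 ^ i = 2 ^ (i + 1) := by rw [pow_succ, mul_comm]
        _ ≤ 2 ^ k := Nat.pow_le_pow_right (by norm_num) hik
    have h3 : (p.1 : ℝ) ≤ 2 ^ k := by
      have : p.1 ≤ 2 ^ k := by omega
      exact_mod_cast this
    have hp : (0 : ℝ) < 2 ^ k := by positivity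
    have h7 : (p.1 : ℝ) / 2 ^ k ≤ 1 := by rw [div_le_one hp]; exact h3
    have h8 : 0 ≤ (p.1 : ℝ) / 2 ^ k := by positivity
    rw [Complex.norm_real, Real.norm_eq_abs, abs_le]
    constructor <;> linarith
  have hsq : ∀ p ∈ PP θ' (2 ^ i), √(2 / (p.1 : ℝ)) ≤ √(2 / 2 ^ i) := fun p hp => by
    apply Real.sqrt_le_sqrt
    apply div_le_div_of_nonneg_left (by norm_num) (by positivity) (hp2 p hp)
  have hexp : ∀ x : ℝ, Real.exp (-(η * x ^ 2)) ≤ 1 := fun x => by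
    rw [Real.exp_le_one_iff]
    have : 0 ≤ η * x ^ 2 := by positivity
    linarith
  set B0 : ℝ := 3 * √(2 / 2 ^ i) with hB0
  have hs0 : 0 ≤ √(2 / (2 : ℝ) ^ i) := Real.sqrt_nonneg _
  -- derivative
  have hd : ∀ p ∈ PP θ' (2 ^ i), ∀ y ∈ Set.Icc η J, HasDerivAt (cc η κ k p)
      ((((1 - (p.1 : ℝ) / 2 ^ k : ℝ)) : ℂ) * h' p y) y := by
    intro p hp y hy
    have := ((hh p (hp1 p hp)).2 y (by linarith [hy.1])).1
    exact this.const_mul _
  have hcont : ∀ p ∈ PP θ' (2 ^ i), ContinuousOn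
      (fun y => (((1 - (p.1 : ℝ) / 2 ^ k : ℝ)) : ℂ) * h' p y) (Set.Icc η J) := by
    intro p hp
    apply ContinuousOn.mul continuousOn_const
    exact (hh p (hp1 p hp)).1.mono (fun y hy => lt_of_lt_of_le hη0 hy.1)
  have hc : ∀ p ∈ PP θ' (2 ^ i), ∀ y ∈ Set.Icc η J, ‖cc η κ k p y‖ ≤ B0 := by
    intro p hp y hy
    have hm : (1 : ℝ) ≤ p.1 := by exact_mod_cast (hp1 p hp)
    have h1 := g2_norm (η := η) (m := p.1) (δ := (p.2 : ℝ) / p.1 - κ) (y := y) hη0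
      (by linarith [hy.1]) (by linarith) (by nlinarith [hy.1])
    unfold cc
    rw [norm_mul]
    calc ‖(((1 - (p.1 : ℝ) / 2 ^ k : ℝ)) : ℂ)‖ * ‖g2 η p.1 ((p.2 : ℝ) / p.1 - κ) y / ((√y : ℝ) : ℂ)‖
        ≤ 1 * (√(2 / p.1) * Real.exp (-(η * ((p.2 : ℝ) / p.1 - κ) ^ 2))) :=
          mul_le_mul (hp3 p hp) h1 (norm_nonneg _) (by norm_num)
      _ ≤ 1 * (√(2 / 2 ^ i) * 1) := by
          gcongr
          · exact hp2 p hp
          · exact hexp _
      _ ≤ B0 := by rw [hB0]; linarith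
  have hc' : ∀ p ∈ PP θ' (2 ^ i), ∀ y ∈ Set.Icc η J,
      ‖(((1 - (p.1 : ℝ) / 2 ^ k : ℝ)) : ℂ) * h' p y‖ ≤ B0 * (η / y ^ 2) := by
    intro p hp y hy
    have hm : (1 : ℝ) ≤ p.1 := by exact_mod_cast (hp1 p hp)
    have hy0 : 0 < y := by linarith [hy.1]
    have h1 := ((hh p (hp1 p hp)).2 y hy0).2 (by nlinarith [hy.1])
    rw [norm_mul]
    calc ‖(((1 - (p.1 : ℝ) / 2 ^ k : ℝ)) : ℂ)‖ * ‖h' p y‖
        ≤ 1 * (3 * (η / (p.1 * y ^ 2)) *
        (√(2 / p.1) * Real.exp (-(η * ((p.2 : ℝ) / p.1 - κ) ^ 2)))) :=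
          mul_le_mul (hp3 p hp) h1 (norm_nonneg _) (by norm_num)
      _ ≤ 1 * (3 * (η / (1 * y ^ 2)) * (√(2 / 2 ^ i) * 1)) := by
          gcongr
          · exact hp2 p hp
          · exact hexp _
      _ = B0 * (η / y ^ 2) := by rw [hB0]; ring
  constructor
  · unfold bb
    apply continuousOn_finset_sum
    intro p hp
    apply ContinuousOn.mul
    · intro y hy
      exact (hd p hp y hy).continuousAt.continuousWithinAt
    · apply Continuous.continuousOn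
      unfold ee
      fun_prop
  · have h := ls1 (PP θ' (2 ^ i)) (fun p => xx p.1 p.2) (cc η κ k)
      (fun p y => (((1 - (p.1 : ℝ) / 2 ^ k : ℝ)) : ℂ) * h' p y) (B := B0) (J := J) (y0 := η)
      hη0 hJ hd hcont hc hc'
    have e : B0 ^ 2 = 18 / 2 ^ i := by
      rw [hB0, mul_pow, Real.sq_sqrt (by positivity)]
      ring
    rw [e] at h
    have e2 : AA θ' (2 ^ i) J = ∑ p ∈ PP θ' (2 ^ i), ∑ p' ∈ PP θ' (2 ^ i),
        Real.exp (-π * J ^ 2 * (xx p.1 p.2 - xx p'.1 p'.2) ^ 2) := rfl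
    rw [e2]
    refine le_trans h (le_of_eq ?_)
    ring

/-- the integrand of the bound for one pair `(k, κ)` -/
noncomputable def gg (θ' η E κ : ℝ) (k : ℕ) (y : ℝ) : ℝ :=
  4 * y + (k : ℝ) * ∑ i ∈ Finset.range k, ‖bb θ' η κ k i y‖ ^ 2 + 16 ^ k * E ^ 2

/-- pointwise -/
theorem pw {θ' η q C E y : ℝ} (hη : 1 ≤ η) (hy : η ≤ y) (hq : 0 ≤ q) (L : ℕ) (K : Finset ℝ)
    (h : q ≤ C * ∑ k ∈ Finset.range (L + 2), ∑ κ ∈ K,
        ((1 + y) + ‖∑ m ∈ Finset.Ico (1 : ℕ) (2 ^ k), ∑ l ∈ Jn (θ' * m),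
            (((1 - (m : ℝ) / 2 ^ k : ℝ)) : ℂ) * g2 η m ((l : ℝ) / m - κ) y * ee (y * xx m l)‖ +
          √y * 4 ^ k * E)) :
    q ^ 2 / y ≤ 3 * C ^ 2 * (((L : ℝ) + 2) * K.card) *
      ∑ k ∈ Finset.range (L + 2), ∑ κ ∈ K, gg θ' η E κ k y := by
  have hy0 : 0 < y := by linarith
  have hy1 : 1 ≤ y := by linarith
  set T : ℕ → ℝ → ℝ := fun k κ => (1 + y) + ‖∑ m ∈ Finset.Ico (1 : ℕ) (2 ^ k), ∑ l ∈ Jn (θ' * m),
            (((1 - (m : ℝ) / 2 ^ k : ℝ)) : ℂ) * g2 η m ((l : ℝ) / m - κ) y * ee (y * xx m l)‖ +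
          √y * 4 ^ k * E with hT
  have h1 : q ^ 2 ≤ C ^ 2 * (∑ k ∈ Finset.range (L + 2), ∑ κ ∈ K, T k κ) ^ 2 := by
    rw [← mul_pow]
    exact pow_le_pow_left₀ hq h 2
  have h2 : (∑ k ∈ Finset.range (L + 2), ∑ κ ∈ K, T k κ) ^ 2 ≤
      (((L : ℝ) + 2) * K.card) * ∑ k ∈ Finset.range (L + 2), ∑ κ ∈ K, T k κ ^ 2 := by
    calc (∑ k ∈ Finset.range (L + 2), ∑ κ ∈ K, T k κ) ^ 2
        ≤ (Finset.range (L + 2)).card * ∑ k ∈ Finset.range (L + 2), (∑ κ ∈ K, T k κ) ^ 2 :=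
          sq_sum_le_card_mul_sum_sq
      _ ≤ (Finset.range (L + 2)).card * ∑ k ∈ Finset.range (L + 2), (K.card * ∑ κ ∈ K, T k κ ^ 2) := by
          gcongr with k _
          exact sq_sum_le_card_mul_sum_sq
      _ = (((L : ℝ) + 2) * K.card) * ∑ k ∈ Finset.range (L + 2), ∑ κ ∈ K, T k κ ^ 2 := by
          rw [← Finset.mul_sum, Finset.card_range]
          push_cast
          ring
  have h3 : ∀ k κ, T k κ ^ 2 ≤ 3 * y * gg θ' η E κ k y := by
    intro k κ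
    rw [hT]
    simp only
    rw [block_sum hy0 k, norm_mul, Complex.norm_real, Real.norm_eq_abs,
      abs_of_nonneg (Real.sqrt_nonneg y)]
    set S := ‖∑ i ∈ Finset.range k, bb θ' η κ k i y‖ with hS
    have hS2 : S ^ 2 ≤ k * ∑ i ∈ Finset.range k, ‖bb θ' η κ k i y‖ ^ 2 := by
      have : S ≤ ∑ i ∈ Finset.range k, ‖bb θ' η κ k i y‖ := norm_sum_le _ _
      calc S ^ 2 ≤ (∑ i ∈ Finset.range k, ‖bb θ' η κ k i y‖) ^ 2 :=
            pow_le_pow_left₀ (norm_nonneg _) this 2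
        _ ≤ (Finset.range k).card * ∑ i ∈ Finset.range k, ‖bb θ' η κ k i y‖ ^ 2 :=
            sq_sum_le_card_mul_sum_sq
        _ = _ := by rw [Finset.card_range]
    have hsy : √y ^ 2 = y := Real.sq_sqrt hy0.le
    unfold gg
    have e1 : (1 + y + √y * S + √y * 4 ^ k * E) ^ 2 ≤
        3 * ((1 + y) ^ 2 + (√y * S) ^ 2 + (√y * 4 ^ k * E) ^ 2) := by
      nlinarith [sq_nonneg (1 + y - √y * S), sq_nonneg (1 + y - √y * 4 ^ k * E),
        sq_nonneg (√y * S - √y * 4 ^ k * E)]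
    have e2 : (√y * S) ^ 2 = y * S ^ 2 := by rw [mul_pow, hsy]
    have e3 : (√y * 4 ^ k * E) ^ 2 = y * (16 ^ k * E ^ 2) := by
      have : (16 : ℝ) ^ k = (4 ^ k) ^ 2 := by rw [← pow_mul, mul_comm k 2, pow_mul]; norm_num
      rw [this, mul_pow, mul_pow, hsy]
      ring
    have e4 : (1 + y) ^ 2 ≤ y * (4 * y) := by nlinarith
    have e5 : y * S ^ 2 ≤ y * (k * ∑ i ∈ Finset.range k, ‖bb θ' η κ k i y‖ ^ 2) :=
      mul_le_mul_of_nonneg_left hS2 hy0.le
    rw [e2, e3] at e1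
    nlinarith
  have h4 : ∑ k ∈ Finset.range (L + 2), ∑ κ ∈ K, T k κ ^ 2 ≤
      3 * y * ∑ k ∈ Finset.range (L + 2), ∑ κ ∈ K, gg θ' η E κ k y := by
    rw [Finset.mul_sum]
    apply Finset.sum_le_sum
    intro k _
    rw [Finset.mul_sum]
    apply Finset.sum_le_sum
    intro κ _
    exact h3 k κ
  rw [div_le_iff₀ hy0]
  have hn : 0 ≤ ((L : ℝ) + 2) * K.card := by positivity
  calc q ^ 2 ≤ C ^ 2 * (∑ k ∈ Finset.range (L + 2), ∑ κ ∈ K, T k κ) ^ 2 := h1
    _ ≤ C ^ 2 * ((((L : ℝ) + 2) * K.card) * ∑ k ∈ Finset.range (L + 2), ∑ κ ∈ K, T k κ ^ 2) := by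
        gcongr
    _ ≤ C ^ 2 * ((((L : ℝ) + 2) * K.card) *
          (3 * y * ∑ k ∈ Finset.range (L + 2), ∑ κ ∈ K, gg θ' η E κ k y)) := by
        gcongr
    _ = _ := by ring

/-- the integral of `gg` -/
theorem int_gg {θ' η E κ J B R : ℝ} (hη : 1 ≤ η) (hJ : η ≤ J) (hB : 0 ≤ B) (hR : 1 ≤ R) {L k : ℕ}
    (hL : (2 : ℝ) ^ L ≤ 2 * R) (hk : k < L + 2)
    (hA : ∀ i : ℕ, (2 : ℝ) ^ i ≤ 4 * R → AA θ' (2 ^ i) J ≤ B * 2 ^ i) :
    IntervalIntegrable (gg θ' η E κ k) volume η J ∧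
    ∫ y in η..J, gg θ' η E κ k y ≤
      2 * J ^ 2 + ((L : ℝ) + 2) ^ 2 * (3600 * J * B) + 256 * J * (R ^ 4 * E ^ 2) := by
  have hJ0 : 0 < J := by linarith
  have hb := fun i (hi : i < k) => blk (θ' := θ') (κ := κ) hη hJ hi
  have i1 : IntervalIntegrable (fun y : ℝ => 4 * y) volume η J :=
    (Continuous.intervalIntegrable (by fun_prop) _ _)
  have i2 : ∀ i ∈ Finset.range k, IntervalIntegrable (fun y : ℝ => ‖bb θ' η κ k i y‖ ^ 2) volume η J := by
    intro i hi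
    apply ContinuousOn.intervalIntegrable_of_Icc hJ
    exact ((hb i (Finset.mem_range.1 hi)).1.norm).pow 2
  have i2' : IntervalIntegrable (fun y : ℝ => (k : ℝ) * ∑ i ∈ Finset.range k,
      ‖bb θ' η κ k i y‖ ^ 2) volume η J := by
    apply IntervalIntegrable.const_mul
    have := IntervalIntegrable.sum (Finset.range k) i2
    exact this.congr (fun y _ => by simp)
  have i3 : IntervalIntegrable (fun _ : ℝ => (16 : ℝ) ^ k * E ^ 2) volume η J :=
    intervalIntegrable_const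
  have itot : IntervalIntegrable (gg θ' η E κ k) volume η J := (i1.add i2').add i3
  refine ⟨itot, ?_⟩
  have e : ∫ y in η..J, gg θ' η E κ k y = (∫ y in η..J, 4 * y) +
      (k : ℝ) * ∑ i ∈ Finset.range k, (∫ y in η..J, ‖bb θ' η κ k i y‖ ^ 2) +
      ∫ _ in η..J, (16 : ℝ) ^ k * E ^ 2 := by
    unfold gg
    have e2 : ∫ y in η..J, (k : ℝ) * ∑ i ∈ Finset.range k, ‖bb θ' η κ k i y‖ ^ 2 =
        (k : ℝ) * ∫ y in η..J, ∑ i ∈ Finset.range k, ‖bb θ' η κ k i y‖ ^ 2 :=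
      intervalIntegral.integral_const_mul _ _
    rw [intervalIntegral.integral_add (i1.add i2') i3, intervalIntegral.integral_add i1 i2',
      e2, intervalIntegral.integral_finsetSum i2]
  rw [e]
  have t1 : (∫ y in η..J, 4 * y) ≤ 2 * J ^ 2 := by
    rw [intervalIntegral.integral_const_mul, integral_id]
    nlinarith [sq_nonneg η]
  have hkL : (k : ℝ) ≤ (L : ℝ) + 2 := by
    have : k ≤ L + 2 := hk.le
    exact_mod_cast this
  have t2 : (k : ℝ) * ∑ i ∈ Finset.range k, (∫ y in η..J, ‖bb θ' η κ k i y‖ ^ 2) ≤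
      ((L : ℝ) + 2) ^ 2 * (3600 * J * B) := by
    have h1 : ∑ i ∈ Finset.range k, (∫ y in η..J, ‖bb θ' η κ k i y‖ ^ 2) ≤
        ∑ i ∈ Finset.range k, 3600 * J * B := by
      apply Finset.sum_le_sum
      intro i hi
      have hi' := Finset.mem_range.1 hi
      refine le_trans (hb i hi').2 ?_
      have h2 : (2 : ℝ) ^ i ≤ 4 * R := by
        calc (2 : ℝ) ^ i ≤ 2 ^ L := pow_le_pow_right₀ (by norm_num) (by omega)
          _ ≤ 2 * R := hL
          _ ≤ 4 * R := by linarith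
      have h3 := hA i h2
      have hp : (0 : ℝ) < 2 ^ i := by positivity
      have h4 : AA θ' (2 ^ i) J / 2 ^ i ≤ B := by rw [div_le_iff₀ hp]; exact h3
      gcongr
    rw [Finset.sum_const, Finset.card_range, nsmul_eq_mul] at h1
    have h5 : 0 ≤ 3600 * J * B := by positivity
    calc (k : ℝ) * ∑ i ∈ Finset.range k, (∫ y in η..J, ‖bb θ' η κ k i y‖ ^ 2)
        ≤ (k : ℝ) * (k * (3600 * J * B)) := by gcongr
      _ ≤ ((L : ℝ) + 2) * (((L : ℝ) + 2) * (3600 * J * B)) := by gcongr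
      _ = _ := by ring
  have t3 : (∫ _ in η..J, (16 : ℝ) ^ k * E ^ 2) ≤ 256 * J * (R ^ 4 * E ^ 2) := by
    rw [intervalIntegral.integral_const, smul_eq_mul]
    have h6 : (16 : ℝ) ^ k ≤ 256 * R ^ 4 := by
      calc (16 : ℝ) ^ k ≤ 16 ^ (L + 1) := pow_le_pow_right₀ (by norm_num) (by omega)
        _ = 16 * (2 ^ L) ^ 4 := by
            rw [pow_succ, ← pow_mul, mul_comm L 4, pow_mul]
            norm_num
            ring
        _ ≤ 16 * (2 * R) ^ 4 := by gcongr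
        _ = 256 * R ^ 4 := by ring
    have h7 : 0 ≤ E ^ 2 := sq_nonneg _
    calc (J - η) * ((16 : ℝ) ^ k * E ^ 2) ≤ J * ((256 * R ^ 4) * E ^ 2) := by
          apply mul_le_mul (by linarith) _ (by positivity) hJ0.le
          gcongr
      _ = _ := by ring
  linarith

/-- logarithm against a power -/
theorem log_pow {e : ℝ} (he : 0 < e) : ∃ C : ℝ, 1 ≤ C ∧ ∀ (R : ℝ) (L : ℕ), 1 ≤ R → (2 : ℝ) ^ L ≤ 2 * R →
    (L : ℝ) + 2 ≤ C * R ^ e := by
  have hl2 : 0 < Real.log 2 := Real.log_pos (by norm_num)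
  refine ⟨(2 + 1 / (e * Real.log 2)) * 2 ^ e, ?_, ?_⟩
  · have h1 : (1 : ℝ) ≤ 2 ^ e := Real.one_le_rpow (by norm_num) he.le
    have h2 : 0 < 1 / (e * Real.log 2) := by positivity
    nlinarith
  · intro R L hR hL
    have h1 : 1 + e * Real.log 2 * L ≤ (2 * R) ^ e := by
      calc 1 + e * Real.log 2 * L ≤ Real.exp (e * Real.log 2 * L) := by
            have := Real.add_one_le_exp (e * Real.log 2 * L)
            linarith
        _ = ((2 : ℝ) ^ L) ^ e := by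
            rw [← Real.rpow_natCast, ← Real.rpow_mul (by norm_num), Real.rpow_def_of_pos (by norm_num)]
            congr 1
            ring
        _ ≤ (2 * R) ^ e := Real.rpow_le_rpow (by positivity) hL he.le
    rw [Real.mul_rpow (by norm_num) (by linarith)] at h1
    have h0 : 0 < e * Real.log 2 := by positivity
    have h3 : (L : ℝ) + 2 ≤ (2 + 1 / (e * Real.log 2)) * (1 + e * Real.log 2 * L) := by
      have : 1 / (e * Real.log 2) * (e * Real.log 2 * L) = L := by field_simp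
      have h4 : 0 < 1 / (e * Real.log 2) := by positivity
      have h5 : 0 ≤ e * Real.log 2 * L := by positivity
      nlinarith
    have h6 : 0 < 2 + 1 / (e * Real.log 2) := by positivity
    calc (L : ℝ) + 2 ≤ (2 + 1 / (e * Real.log 2)) * (1 + e * Real.log 2 * L) := h3
      _ ≤ (2 + 1 / (e * Real.log 2)) * (2 ^ e * R ^ e) := by gcongr
      _ = _ := by ring

theorem t2 {θ θ' : ℝ} (hθ : 0 < θ) (h : θ < θ') (h1 : θ' < 1) {ε : ℝ} (hε : 0 < ε) : ∃ C : ℝ, 0 < C ∧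
    ∀ R : ℝ, 1 ≤ R → ∀ J : ℝ, 1 ≤ J → ∀ B : ℝ, 0 ≤ B →
      (∀ i : ℕ, (2 : ℝ) ^ i ≤ 4 * R → AA θ' (2 ^ i) J ≤ B * 2 ^ i) →
      QQ θ J R ≤ C * (R * J) ^ ε * (J ^ 2 + R + J * B) := by
  have hθ1 : θ < 1 := by linarith
  obtain ⟨Cp, c, hCp, hc, hp⟩ := t2p hθ h h1
  obtain ⟨Cs, hCs, hs⟩ := small hθ hθ1
  have he : 0 < ε / 5 := by positivity
  obtain ⟨C1, hC1, hlog⟩ := log_pow he
  obtain ⟨C2, hC2, hex⟩ := expo (N := 4) (c := 2 * c) (by positivity : 0 < 2 * c) he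
  -- the constant
  set D : ℝ := 3 * Cp ^ 2 * (25 * C1 ^ 4) * (3600 * 256 * (1 + C2)) with hD
  have hD0 : 0 < D := by
    have : 0 < C1 := by linarith
    positivity
  refine ⟨Cs + D, by linarith, ?_⟩
  intro R hR J hJ B hB hA
  have hX1 : 1 ≤ R * J := by nlinarith
  have hX0 : 0 < R * J := by linarith
  set X : ℝ := R * J with hX
  set η : ℝ := X ^ (ε / 5) with hη
  have hη1 : 1 ≤ η := Real.one_le_rpow hX1 he.le
  have hη0 : 0 < η := by linarith
  have hXe : ∀ a : ℝ, a ≤ ε → X ^ a ≤ X ^ ε := fun a ha =>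
    Real.rpow_le_rpow_of_exponent_le hX1 ha
  -- the small part
  have hsm : QQ θ η R ≤ Cs * X ^ ε * R := by
    have h2 := hs R hR η hη1
    have h3 : η ^ 4 ≤ X ^ ε := by
      rw [hη, ← Real.rpow_natCast, ← Real.rpow_mul hX0.le]
      apply hXe
      push_cast
      linarith
    calc QQ θ η R ≤ Cs * η ^ 4 * R := h2
      _ ≤ Cs * X ^ ε * R := by gcongr
  have hXE : 0 < X ^ ε := Real.rpow_pos_of_pos hX0 _
  have hJ0 : 0 < J := by linarith
  rcases le_or_gt J η with hJη | hJη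
  · have h2 := QQ_mono (θ := θ) (θ' := θ) (J := J) (J' := η) (R := R) hθ.le le_rfl hθ1.le hJη
      (by linarith)
    calc QQ θ J R ≤ QQ θ η R := h2
      _ ≤ Cs * X ^ ε * R := hsm
      _ ≤ (Cs + D) * X ^ ε * (J ^ 2 + R + J * B) := by
          apply mul_le_mul
          · gcongr; linarith
          · have : 0 ≤ J * B := by positivity
            nlinarith
          · linarith
          · positivity
  · -- main case
    have hηJ : η ≤ J := hJη.le
    -- L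
    obtain ⟨L, hL1, hL2⟩ : ∃ L : ℕ, R ≤ 2 ^ L ∧ (2 : ℝ) ^ L ≤ 2 * R := by
      have hex' : ∃ L : ℕ, R ≤ 2 ^ L := by
        obtain ⟨n, hn⟩ := pow_unbounded_of_one_lt R (by norm_num : (1 : ℝ) < 2)
        exact ⟨n, hn.le⟩
      classical
      refine ⟨Nat.find hex', Nat.find_spec hex', ?_⟩
      rcases Nat.eq_zero_or_pos (Nat.find hex') with h0 | h0
      · rw [h0, pow_zero]; linarith
      · obtain ⟨l, hl⟩ := Nat.exists_eq_succ_of_ne_zero h0.ne'
        have h2 := Nat.find_min hex' (m := l) (by omega)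
        push Not at h2
        rw [hl, pow_succ]
        linarith
    obtain ⟨K, hK1, hK2, hK3⟩ := cov hθ hθ1 hη1
    set E : ℝ := Real.exp (-(c * η)) with hE
    have hE2 : R ^ 4 * E ^ 2 ≤ C2 := by
      have h2 := hex X hX1
      have h3 : E ^ 2 = Real.exp (-(2 * c * X ^ (ε / 5))) := by
        rw [hE, ← Real.exp_nat_mul]
        congr 1
        push_cast
        rw [hη]
        ring
      have h4 : R ^ 4 ≤ X ^ (4 : ℝ) := by
        have : X ^ (4 : ℝ) = X ^ 4 := by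
          rw [← Real.rpow_natCast]; norm_num
        rw [this]
        apply pow_le_pow_left₀ (by linarith)
        rw [hX]
        nlinarith
      rw [h3]
      calc R ^ 4 * Real.exp (-(2 * c * X ^ (ε / 5))) ≤
          X ^ (4 : ℝ) * Real.exp (-(2 * c * X ^ (ε / 5))) := by gcongr
        _ ≤ C2 := h2
    set n : ℝ := ((L : ℝ) + 2) * K.card with hn
    have hn0 : 0 ≤ n := by positivity
    -- pointwise
    have hpt : ∀ y ∈ Set.Icc η J, (qq θ R y) ^ 2 / y ≤ 3 * Cp ^ 2 * n *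
        ∑ k ∈ Finset.range (L + 2), ∑ κ ∈ K, gg θ' η E κ k y := by
      intro y hy
      exact pw hη1 hy.1 (qq_nonneg (by linarith) y) L K
        (hp R hR L hL1 η hη1 K hK2 hK3 y hy.1)
    have hII : ∀ k ∈ Finset.range (L + 2), ∀ κ ∈ K, IntervalIntegrable (gg θ' η E κ k) volume η J ∧
        ∫ y in η..J, gg θ' η E κ k y ≤
        2 * J ^ 2 + ((L : ℝ) + 2) ^ 2 * (3600 * J * B) + 256 * J * (R ^ 4 * E ^ 2) := by
      intro k hk κ _
      exact int_gg hη1 hηJ hB hR hL2 (Finset.mem_range.1 hk) hA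
    have hIk : ∀ k ∈ Finset.range (L + 2), IntervalIntegrable (fun y => ∑ κ ∈ K, gg θ' η E κ k y)
        volume η J := by
      intro k hk
      have := IntervalIntegrable.sum K (f := fun κ => gg θ' η E κ k) (fun κ hκ => (hII k hk κ hκ).1)
      exact this.congr (fun y _ => by simp)
    have hIs : IntervalIntegrable (fun y => ∑ k ∈ Finset.range (L + 2), ∑ κ ∈ K, gg θ' η E κ k y)
        volume η J := by
      have := IntervalIntegrable.sum (Finset.range (L + 2))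
        (f := fun k => fun y => ∑ κ ∈ K, gg θ' η E κ k y) hIk
      exact this.congr (fun y _ => by simp)
    -- the integral of the bound
    set V : ℝ := 2 * J ^ 2 + ((L : ℝ) + 2) ^ 2 * (3600 * J * B) + 256 * J * (R ^ 4 * E ^ 2) with hV
    have hint : ∫ y in η..J, ∑ k ∈ Finset.range (L + 2), ∑ κ ∈ K, gg θ' η E κ k y ≤ n * V := by
      rw [intervalIntegral.integral_finsetSum hIk]
      calc ∑ k ∈ Finset.range (L + 2), ∫ y in η..J, ∑ κ ∈ K, gg θ' η E κ k y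
          = ∑ k ∈ Finset.range (L + 2), ∑ κ ∈ K, ∫ y in η..J, gg θ' η E κ k y := by
            apply Finset.sum_congr rfl
            intro k hk
            rw [intervalIntegral.integral_finsetSum (fun κ hκ => (hII k hk κ hκ).1)]
        _ ≤ ∑ k ∈ Finset.range (L + 2), ∑ κ ∈ K, V := by
            apply Finset.sum_le_sum
            intro k hk
            apply Finset.sum_le_sum
            intro κ hκ
            exact (hII k hk κ hκ).2
        _ = n * V := by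
            rw [Finset.sum_const, Finset.sum_const, Finset.card_range, nsmul_eq_mul, nsmul_eq_mul, hn]
            push_cast
            ring
    -- split the integral
    have hqi := qq_integrableOn (θ := θ) (R := R) hθ.le hθ1.le (by linarith) J
    have hii1 : IntervalIntegrable (fun y => (qq θ R y) ^ 2 / y) volume (1 / 4) η := by
      rw [intervalIntegrable_iff_integrableOn_Ioc_of_le (by linarith)]
      exact hqi.mono_set (Set.Ioc_subset_Ioc_right hηJ)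
    have hii2 : IntervalIntegrable (fun y => (qq θ R y) ^ 2 / y) volume η J := by
      rw [intervalIntegrable_iff_integrableOn_Ioc_of_le hηJ]
      exact hqi.mono_set (Set.Ioc_subset_Ioc_left (by linarith))
    have hsplit : QQ θ J R = QQ θ η R + ∫ y in η..J, (qq θ R y) ^ 2 / y := by
      unfold QQ
      rw [← intervalIntegral.integral_of_le (by linarith : (1 / 4 : ℝ) ≤ J),
        ← intervalIntegral.integral_of_le (by linarith : (1 / 4 : ℝ) ≤ η),
        intervalIntegral.integral_add_adjacent_intervals hii1 hii2]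
    have hmain : ∫ y in η..J, (qq θ R y) ^ 2 / y ≤ 3 * Cp ^ 2 * n * (n * V) := by
      calc ∫ y in η..J, (qq θ R y) ^ 2 / y ≤ ∫ y in η..J, 3 * Cp ^ 2 * n *
          ∑ k ∈ Finset.range (L + 2), ∑ κ ∈ K, gg θ' η E κ k y :=
            intervalIntegral.integral_mono_on hηJ hii2 (hIs.const_mul _) hpt
        _ = 3 * Cp ^ 2 * n * ∫ y in η..J,
          ∑ k ∈ Finset.range (L + 2), ∑ κ ∈ K, gg θ' η E κ k y := by
            rw [intervalIntegral.integral_const_mul]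
        _ ≤ 3 * Cp ^ 2 * n * (n * V) := by gcongr
    -- bound of V
    set ℓ : ℝ := (L : ℝ) + 2 with hℓ
    have hℓ1 : 1 ≤ ℓ := by
      have : (0 : ℝ) ≤ L := by positivity
      rw [hℓ]; linarith
    have hJJ : J ≤ J ^ 2 := by nlinarith
    have hV2 : V ≤ ℓ ^ 2 * (3600 * 256 * (1 + C2)) * (J ^ 2 + J * B) := by
      have hJB : 0 ≤ J * B := by positivity
      have hl2 : 1 ≤ ℓ ^ 2 := by nlinarith
      have a1 : 256 * J * (R ^ 4 * E ^ 2) ≤ 256 * J ^ 2 * C2 := by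
        have : 0 ≤ R ^ 4 * E ^ 2 := by positivity
        calc 256 * J * (R ^ 4 * E ^ 2) ≤ 256 * J * C2 := by gcongr
          _ ≤ 256 * J ^ 2 * C2 := by gcongr
      have a2 : V ≤ 2 * J ^ 2 + ℓ ^ 2 * (3600 * J * B) + 256 * J ^ 2 * C2 := by
        rw [hV]; linarith
      have a3 : 2 * J ^ 2 ≤ ℓ ^ 2 * (2 * J ^ 2) := by
        have : 0 ≤ 2 * J ^ 2 := by positivity
        nlinarith
      have a4 : 256 * J ^ 2 * C2 ≤ ℓ ^ 2 * (256 * J ^ 2 * C2) := by
        have : 0 ≤ 256 * J ^ 2 * C2 := by positivity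
        nlinarith
      have a5 : ℓ ^ 2 * (3600 * 256 * (1 + C2)) * (J ^ 2 + J * B) =
          ℓ ^ 2 * (3600 * 256 * (1 + C2) * (J ^ 2 + J * B)) := by ring
      have a6 : 2 * J ^ 2 + 3600 * (J * B) + 256 * J ^ 2 * C2 ≤
          3600 * 256 * (1 + C2) * (J ^ 2 + J * B) := by
        have b1 : 0 ≤ J ^ 2 * C2 := by positivity
        have b2 : 0 ≤ J * B * C2 := by positivity
        have b3 : 0 ≤ J ^ 2 := by positivity
        nlinarith
      rw [a5]
      calc V ≤ 2 * J ^ 2 + ℓ ^ 2 * (3600 * J * B) + 256 * J ^ 2 * C2 := a2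
        _ ≤ ℓ ^ 2 * (2 * J ^ 2) + ℓ ^ 2 * (3600 * (J * B)) + ℓ ^ 2 * (256 * J ^ 2 * C2) := by
            have : ℓ ^ 2 * (3600 * J * B) = ℓ ^ 2 * (3600 * (J * B)) := by ring
            linarith
        _ = ℓ ^ 2 * (2 * J ^ 2 + 3600 * (J * B) + 256 * J ^ 2 * C2) := by ring
        _ ≤ _ := by gcongr
    have hn2 : n ^ 2 ≤ ℓ ^ 2 * (25 * η) := by
      have h5 : (K.card : ℝ) ^ 2 ≤ 25 * η := by
        calc (K.card : ℝ) ^ 2 ≤ (5 * √η) ^ 2 := pow_le_pow_left₀ (by positivity) hK1 2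
          _ = 25 * η := by rw [mul_pow, Real.sq_sqrt hη0.le]; norm_num
      rw [hn, mul_pow]
      gcongr
    have hℓC : ℓ ≤ C1 * η := by
      have h5 := hlog R L hR hL2
      have h6 : R ^ (ε / 5) ≤ η := by
        rw [hη]
        apply Real.rpow_le_rpow (by linarith) _ he.le
        rw [hX]; nlinarith
      have : 0 < C1 := by linarith
      calc ℓ ≤ C1 * R ^ (ε / 5) := h5
        _ ≤ C1 * η := by gcongr
    have hℓ4 : ℓ ^ 4 ≤ C1 ^ 4 * η ^ 4 := by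
      rw [← mul_pow]
      exact pow_le_pow_left₀ (by linarith) hℓC 4
    have hη5 : η ^ 4 * η = X ^ ε := by
      rw [← pow_succ, hη, ← Real.rpow_natCast, ← Real.rpow_mul hX0.le]
      congr 1
      push_cast
      ring
    have hW0 : 0 ≤ J ^ 2 + J * B := by positivity
    have hfin : 3 * Cp ^ 2 * n * (n * V) ≤ D * X ^ ε * (J ^ 2 + J * B) := by
      have hW : 0 ≤ (3600 * 256 * (1 + C2)) * (J ^ 2 + J * B) := by positivity
      calc 3 * Cp ^ 2 * n * (n * V) = 3 * Cp ^ 2 * (n ^ 2 * V) := by ring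
        _ ≤ 3 * Cp ^ 2 * (n ^ 2 * (ℓ ^ 2 * (3600 * 256 * (1 + C2)) * (J ^ 2 + J * B))) := by
            gcongr
        _ ≤ 3 * Cp ^ 2 * ((ℓ ^ 2 * (25 * η)) *
              (ℓ ^ 2 * (3600 * 256 * (1 + C2)) * (J ^ 2 + J * B))) := by
            gcongr
        _ = 3 * Cp ^ 2 * 25 * η * (ℓ ^ 4 * ((3600 * 256 * (1 + C2)) * (J ^ 2 + J * B))) := by ring
        _ ≤ 3 * Cp ^ 2 * 25 * η * ((C1 ^ 4 * η ^ 4) * ((3600 * 256 * (1 + C2)) * (J ^ 2 + J * B))) := by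
            gcongr
        _ = D * (η ^ 4 * η) * (J ^ 2 + J * B) := by rw [hD]; ring
        _ = D * X ^ ε * (J ^ 2 + J * B) := by rw [hη5]
    rw [hsplit]
    have hR0 : 0 ≤ R := by linarith
    have hDX : 0 ≤ D * X ^ ε := by positivity
    have hCX : 0 ≤ Cs * X ^ ε := by positivity
    calc QQ θ η R + ∫ y in η..J, (qq θ R y) ^ 2 / y
        ≤ Cs * X ^ ε * R + D * X ^ ε * (J ^ 2 + J * B) := by linarith
      _ ≤ (Cs + D) * X ^ ε * (J ^ 2 + R + J * B) := by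
          have e : (Cs + D) * X ^ ε * (J ^ 2 + R + J * B) =
            Cs * X ^ ε * R + D * X ^ ε * (J ^ 2 + J * B) +
              (Cs * X ^ ε * (J ^ 2 + J * B) + D * X ^ ε * R) := by ring
          rw [e]
          have f1 : 0 ≤ Cs * X ^ ε * (J ^ 2 + J * B) := mul_nonneg hCX hW0
          have f2 : 0 ≤ D * X ^ ε * R := mul_nonneg hDX hR0
          linarith

end Pool.Agent.H93.RS
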