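import Mathlib
import Pool.Agent.H93.RS.Defs
import Pool.Agent.H93.RS.T1
import Pool.Agent.H93.RS.T2
import Pool.Agent.H93.RS.Mono
import Pool.Agent.H93.RS.Base

/-!
# [H93 RS IT]  iteration
-/

set_option autoImplicit false

namespace Pool.Agent.H93.RS

open Finset Real MeasureTheory

/-- elementary facts on the exponent `γ = 1/(β-1)` -/
private theorem gam {β : ℝ} (hβ : 2 < β) : 0 < 1 / (β - 1) ∧ 1 / (β - 1) < 1 ∧ 1 / (β - 1) * (β - 1) = 1 := by
  have h : 1 < β - 1 := by linarith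
  refine ⟨by positivity, ?_, ?_⟩
  · rw [div_lt_one (by linarith)]
    exact h
  · field_simp

/-- `t1` with `J' = min(J, R^(1/(β-1)))`, `AA_mono` -/
theorem it1 {β : ℝ} (hβ : 2 < β) (hβ3 : β ≤ 3) (H : HQ β) : HA (3 - 1 / (β - 1)) := by
  obtain ⟨g0, g1, g2⟩ := gam hβ
  set γ : ℝ := 1 / (β - 1) with hγ
  intro θ hθ hθ1 ε hε
  set e : ℝ := min 1 (ε / 10) with he
  have he0 : 0 < e := lt_min one_pos (by positivity)
  have he1 : e ≤ 1 := min_le_left _ _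
  have he2 : 10 * e ≤ ε := by
    have := min_le_right 1 (ε / 10)
    linarith
  obtain ⟨C1, hC1, T⟩ := t1 (θ := θ) (θ' := (θ + 1) / 2) hθ (by linarith) (by linarith) he0
  obtain ⟨C2, hq⟩ := H ((θ + 1) / 2) (by linarith) (by linarith) e he0
  refine ⟨3 * C1 * (1 + max C2 0), fun R hR J hJ => ?_⟩
  have hr : (1 : ℝ) ≤ (R : ℝ) := by exact_mod_cast hR
  set r : ℝ := (R : ℝ) with hrdef
  have hr0 : 0 < r := by linarith
  set J' : ℝ := min J (r ^ γ) with hJ'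
  have a1 : 1 ≤ J' := le_min hJ (Real.one_le_rpow hr g0.le)
  have a2 : J' ≤ J := min_le_left _ _
  have a3 : J' ≤ r ^ γ := min_le_right _ _
  have a4 : J' ≤ r := a3.trans (by
    calc r ^ γ ≤ r ^ (1 : ℝ) := Real.rpow_le_rpow_of_exponent_le hr g1.le
      _ = r := Real.rpow_one r)
  have a0 : 0 < J' := by linarith
  set E : ℝ := r ^ e with hE
  have hE1 : 1 ≤ E := Real.one_le_rpow hr he0.le
  have hE0 : 0 < E := by linarith
  have hEr : E ≤ r := by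
    calc r ^ e ≤ r ^ (1 : ℝ) := Real.rpow_le_rpow_of_exponent_le hr he1
      _ = r := Real.rpow_one r
  have hpow : ∀ n : ℕ, (r ^ n) ^ e = E ^ n := fun n => by
    rw [hE, ← Real.rpow_natCast, ← Real.rpow_natCast, ← Real.rpow_mul hr0.le, ← Real.rpow_mul hr0.le, mul_comm]
  -- the scale J''
  have b1 : (r * J') ^ e ≤ E ^ 2 := by
    rw [← hpow 2]
    exact Real.rpow_le_rpow (by positivity) (by nlinarith) he0.le
  have b1' : 1 ≤ (r * J') ^ e := Real.one_le_rpow (by nlinarith) he0.le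
  set J2 : ℝ := J' * (r * J') ^ e with hJ2
  have c1 : 1 ≤ J2 := by nlinarith
  have c2 : J2 ≤ J' * E ^ 2 := mul_le_mul_of_nonneg_left b1 a0.le
  have c20 : 0 < J2 := by linarith
  have c3 : (r * J2) ^ e ≤ E ^ 4 := by
    rw [← hpow 4]
    refine Real.rpow_le_rpow (by positivity) ?_ he0.le
    have h1 : J2 ≤ r * r ^ 2 := c2.trans (mul_le_mul a4 (pow_le_pow_left₀ hE0.le hEr 2) (by positivity) hr0.le)
    calc r * J2 ≤ r * (r * r ^ 2) := mul_le_mul_of_nonneg_left h1 hr0.le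
      _ = r ^ 4 := by ring
  have c4 : J2 ^ 2 ≤ J' ^ 2 * E ^ 4 := by
    calc J2 ^ 2 ≤ (J' * E ^ 2) ^ 2 := pow_le_pow_left₀ c20.le c2 2
      _ = J' ^ 2 * E ^ 4 := by ring
  have c5 : J2 ^ (β - 1) ≤ J' ^ (β - 1) * E ^ 4 := by
    calc J2 ^ (β - 1) ≤ (J' * E ^ 2) ^ (β - 1) := Real.rpow_le_rpow c20.le c2 (by linarith)
      _ = J' ^ (β - 1) * (E ^ 2) ^ (β - 1) := Real.mul_rpow a0.le (by positivity)
      _ ≤ J' ^ (β - 1) * (E ^ 2) ^ (2 : ℝ) := by
          refine mul_le_mul_of_nonneg_left ?_ (by positivity)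
          exact Real.rpow_le_rpow_of_exponent_le (one_le_pow₀ hE1) (by linarith)
      _ = J' ^ (β - 1) * E ^ 4 := by
          rw [show (2 : ℝ) = ((2 : ℕ) : ℝ) by norm_num, Real.rpow_natCast]
          ring
  have hM : 0 ≤ max C2 0 := le_max_right _ _
  set M : ℝ := max C2 0 with hMdef
  have d1 : QQ ((θ + 1) / 2) J2 r ≤ M * E ^ 8 * (J' ^ 2 + r * J' ^ (β - 1)) := by
    have h0 := hq r hr J2 c1
    have hp1 : 0 ≤ (r * J2) ^ e := by positivity
    have hp2 : 0 ≤ J2 ^ 2 + r * J2 ^ (β - 1) := by positivity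
    calc QQ ((θ + 1) / 2) J2 r ≤ C2 * (r * J2) ^ e * (J2 ^ 2 + r * J2 ^ (β - 1)) := h0
      _ ≤ M * (r * J2) ^ e * (J2 ^ 2 + r * J2 ^ (β - 1)) :=
          mul_le_mul_of_nonneg_right (mul_le_mul_of_nonneg_right (le_max_left _ _) hp1) hp2
      _ ≤ M * E ^ 4 * (J' ^ 2 * E ^ 4 + r * (J' ^ (β - 1) * E ^ 4)) := by
          refine mul_le_mul (mul_le_mul_of_nonneg_left c3 hM) (add_le_add c4 (mul_le_mul_of_nonneg_left c5 hr0.le)) hp2 (by positivity)
      _ = M * E ^ 8 * (J' ^ 2 + r * J' ^ (β - 1)) := by ring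
  have hT := T R hR J' a1
  rw [← hrdef, ← hJ2] at hT
  -- the three terms
  have k1 : r ^ 3 / J' ≤ r ^ 3 / J + r ^ (3 - γ) := by
    rcases min_choice J (r ^ γ) with hm | hm
    · rw [← hJ'] at hm
      rw [hm]
      have : 0 ≤ r ^ (3 - γ) := by positivity
      linarith
    · rw [← hJ'] at hm
      have h1 : r ^ 3 / J' = r ^ (3 - γ) := by
        rw [hm, Real.rpow_sub hr0]
        congr 1
        rw [show (3 : ℝ) = ((3 : ℕ) : ℝ) by norm_num, Real.rpow_natCast]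
      rw [h1]
      have : 0 ≤ r ^ 3 / J := by positivity
      linarith
  have k2 : r * J' ≤ r ^ (3 - γ) := by
    calc r * J' ≤ r * r ^ γ := mul_le_mul_of_nonneg_left a3 hr0.le
      _ = r ^ (1 + γ) := by rw [Real.rpow_add hr0, Real.rpow_one]
      _ ≤ r ^ (3 - γ) := Real.rpow_le_rpow_of_exponent_le hr (by linarith)
  have k3 : r ^ 2 * J' ^ (β - 2) ≤ r ^ (3 - γ) := by
    calc r ^ 2 * J' ^ (β - 2) ≤ r ^ 2 * (r ^ γ) ^ (β - 2) := by
          refine mul_le_mul_of_nonneg_left ?_ (by positivity)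
          exact Real.rpow_le_rpow a0.le a3 (by linarith)
      _ = r ^ (2 + γ * (β - 2)) := by
          rw [← Real.rpow_mul hr0.le, Real.rpow_add hr0]
          congr 1
          rw [show (2 : ℝ) = ((2 : ℕ) : ℝ) by norm_num, Real.rpow_natCast]
      _ = r ^ (3 - γ) := by
          congr 1
          have : γ * (β - 2) = γ * (β - 1) - γ := by ring
          rw [this, g2]
          ring
  have k4 : r / J' * (J' ^ 2 + r * J' ^ (β - 1)) = r * J' + r ^ 2 * J' ^ (β - 2) := by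
    have h1 : J' ^ (β - 1) = J' ^ (β - 2) * J' := by
      rw [show β - 1 = (β - 2) + 1 by ring, Real.rpow_add a0, Real.rpow_one]
    rw [h1]
    field_simp
  have hX : 0 ≤ r ^ 3 / J' := by positivity
  have hY : 0 ≤ r * J' + r ^ 2 * J' ^ (β - 2) := by positivity
  have hfin : 0 ≤ r ^ 3 / J := by positivity
  have hg : 0 ≤ r ^ (3 - γ) := by positivity
  have m1 : r ^ 3 / J' + r / J' * QQ ((θ + 1) / 2) J2 r ≤
      (1 + M) * E ^ 8 * (r ^ 3 / J' + (r * J' + r ^ 2 * J' ^ (β - 2))) := by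
    have h1 : r / J' * QQ ((θ + 1) / 2) J2 r ≤ M * E ^ 8 * (r * J' + r ^ 2 * J' ^ (β - 2)) := by
      calc r / J' * QQ ((θ + 1) / 2) J2 r ≤ r / J' * (M * E ^ 8 * (J' ^ 2 + r * J' ^ (β - 1))) :=
            mul_le_mul_of_nonneg_left d1 (by positivity)
        _ = M * E ^ 8 * (r / J' * (J' ^ 2 + r * J' ^ (β - 1))) := by ring
        _ = _ := by rw [k4]
    have hE8 : 1 ≤ E ^ 8 := one_le_pow₀ hE1
    have h2 : r ^ 3 / J' ≤ (1 + M) * E ^ 8 * (r ^ 3 / J') := by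
      have : 1 ≤ (1 + M) * E ^ 8 := by nlinarith
      nlinarith
    have h3 : M * E ^ 8 * (r * J' + r ^ 2 * J' ^ (β - 2)) ≤ (1 + M) * E ^ 8 * (r * J' + r ^ 2 * J' ^ (β - 2)) := by
      refine mul_le_mul_of_nonneg_right ?_ hY
      nlinarith
    calc _ ≤ (1 + M) * E ^ 8 * (r ^ 3 / J') + (1 + M) * E ^ 8 * (r * J' + r ^ 2 * J' ^ (β - 2)) :=
          add_le_add h2 (h1.trans h3)
      _ = _ := by ring
  have m2 : r ^ 3 / J' + (r * J' + r ^ 2 * J' ^ (β - 2)) ≤ 3 * (r ^ 3 / J + r ^ (3 - γ)) := by linarith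
  have hE10 : E ^ 10 ≤ r ^ ε := by
    rw [← hpow 10, ← Real.rpow_natCast, ← Real.rpow_mul hr0.le]
    refine Real.rpow_le_rpow_of_exponent_le hr ?_
    push_cast
    linarith
  calc AA θ R J ≤ AA θ R J' := AA_mono θ R a0.le a2
    _ ≤ C1 * (r * J') ^ e * (r ^ 3 / J' + r / J' * QQ ((θ + 1) / 2) J2 r) := hT
    _ ≤ C1 * (r * J') ^ e * ((1 + M) * E ^ 8 * (r ^ 3 / J' + (r * J' + r ^ 2 * J' ^ (β - 2)))) :=
        mul_le_mul_of_nonneg_left m1 (by positivity)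
    _ ≤ C1 * E ^ 2 * ((1 + M) * E ^ 8 * (3 * (r ^ 3 / J + r ^ (3 - γ)))) := by
        refine mul_le_mul (mul_le_mul_of_nonneg_left b1 hC1.le) (mul_le_mul_of_nonneg_left m2 (by positivity)) (by positivity) (by positivity)
    _ = 3 * C1 * (1 + M) * E ^ 10 * (r ^ 3 / J + r ^ (3 - γ)) := by ring
    _ ≤ 3 * C1 * (1 + M) * r ^ ε * (r ^ 3 / J + r ^ (3 - γ)) := by
        refine mul_le_mul_of_nonneg_right (mul_le_mul_of_nonneg_left hE10 (by positivity)) (by positivity)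

/-- `t2` with the hypothesis `HA β` -/
private theorem it2a {β : ℝ} (hβ : 2 < β) (hβ3 : β ≤ 3) (H : HA β) (θ : ℝ) (hθ : 0 < θ) (hθ1 : θ < 1) (ε : ℝ) (hε : 0 < ε) :
    ∃ C : ℝ, 0 < C ∧ ∀ R : ℝ, 1 ≤ R → ∀ J : ℝ, 1 ≤ J →
      QQ θ J R ≤ C * (R * J) ^ ε * (J ^ 2 + R ^ 2 + J * R ^ (β - 1)) := by
  set e : ℝ := min 1 (ε / 2) with he
  have he0 : 0 < e := lt_min one_pos (by positivity)
  have he1 : e ≤ 1 := min_le_left _ _
  have he2 : 2 * e ≤ ε := by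
    have := min_le_right 1 (ε / 2)
    linarith
  obtain ⟨C1, hC1, T⟩ := t2 (θ := θ) (θ' := (θ + 1) / 2) hθ (by linarith) (by linarith) he0
  obtain ⟨C2, hA⟩ := H ((θ + 1) / 2) (by linarith) (by linarith) e he0
  have hM : 0 ≤ max C2 0 := le_max_right _ _
  set M : ℝ := max C2 0 with hMdef
  refine ⟨C1 * (1 + 64 * M), by positivity, fun R hR J hJ => ?_⟩
  have hR0 : 0 < R := by linarith
  have hJ0 : 0 < J := by linarith
  have hRJ : 1 ≤ R * J := by nlinarith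
  set B : ℝ := M * (4 * R) ^ e * ((4 * R) ^ 2 / J + (4 * R) ^ (β - 1)) with hB
  have hB0 : 0 ≤ B := by positivity
  have hT := T R hR J hJ B hB0 (fun i hi => by
    have h0 := hA (2 ^ i) Nat.one_le_two_pow J hJ
    have hc : ((2 ^ i : ℕ) : ℝ) = (2 : ℝ) ^ i := by push_cast; ring
    rw [hc] at h0
    set V : ℝ := (2 : ℝ) ^ i with hV
    have hV0 : 0 < V := by positivity
    have h1 : V ^ e ≤ (4 * R) ^ e := Real.rpow_le_rpow hV0.le hi he0.le
    have h2 : V ^ 3 / J ≤ V * ((4 * R) ^ 2 / J) := by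
      have : V ^ 2 ≤ (4 * R) ^ 2 := pow_le_pow_left₀ hV0.le hi 2
      calc V ^ 3 / J = V * (V ^ 2 / J) := by ring
        _ ≤ V * ((4 * R) ^ 2 / J) := by gcongr
    have h3 : V ^ β ≤ V * (4 * R) ^ (β - 1) := by
      calc V ^ β = V * V ^ (β - 1) := by
            rw [show V ^ β = V ^ (1 + (β - 1)) by congr 1; ring, Real.rpow_add hV0, Real.rpow_one]
        _ ≤ V * (4 * R) ^ (β - 1) := by
            refine mul_le_mul_of_nonneg_left ?_ hV0.le
            exact Real.rpow_le_rpow hV0.le hi (by linarith)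
    calc AA ((θ + 1) / 2) (2 ^ i) J ≤ C2 * V ^ e * (V ^ 3 / J + V ^ β) := h0
      _ ≤ M * V ^ e * (V ^ 3 / J + V ^ β) :=
          mul_le_mul_of_nonneg_right (mul_le_mul_of_nonneg_right (le_max_left _ _) (by positivity)) (by positivity)
      _ ≤ M * (4 * R) ^ e * (V * ((4 * R) ^ 2 / J) + V * (4 * R) ^ (β - 1)) :=
          mul_le_mul (mul_le_mul_of_nonneg_left h1 hM) (add_le_add h2 h3) (by positivity) (by positivity)
      _ = B * V := by rw [hB]; ring)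
  have k1 : (4 * R) ^ e ≤ 4 * (R * J) ^ e := by
    rw [Real.mul_rpow (by norm_num) hR0.le]
    refine mul_le_mul ?_ ?_ (by positivity) (by norm_num)
    · calc (4 : ℝ) ^ e ≤ (4 : ℝ) ^ (1 : ℝ) := Real.rpow_le_rpow_of_exponent_le (by norm_num) he1
        _ = 4 := Real.rpow_one 4
    · exact Real.rpow_le_rpow hR0.le (by nlinarith) he0.le
  have k2 : (4 * R) ^ (β - 1) ≤ 16 * R ^ (β - 1) := by
    rw [Real.mul_rpow (by norm_num) hR0.le]
    refine mul_le_mul_of_nonneg_right ?_ (by positivity)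
    calc (4 : ℝ) ^ (β - 1) ≤ (4 : ℝ) ^ (2 : ℝ) := Real.rpow_le_rpow_of_exponent_le (by norm_num) (by linarith)
      _ = 16 := by norm_num
  have k3 : J * B ≤ 64 * M * (R * J) ^ e * (R ^ 2 + J * R ^ (β - 1)) := by
    have h1 : J * B = M * (4 * R) ^ e * (16 * R ^ 2 + J * (4 * R) ^ (β - 1)) := by
      rw [hB]
      field_simp
      ring
    rw [h1]
    calc M * (4 * R) ^ e * (16 * R ^ 2 + J * (4 * R) ^ (β - 1))
        ≤ M * (4 * (R * J) ^ e) * (16 * R ^ 2 + J * (16 * R ^ (β - 1))) := by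
          refine mul_le_mul (mul_le_mul_of_nonneg_left k1 hM) ?_ (by positivity) (by positivity)
          exact add_le_add le_rfl (mul_le_mul_of_nonneg_left k2 hJ0.le)
      _ = _ := by ring
  have hP : 1 ≤ (R * J) ^ e := Real.one_le_rpow hRJ he0.le
  set P : ℝ := (R * J) ^ e with hPdef
  have hW : 0 ≤ R ^ 2 + J * R ^ (β - 1) := by positivity
  have k4 : J ^ 2 + R + J * B ≤ (1 + 64 * M) * P * (J ^ 2 + R ^ 2 + J * R ^ (β - 1)) := by
    have h1 : J ^ 2 + R ≤ P * (J ^ 2 + R ^ 2 + J * R ^ (β - 1)) := by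
      have h2 : J ^ 2 + R ≤ J ^ 2 + R ^ 2 + J * R ^ (β - 1) := by
        have : 0 ≤ J * R ^ (β - 1) := by positivity
        nlinarith
      have h3 : 0 ≤ J ^ 2 + R ^ 2 + J * R ^ (β - 1) := by positivity
      nlinarith
    have h4 : J * B ≤ 64 * M * P * (J ^ 2 + R ^ 2 + J * R ^ (β - 1)) := by
      refine k3.trans ?_
      refine mul_le_mul_of_nonneg_left ?_ (by positivity)
      nlinarith [sq_nonneg J]
    calc J ^ 2 + R + J * B ≤ P * (J ^ 2 + R ^ 2 + J * R ^ (β - 1)) + 64 * M * P * (J ^ 2 + R ^ 2 + J * R ^ (β - 1)) :=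
          add_le_add h1 h4
      _ = _ := by ring
  have hP2 : P * P ≤ (R * J) ^ ε := by
    rw [hPdef, ← Real.rpow_add (by positivity)]
    exact Real.rpow_le_rpow_of_exponent_le hRJ (by linarith)
  calc QQ θ J R ≤ C1 * P * (J ^ 2 + R + J * B) := hT
    _ ≤ C1 * P * ((1 + 64 * M) * P * (J ^ 2 + R ^ 2 + J * R ^ (β - 1))) :=
        mul_le_mul_of_nonneg_left k4 (by positivity)
    _ = C1 * (1 + 64 * M) * (P * P) * (J ^ 2 + R ^ 2 + J * R ^ (β - 1)) := by ring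
    _ ≤ C1 * (1 + 64 * M) * (R * J) ^ ε * (J ^ 2 + R ^ 2 + J * R ^ (β - 1)) := by
        refine mul_le_mul_of_nonneg_right (mul_le_mul_of_nonneg_left hP2 (by positivity)) (by positivity)

/-- `t2` for `R ≤ R0 = J^(1/(β-1))`, `mono` with `R' = R0` beyond -/
theorem it2 {β : ℝ} (hβ : 2 < β) (hβ3 : β ≤ 3) (H : HA β) : HQ (3 - 1 / (β - 1)) := by
  obtain ⟨g0, g1, g2⟩ := gam hβ
  intro θ hθ hθ1 ε hε
  obtain ⟨Ca, hCa, La⟩ := it2a hβ hβ3 H θ hθ hθ1 ε hε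
  obtain ⟨Cb, hCb, Lb⟩ := it2a hβ hβ3 H ((θ + 1) / 2) (by linarith) (by linarith) ε hε
  obtain ⟨Cm, hCm, Lm⟩ := mono (θ := θ) (θ' := (θ + 1) / 2) hθ (by linarith) (by linarith)
  set γ : ℝ := 1 / (β - 1) with hγ
  refine ⟨3 * Ca + 7 * (2 : ℝ) ^ ε * Cb * Cm + Cm, fun R hR J hJ => ?_⟩
  have hR0 : 0 < R := by linarith
  have hJ0 : 0 < J := by linarith
  have hRJ : 1 ≤ R * J := by nlinarith
  have hexp : (3 - γ - 1 : ℝ) = 2 - γ := by ring
  rw [hexp]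
  have hP : 1 ≤ (R * J) ^ ε := Real.one_le_rpow hRJ hε.le
  have hZ : 0 ≤ R * J ^ (2 - γ) := by positivity
  have hJp : 1 ≤ J ^ (2 - γ) := Real.one_le_rpow hJ (by linarith)
  have hq1 : J ^ γ ≤ J := by
    calc J ^ γ ≤ J ^ (1 : ℝ) := Real.rpow_le_rpow_of_exponent_le hJ g1.le
      _ = J := Real.rpow_one J
  have hR1 : 1 ≤ J ^ γ := Real.one_le_rpow hJ g0.le
  have hpow : (J ^ γ) ^ (β - 1) = J := by
    rw [← Real.rpow_mul hJ0.le, g2, Real.rpow_one]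
  have hnn : 0 ≤ (2 : ℝ) ^ ε * Cb * Cm := by positivity
  rcases le_total R (J ^ γ) with hc | hc
  · have h1 := La R hR J hJ
    have h2 : J ^ 2 + R ^ 2 + J * R ^ (β - 1) ≤ 3 * J ^ 2 := by
      have e1 : R ≤ J := hc.trans hq1
      have e2 : R ^ 2 ≤ J ^ 2 := pow_le_pow_left₀ hR0.le e1 2
      have e3 : R ^ (β - 1) ≤ J := by
        calc R ^ (β - 1) ≤ (J ^ γ) ^ (β - 1) := Real.rpow_le_rpow hR0.le hc (by linarith)
          _ = J := hpow
      nlinarith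
    calc QQ θ J R ≤ Ca * (R * J) ^ ε * (J ^ 2 + R ^ 2 + J * R ^ (β - 1)) := h1
      _ ≤ Ca * (R * J) ^ ε * (3 * J ^ 2) := mul_le_mul_of_nonneg_left h2 (by positivity)
      _ = 3 * Ca * ((R * J) ^ ε * J ^ 2) := by ring
      _ ≤ (3 * Ca + 7 * (2 : ℝ) ^ ε * Cb * Cm + Cm) * ((R * J) ^ ε * (J ^ 2 + R * J ^ (2 - γ))) := by
          refine mul_le_mul ?_ ?_ (by positivity) (by positivity)
          · nlinarith
          · exact mul_le_mul_of_nonneg_left (by linarith) (by positivity)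
      _ = _ := by ring
  · have h1 := Lm (J ^ γ) R hR1 hc J hJ
    have h2 := Lb (J ^ γ) hR1 (2 * J) (by linarith)
    have h3 : (2 * J) ^ 2 + (J ^ γ) ^ 2 + 2 * J * (J ^ γ) ^ (β - 1) ≤ 7 * J ^ 2 := by
      rw [hpow]
      have : (J ^ γ) ^ 2 ≤ J ^ 2 := pow_le_pow_left₀ (by linarith) hq1 2
      nlinarith
    have h4 : (J ^ γ * (2 * J)) ^ ε ≤ (2 : ℝ) ^ ε * (R * J) ^ ε := by
      rw [← Real.mul_rpow (by norm_num) (by positivity)]
      refine Real.rpow_le_rpow (by positivity) ?_ hε.le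
      nlinarith
    have h5 : QQ ((θ + 1) / 2) (2 * J) (J ^ γ) ≤ 7 * (2 : ℝ) ^ ε * Cb * (R * J) ^ ε * J ^ 2 := by
      calc QQ ((θ + 1) / 2) (2 * J) (J ^ γ)
          ≤ Cb * (J ^ γ * (2 * J)) ^ ε * ((2 * J) ^ 2 + (J ^ γ) ^ 2 + 2 * J * (J ^ γ) ^ (β - 1)) := h2
        _ ≤ Cb * ((2 : ℝ) ^ ε * (R * J) ^ ε) * (7 * J ^ 2) :=
            mul_le_mul (mul_le_mul_of_nonneg_left h4 hCb.le) h3 (by positivity) (by positivity)
        _ = _ := by ring
    have h6 : R / J ^ γ * J ^ 2 = R * J ^ (2 - γ) := by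
      rw [Real.rpow_sub hJ0, show (2 : ℝ) = ((2 : ℕ) : ℝ) by norm_num, Real.rpow_natCast]
      ring
    have h7 : Cm * (R / J ^ γ) * QQ ((θ + 1) / 2) (2 * J) (J ^ γ) ≤
        7 * (2 : ℝ) ^ ε * Cb * Cm * ((R * J) ^ ε * (R * J ^ (2 - γ))) := by
      calc Cm * (R / J ^ γ) * QQ ((θ + 1) / 2) (2 * J) (J ^ γ)
          ≤ Cm * (R / J ^ γ) * (7 * (2 : ℝ) ^ ε * Cb * (R * J) ^ ε * J ^ 2) :=
            mul_le_mul_of_nonneg_left h5 (by positivity)
        _ = 7 * (2 : ℝ) ^ ε * Cb * Cm * ((R * J) ^ ε * (R / J ^ γ * J ^ 2)) := by ring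
        _ = _ := by rw [h6]
    have h8 : Cm * R ≤ Cm * ((R * J) ^ ε * (R * J ^ (2 - γ))) := by
      refine mul_le_mul_of_nonneg_left ?_ hCm.le
      calc R = 1 * (R * 1) := by ring
        _ ≤ (R * J) ^ ε * (R * J ^ (2 - γ)) :=
            mul_le_mul hP (mul_le_mul_of_nonneg_left hJp hR0.le) (by positivity) (by positivity)
    have h9 : (R * J) ^ ε * (R * J ^ (2 - γ)) ≤ (R * J) ^ ε * (J ^ 2 + R * J ^ (2 - γ)) :=
      mul_le_mul_of_nonneg_left (by nlinarith [sq_nonneg J]) (by positivity)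
    calc QQ θ J R ≤ Cm * (R / J ^ γ) * QQ ((θ + 1) / 2) (2 * J) (J ^ γ) + Cm * R := h1
      _ ≤ 7 * (2 : ℝ) ^ ε * Cb * Cm * ((R * J) ^ ε * (R * J ^ (2 - γ))) + Cm * ((R * J) ^ ε * (R * J ^ (2 - γ))) :=
          add_le_add h7 h8
      _ = (7 * (2 : ℝ) ^ ε * Cb * Cm + Cm) * ((R * J) ^ ε * (R * J ^ (2 - γ))) := by ring
      _ ≤ (3 * Ca + 7 * (2 : ℝ) ^ ε * Cb * Cm + Cm) * ((R * J) ^ ε * (J ^ 2 + R * J ^ (2 - γ))) := by
          refine mul_le_mul ?_ h9 (by positivity) (by positivity)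
          linarith
      _ = _ := by ring

private theorem frac {a : ℝ} (ha : 0 < a) : 3 - 1 / ((2 + 1 / a) - 1) = 2 + 1 / (a + 1) := by
  have h1 : (2 + 1 / a) - 1 = (a + 1) / a := by
    rw [eq_div_iff ha.ne']
    have : 1 / a * a = 1 := by field_simp
    linear_combination this
  have h2 : a + 1 ≠ 0 := by positivity
  have h3 : a / (a + 1) + 1 / (a + 1) = 1 := by
    rw [← add_div, div_self h2]
  rw [h1, one_div_div]
  linarith

/-- the iteration `2 + 1/(2k+1)` -/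
private theorem it3a (k : ℕ) : HA (2 + 1 / (2 * (k : ℝ) + 1)) := by
  induction k with
  | zero =>
    have : (2 + 1 / (2 * ((0 : ℕ) : ℝ) + 1) : ℝ) = 3 := by norm_num
    rw [this]
    exact base
  | succ k ih =>
    have hk : (0 : ℝ) ≤ (k : ℝ) := Nat.cast_nonneg k
    have e1 : (3 - 1 / ((2 + 1 / (2 * (k : ℝ) + 1)) - 1) : ℝ) = 2 + 1 / (2 * (k : ℝ) + 2) := by
      rw [frac (by positivity)]
      congr 2
      ring
    have e2 : (3 - 1 / ((2 + 1 / (2 * (k : ℝ) + 2)) - 1) : ℝ) = 2 + 1 / (2 * ((k + 1 : ℕ) : ℝ) + 1) := by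
      rw [frac (by positivity)]
      congr 2
      push_cast
      ring
    have h1 : HQ (2 + 1 / (2 * (k : ℝ) + 2)) := by
      rw [← e1]
      refine it2 ?_ ?_ ih
      · have : 0 < 1 / (2 * (k : ℝ) + 1) := by positivity
        linarith
      · have : 1 / (2 * (k : ℝ) + 1) ≤ 1 := by
          rw [div_le_one (by positivity)]
          linarith
        linarith
    rw [← e2]
    refine it1 ?_ ?_ h1
    · have : 0 < 1 / (2 * (k : ℝ) + 2) := by positivity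
      linarith
    · have : 1 / (2 * (k : ℝ) + 2) ≤ 1 := by
        rw [div_le_one (by positivity)]
        linarith
      linarith

/-- `β - 2 = e → e/(1+e)` -/
theorem it3 {β : ℝ} (hβ : 2 < β) : HA β := by
  obtain ⟨k, hk⟩ := exists_nat_gt (1 / (β - 2))
  have h1 : 2 + 1 / (2 * (k : ℝ) + 1) ≤ β := by
    have h2 : 0 < β - 2 := by linarith
    have h3 : 1 / (2 * (k : ℝ) + 1) ≤ β - 2 := by
      rw [div_le_iff₀ (by positivity)]
      rw [div_lt_iff₀ h2] at hk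
      have : (0 : ℝ) ≤ k := Nat.cast_nonneg k
      nlinarith
    linarith
  intro θ hθ hθ1 ε hε
  obtain ⟨C, hC⟩ := it3a k θ hθ hθ1 ε hε
  refine ⟨max C 0, fun R hR J hJ => ?_⟩
  have hr : (1 : ℝ) ≤ (R : ℝ) := by exact_mod_cast hR
  have hr0 : (0 : ℝ) < (R : ℝ) := by linarith
  have hJ0 : 0 < J := by linarith
  have h4 : (R : ℝ) ^ (2 + 1 / (2 * (k : ℝ) + 1)) ≤ (R : ℝ) ^ β := Real.rpow_le_rpow_of_exponent_le hr h1
  calc AA θ R J ≤ C * (R : ℝ) ^ ε * ((R : ℝ) ^ 3 / J + (R : ℝ) ^ (2 + 1 / (2 * (k : ℝ) + 1))) := hC R hR J hJ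
    _ ≤ max C 0 * (R : ℝ) ^ ε * ((R : ℝ) ^ 3 / J + (R : ℝ) ^ (2 + 1 / (2 * (k : ℝ) + 1))) :=
        mul_le_mul_of_nonneg_right (mul_le_mul_of_nonneg_right (le_max_left _ _) (by positivity)) (by positivity)
    _ ≤ max C 0 * (R : ℝ) ^ ε * ((R : ℝ) ^ 3 / J + (R : ℝ) ^ β) := by
        refine mul_le_mul_of_nonneg_left (by linarith) ?_
        exact mul_nonneg (le_max_right _ _) (by positivity)

end Pool.Agent.H93.RS
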