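import Mathlib
import Pool.Agent.H93.RS.Defs
import Pool.Agent.H93.RS.It

/-!
# [H93 RS CNT]  the count
-/

set_option autoImplicit false

namespace Pool.Agent.H93.RS

open Finset Real MeasureTheory

/-- `x(a+b, a-b) = 4 / (1/a + 1/b)` -/
private theorem xx_eq {a b : ℕ} (ha : 0 < a) (hb : 0 < b) :
    xx (a + b) ((a : ℤ) - (b : ℤ)) = 4 / (1 / (a : ℝ) + 1 / (b : ℝ)) := by
  have ha' : (0 : ℝ) < a := by exact_mod_cast ha
  have hb' : (0 : ℝ) < b := by exact_mod_cast hb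
  unfold xx
  push_cast
  field_simp
  ring

private theorem inv_diff {u v R : ℝ} (hR : 0 < R) (hu : 1 / R ≤ u) (hv : 1 / R ≤ v) (h : |u - v| ≤ 1 / R ^ 3) :
    |4 / u - 4 / v| ≤ 4 / R := by
  have hR1 : 0 < 1 / R := by positivity
  have hu0 : 0 < u := by linarith
  have hv0 : 0 < v := by linarith
  have h1 : 4 / u - 4 / v = -(4 * (u - v)) * (1 / (u * v)) := by
    field_simp
    ring
  have h2 : 1 / (u * v) ≤ R ^ 2 := by
    rw [div_le_iff₀ (by positivity)]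
    have h3 : 1 / R * (1 / R) ≤ u * v := mul_le_mul hu hv hR1.le hu0.le
    calc (1 : ℝ) = R ^ 2 * (1 / R * (1 / R)) := by field_simp
      _ ≤ R ^ 2 * (u * v) := mul_le_mul_of_nonneg_left h3 (by positivity)
  have h4 : 0 < 1 / (u * v) := by positivity
  rw [h1, abs_mul, abs_neg, abs_mul, abs_of_pos h4, abs_of_pos (by norm_num : (0 : ℝ) < 4)]
  calc 4 * |u - v| * (1 / (u * v)) ≤ 4 * (1 / R ^ 3) * R ^ 2 := by
        refine mul_le_mul (mul_le_mul_of_nonneg_left h (by norm_num)) h2 h4.le (by positivity)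
    _ = 4 / R := by
        field_simp

/-- `s = a+b`, `t = a-b`, `1/a+1/b = 4/x(s,t)`, `|x-x'| ≤ 4/R`; `HA (2+ε/2)` at `(1/2, 2R+1, J = R)` -/
theorem rs (ε : ℝ) (hε : 0 < ε) : ∃ C : ℝ, ∀ R : ℕ, 1 ≤ R →
    ((((Finset.Ioc R (2 * R)) ×ˢ (Finset.Ioc R (2 * R)) ×ˢ (Finset.Ioc R (2 * R)) ×ˢ (Finset.Ioc R (2 * R))).filter
      (fun q : ℕ × ℕ × ℕ × ℕ => |1 / (q.1 : ℝ) + 1 / (q.2.1 : ℝ) - 1 / (q.2.2.1 : ℝ) - 1 / (q.2.2.2 : ℝ)| ≤ 1 / (R : ℝ) ^ 3)).card : ℝ) ≤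
      C * (R : ℝ) ^ (2 + ε) := by
  obtain ⟨C, hC⟩ := it3 (β := 2 + ε / 2) (by linarith) (1 / 2) (by norm_num) (by norm_num) (ε / 2) (by positivity)
  refine ⟨Real.exp (16 * π) * (4 * max C 0 * (3 : ℝ) ^ (2 + ε)), fun R hR => ?_⟩
  have hr : (1 : ℝ) ≤ (R : ℝ) := by exact_mod_cast hR
  have hr0 : (0 : ℝ) < (R : ℝ) := by linarith
  set S := ((Finset.Ioc R (2 * R)) ×ˢ (Finset.Ioc R (2 * R)) ×ˢ (Finset.Ioc R (2 * R)) ×ˢ (Finset.Ioc R (2 * R))).filter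
      (fun q : ℕ × ℕ × ℕ × ℕ => |1 / (q.1 : ℝ) + 1 / (q.2.1 : ℝ) - 1 / (q.2.2.1 : ℝ) - 1 / (q.2.2.2 : ℝ)| ≤ 1 / (R : ℝ) ^ 3) with hS
  let g : ℕ × ℕ × ℕ × ℕ → (Σ _ : ℕ, ℤ) × (Σ _ : ℕ, ℤ) := fun q =>
    (⟨q.1 + q.2.1, (q.1 : ℤ) - (q.2.1 : ℤ)⟩, ⟨q.2.2.1 + q.2.2.2, (q.2.2.1 : ℤ) - (q.2.2.2 : ℤ)⟩)
  let F : (Σ _ : ℕ, ℤ) × (Σ _ : ℕ, ℤ) → ℝ := fun z =>
    Real.exp (-π * (R : ℝ) ^ 2 * (xx z.1.1 z.1.2 - xx z.2.1 z.2.2) ^ 2)
  have hg : Function.Injective g := by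
    rintro ⟨a, b, c, d⟩ ⟨a', b', c', d'⟩ h
    simp only [g, Prod.mk.injEq, Sigma.mk.injEq, heq_eq_eq] at h
    obtain ⟨⟨h1, h2⟩, h3, h4⟩ := h
    simp only [Prod.mk.injEq]
    omega
  have hmem : ∀ q ∈ S, g q ∈ PP (1 / 2) (2 * R + 1) ×ˢ PP (1 / 2) (2 * R + 1) := by
    rintro ⟨a, b, c, d⟩ hq
    rw [hS, Finset.mem_filter] at hq
    obtain ⟨hq, -⟩ := hq
    simp only [Finset.mem_product, Finset.mem_Ioc] at hq
    obtain ⟨⟨a1, a2⟩, ⟨b1, b2⟩, ⟨c1, c2⟩, d1, d2⟩ := hq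
    have key : ∀ x y : ℕ, R < x → x ≤ 2 * R → R < y → y ≤ 2 * R →
        (⟨x + y, (x : ℤ) - (y : ℤ)⟩ : Σ _ : ℕ, ℤ) ∈ PP (1 / 2) (2 * R + 1) := by
      intro x y x1 x2 y1 y2
      unfold PP
      rw [Finset.mem_sigma]
      refine ⟨?_, ?_⟩
      · rw [Finset.mem_Ico]
        dsimp only
        omega
      · dsimp only
        rw [mem_Jn]
        push_cast
        have x1' : (R : ℝ) + 1 ≤ x := by exact_mod_cast x1
        have x2' : (x : ℝ) ≤ 2 * R := by exact_mod_cast x2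
        have y1' : (R : ℝ) + 1 ≤ y := by exact_mod_cast y1
        have y2' : (y : ℝ) ≤ 2 * R := by exact_mod_cast y2
        rw [abs_le]
        constructor
        · linarith
        · linarith
    rw [Finset.mem_product]
    exact ⟨key a b a1 a2 b1 b2, key c d c1 c2 d1 d2⟩
  have hF : ∀ q ∈ S, Real.exp (-(16 * π)) ≤ F (g q) := by
    rintro ⟨a, b, c, d⟩ hq
    rw [hS, Finset.mem_filter] at hq
    obtain ⟨hq, hq2⟩ := hq
    simp only [Finset.mem_product, Finset.mem_Ioc] at hq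
    obtain ⟨⟨a1, a2⟩, ⟨b1, b2⟩, ⟨c1, c2⟩, d1, d2⟩ := hq
    have low : ∀ x y : ℕ, R < x → x ≤ 2 * R → R < y → y ≤ 2 * R → 1 / (R : ℝ) ≤ 1 / (x : ℝ) + 1 / (y : ℝ) := by
      intro x y x1 x2 y1 y2
      have x0 : (0 : ℝ) < x := by
        have : 0 < x := by omega
        exact_mod_cast this
      have y0 : (0 : ℝ) < y := by
        have : 0 < y := by omega
        exact_mod_cast this
      have x2' : (x : ℝ) ≤ 2 * R := by exact_mod_cast x2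
      have y2' : (y : ℝ) ≤ 2 * R := by exact_mod_cast y2
      have e1 : 1 / (2 * (R : ℝ)) ≤ 1 / (x : ℝ) := one_div_le_one_div_of_le x0 x2'
      have e2 : 1 / (2 * (R : ℝ)) ≤ 1 / (y : ℝ) := one_div_le_one_div_of_le y0 y2'
      have e3 : 1 / (R : ℝ) = 1 / (2 * (R : ℝ)) + 1 / (2 * (R : ℝ)) := by
        field_simp
        norm_num
      rw [e3]
      exact add_le_add e1 e2
    have h1 : |xx (a + b) ((a : ℤ) - (b : ℤ)) - xx (c + d) ((c : ℤ) - (d : ℤ))| ≤ 4 / R := by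
      rw [xx_eq (by omega) (by omega), xx_eq (by omega) (by omega)]
      refine inv_diff hr0 (low a b a1 a2 b1 b2) (low c d c1 c2 d1 d2) ?_
      have : (1 / (a : ℝ) + 1 / (b : ℝ) - (1 / (c : ℝ) + 1 / (d : ℝ))) = 1 / (a : ℝ) + 1 / (b : ℝ) - 1 / (c : ℝ) - 1 / (d : ℝ) := by
        ring
      rw [this]
      exact hq2
    have h2 : (xx (a + b) ((a : ℤ) - (b : ℤ)) - xx (c + d) ((c : ℤ) - (d : ℤ))) ^ 2 ≤ (4 / R) ^ 2 := by
      rw [← sq_abs]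
      exact pow_le_pow_left₀ (abs_nonneg _) h1 2
    refine Real.exp_le_exp.2 ?_
    have h3 : (R : ℝ) ^ 2 * (4 / R) ^ 2 = 16 := by
      field_simp
      norm_num
    have h4 : (R : ℝ) ^ 2 * (xx (a + b) ((a : ℤ) - (b : ℤ)) - xx (c + d) ((c : ℤ) - (d : ℤ))) ^ 2 ≤ 16 := by
      rw [← h3]
      exact mul_le_mul_of_nonneg_left h2 (by positivity)
    have h5 := mul_le_mul_of_nonneg_left h4 Real.pi_pos.le
    show -(16 * π) ≤ -π * (R : ℝ) ^ 2 * (xx (a + b) ((a : ℤ) - (b : ℤ)) - xx (c + d) ((c : ℤ) - (d : ℤ))) ^ 2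
    linarith
  have hsum : (S.card : ℝ) * Real.exp (-(16 * π)) ≤ AA (1 / 2) (2 * R + 1) R := by
    calc (S.card : ℝ) * Real.exp (-(16 * π)) = ∑ q ∈ S, Real.exp (-(16 * π)) := by
          rw [Finset.sum_const, nsmul_eq_mul]
      _ ≤ ∑ q ∈ S, F (g q) := Finset.sum_le_sum hF
      _ = ∑ z ∈ S.image g, F z := by
          rw [Finset.sum_image]
          intro x _ y _ h
          exact hg h
      _ ≤ ∑ z ∈ PP (1 / 2) (2 * R + 1) ×ˢ PP (1 / 2) (2 * R + 1), F z := by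
          refine Finset.sum_le_sum_of_subset_of_nonneg ?_ (fun z _ _ => (Real.exp_pos _).le)
          intro z hz
          rw [Finset.mem_image] at hz
          obtain ⟨q, hq, rfl⟩ := hz
          exact hmem q hq
      _ = AA (1 / 2) (2 * R + 1) R := by
          unfold AA
          rw [Finset.sum_product]
  have hA := hC (2 * R + 1) (by omega) R hr
  have hM : 0 ≤ max C 0 := le_max_right _ _
  set M : ℝ := max C 0 with hMdef
  set T : ℝ := ((2 * R + 1 : ℕ) : ℝ) with hT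
  have hT1 : T ≤ 3 * R := by
    rw [hT]
    push_cast
    linarith
  have hT2 : 1 ≤ T := by
    rw [hT]
    push_cast
    linarith
  have hT0 : 0 < T := by linarith
  have hbound : AA (1 / 2) (2 * R + 1) R ≤ 4 * M * (3 : ℝ) ^ (2 + ε) * (R : ℝ) ^ (2 + ε) := by
    have e1 : T ^ 3 / R ≤ 3 * (3 * (R : ℝ)) ^ (2 + ε / 2) := by
      have e2 : T ^ 3 ≤ (3 * (R : ℝ)) ^ 3 := pow_le_pow_left₀ hT0.le hT1 3
      have e3 : (3 * (R : ℝ)) ^ 2 ≤ (3 * (R : ℝ)) ^ (2 + ε / 2) := by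
        rw [← Real.rpow_natCast]
        refine Real.rpow_le_rpow_of_exponent_le (by linarith) ?_
        push_cast
        linarith
      calc T ^ 3 / R ≤ (3 * (R : ℝ)) ^ 3 / R := by gcongr
        _ = 3 * (3 * (R : ℝ)) ^ 2 := by
            field_simp
        _ ≤ _ := mul_le_mul_of_nonneg_left e3 (by norm_num)
    have e4 : T ^ (2 + ε / 2) ≤ (3 * (R : ℝ)) ^ (2 + ε / 2) := Real.rpow_le_rpow hT0.le hT1 (by linarith)
    have e5 : T ^ (ε / 2) ≤ (3 * (R : ℝ)) ^ (ε / 2) := Real.rpow_le_rpow hT0.le hT1 (by linarith)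
    calc AA (1 / 2) (2 * R + 1) R ≤ C * T ^ (ε / 2) * (T ^ 3 / R + T ^ (2 + ε / 2)) := hA
      _ ≤ M * T ^ (ε / 2) * (T ^ 3 / R + T ^ (2 + ε / 2)) :=
          mul_le_mul_of_nonneg_right (mul_le_mul_of_nonneg_right (le_max_left _ _) (by positivity)) (by positivity)
      _ ≤ M * (3 * (R : ℝ)) ^ (ε / 2) * (3 * (3 * (R : ℝ)) ^ (2 + ε / 2) + (3 * (R : ℝ)) ^ (2 + ε / 2)) :=
          mul_le_mul (mul_le_mul_of_nonneg_left e5 hM) (add_le_add e1 e4) (by positivity) (by positivity)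
      _ = 4 * M * ((3 * (R : ℝ)) ^ (ε / 2) * (3 * (R : ℝ)) ^ (2 + ε / 2)) := by ring
      _ = 4 * M * ((3 : ℝ) ^ (2 + ε) * (R : ℝ) ^ (2 + ε)) := by
          rw [← Real.rpow_add (by positivity), show ε / 2 + (2 + ε / 2) = 2 + ε by ring,
            Real.mul_rpow (by norm_num) hr0.le]
      _ = _ := by ring
  have hexp : Real.exp (-(16 * π)) * Real.exp (16 * π) = 1 := by
    rw [← Real.exp_add, neg_add_cancel, Real.exp_zero]
  have he0 : 0 < Real.exp (16 * π) := Real.exp_pos _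
  calc (S.card : ℝ) = (S.card : ℝ) * Real.exp (-(16 * π)) * Real.exp (16 * π) := by
        rw [mul_assoc, hexp, mul_one]
    _ ≤ (4 * M * (3 : ℝ) ^ (2 + ε) * (R : ℝ) ^ (2 + ε)) * Real.exp (16 * π) :=
        mul_le_mul_of_nonneg_right (hsum.trans hbound) he0.le
    _ = _ := by ring

end Pool.Agent.H93.RS
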